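import Pool.Agent.P.MP_c18ddb_co.R.Mix

/-! Limits of rooted structures whose degrees tend to `3/7`. -/

namespace Pool.Agent.P.MP_c18ddb_co.R

open Finset Filter Topology

/-- a sequence of rooted structures along which all forms converge -/
structure LR : Type 1 where
  l : Filter ℕ
  ne : l.NeBot
  V : ℕ → Type
  inst : ∀ n, Fintype (V n)
  R : ∀ n, @Rt (V n) (inst n)
  herr : Tendsto (fun n => @WS.err _ (inst n) _ (@Rt.S _ (inst n) (R n))) l (𝓝 0)
  vM : List ℤ → ℝ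
  vZ : List ℤ → ℝ
  hM : ∀ b, Tendsto (fun n => @valM _ (inst n) (R n) b) l (𝓝 (vM b))
  hZ : ∀ z, Tendsto (fun n => @valZ _ (inst n) (R n) z) l (𝓝 (vZ z))

attribute [instance] LR.inst LR.ne

noncomputable def LR.eta (R : LR) : ℝ := R.vZ [0, 1, 1, 1, 1, 1, 1, 1, 1, 1, 1]

theorem lim_all {α : Type} {l : Filter ℕ} {f : ℕ → α → ℝ} {g : α → ℝ}
    (h : ∀ a, Tendsto (fun n => f n a) l (𝓝 (g a))) (L : List α) (hL : ∀ a ∈ L, 0 ≤ g a) {ε : ℝ}
    (hε : 0 < ε) : ∀ᶠ n in l, ∀ a ∈ L, -ε ≤ f n a := by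
  induction L with
  | nil => exact Eventually.of_forall fun n a ha => absurd ha List.not_mem_nil
  | cons a L ih =>
    filter_upwards [ih fun b hb => hL b (List.mem_cons_of_mem _ hb),
      (h a).eventually (lt_mem_nhds (show -ε < g a by linarith [hL a List.mem_cons_self]))]
      with n h1 h2 b hb
    rcases List.mem_cons.1 hb with rfl | hb
    · exact h2.le
    · exact h1 b hb

theorem lim_zero {K a : ℝ} (h : ∀ ε, 0 < ε → -(K * ε) ≤ a) : 0 ≤ a := by
  refine le_of_forall_pos_le_add fun ε hε => ?_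
  have h1 := h (ε / (|K| + 1)) (by positivity)
  have h2 : K * (ε / (|K| + 1)) ≤ ε := by
    rw [← mul_div_assoc, div_le_iff₀ (by positivity)]
    nlinarith [le_abs_self K]
  linarith

namespace L

def valM (R : LR) (b : List ℤ) : ℝ := R.vM b
def valZ (R : LR) (z : List ℤ) : ℝ := R.vZ z

def GM (R : LR) (b : List ℤ) : Prop := ∀ a ∈ cl actM [b], 0 ≤ valM R a
def GZ (R : LR) (z : List ℤ) : Prop := ∀ a ∈ cl actZ [z], 0 ≤ valZ R a

def mix (R : LR) (s : ℝ) (p : List ℤ × List ℤ) : ℝ := (1 - s) * valM R p.1 + s * valM R p.2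

noncomputable def symS (R : LR) : LR where
  l := R.l
  ne := R.ne
  V := R.V
  inst := R.inst
  R n := MP_c18ddb_co.R.symS (R.R n)
  herr := R.herr
  vM b := R.vM (actM b)
  vZ z := R.vZ (actZ z)
  hM b := by simpa only [sym_valM] using R.hM (actM b)
  hZ z := by simpa only [sym_valZ] using R.hZ (actZ z)

theorem sym_valM (R : LR) (b : List ℤ) : valM (symS R) b = valM R (actM b) := rfl
theorem sym_valZ (R : LR) (z : List ℤ) : valZ (symS R) z = valZ R (actZ z) := rfl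

theorem sym_valM4 (R : LR) (b : List ℤ) : valM R (actM (actM (actM (actM b)))) = valM R b :=
  tendsto_nhds_unique (R.hM _) (by simpa only [MP_c18ddb_co.R.sym_valM4, valM] using R.hM b)

theorem sym_valZ4 (R : LR) (z : List ℤ) : valZ R (actZ (actZ (actZ (actZ z)))) = valZ R z :=
  tendsto_nhds_unique (R.hZ _) (by simpa only [MP_c18ddb_co.R.sym_valZ4, valZ] using R.hZ z)

theorem sym_valM_nil (R : LR) : valM R [] = 0 :=
  tendsto_nhds_unique (R.hM _) (by simpa only [MP_c18ddb_co.R.sym_valM_nil] using tendsto_const_nhds)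

theorem sym_valZ_nil (R : LR) : valZ R [] = 0 :=
  tendsto_nhds_unique (R.hZ _) (by simpa only [MP_c18ddb_co.R.sym_valZ_nil] using tendsto_const_nhds)

theorem sym_valZ_nonneg (R : LR) {z : List ℤ} (h : ∀ a ∈ z, 0 ≤ a) : 0 ≤ valZ R z :=
  ge_of_tendsto' (R.hZ z) fun n => MP_c18ddb_co.R.sym_valZ_nonneg (R.R n) h

theorem valM_lin (R : LR) (b c : List ℤ) (k d : ℤ)
    (h : ∀ F < 11, c.getD F 0 = k * b.getD F 0 + d) : valM R c = k * valM R b + d :=
  tendsto_nhds_unique (R.hM c) (by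
    simpa only [fun n => MP_c18ddb_co.R.valM_lin (R.R n) b c k d h, valM] using
      ((R.hM b).const_mul (k : ℝ)).add_const (d : ℝ))

theorem eta_lim (R : LR) : Tendsto (fun n => (R.R n).eta) R.l (𝓝 R.eta) := by
  simpa only [valZ_eta, Int.cast_zero, Int.cast_one, zero_add, one_mul, LR.eta] using
    R.hZ [0, 1, 1, 1, 1, 1, 1, 1, 1, 1, 1]

theorem valZ_eta (R : LR) (a b : ℤ) :
    valZ R [a, b, b, b, b, b, b, b, b, b, b] = (a : ℝ) + b * R.eta :=
  tendsto_nhds_unique (R.hZ _) (by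
    simpa only [MP_c18ddb_co.R.valZ_eta] using ((eta_lim R).const_mul (b : ℝ)).const_add (a : ℝ))

theorem err_ev (R : LR) {ε : ℝ} (hε : 0 < ε) : ∀ᶠ n in R.l, (R.R n).S.err ≤ ε :=
  (R.herr.eventually (gt_mem_nhds hε)).mono fun _ h => h.le

theorem imp_lim {Lm Lz : List (List ℤ)} {tm tz : List ℤ} (h : Imp Lm Lz tm tz) (R : LR)
    (hM : ∀ b ∈ cl actM Lm, 0 ≤ valM R b) (hZ : ∀ z ∈ cl actZ Lz, 0 ≤ valZ R z) :
    0 ≤ valM R tm + valZ R tz := by
  obtain ⟨K, h⟩ := h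
  refine lim_zero (K := K) fun ε hε => ge_of_tendsto ((R.hM tm).add (R.hZ tz)) ?_
  filter_upwards [err_ev R hε, lim_all R.hM _ hM hε, lim_all R.hZ _ hZ hε] with n h1 h2 h3
  exact h _ _ ε hε.le h1 h2 h3

theorem mix_lim (R : LR) (s : ℝ) (p : List ℤ × List ℤ) :
    Tendsto (fun n => MP_c18ddb_co.R.mix (R.R n) s p) R.l (𝓝 (mix R s p)) :=
  ((R.hM p.1).const_mul _).add ((R.hM p.2).const_mul _)

theorem impX_lim {L : List (List ℤ × List ℤ)} {Lz : List (List ℤ)} {t : List ℤ × List ℤ}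
    (h : ImpX L Lz t) (R : LR) (s : ℝ) (hs0 : 0 ≤ s) (hs1 : s ≤ 1)
    (hL : ∀ p ∈ clP L, 0 ≤ mix R s p) (hZ : ∀ z ∈ cl actZ Lz, 0 ≤ valZ R z) : 0 ≤ mix R s t := by
  obtain ⟨K, h⟩ := h
  refine lim_zero (K := K) fun ε hε => ge_of_tendsto (mix_lim R s t) ?_
  filter_upwards [err_ev R hε, lim_all (mix_lim R s) _ hL hε, lim_all R.hZ _ hZ hε] with n h1 h2 h3
  exact h _ _ s ε hs0 hs1 hε.le h1 h2 h3

theorem sym_hyp {Lm Lz : List (List ℤ)} (R : LR)
    (h : (∀ b ∈ cl actM Lm, 0 ≤ valM R b) ∧ ∀ z ∈ cl actZ Lz, 0 ≤ valZ R z) :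
    (∀ b ∈ cl actM Lm, 0 ≤ valM (symS R) b) ∧ ∀ z ∈ cl actZ Lz, 0 ≤ valZ (symS R) z := by
  simp only [sym_valM, sym_valZ]
  exact ⟨sym_pass (sym_valM4 R) Lm h.1, sym_pass (sym_valZ4 R) Lz h.2⟩

theorem stepM {Lm Lz : List (List ℤ)} {tm : List ℤ} (h : Imp Lm Lz tm []) (R : LR)
    (hm : AllP (GM R) Lm) (hz : AllP (GZ R) Lz) : GM R tm := by
  have h0 : (∀ b ∈ cl actM Lm, 0 ≤ valM R b) ∧ ∀ z ∈ cl actZ Lz, 0 ≤ valZ R z :=
    ⟨sym_allP Lm hm, sym_allP Lz hz⟩
  have h1 := sym_hyp R h0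
  have h2 := sym_hyp _ h1
  have h3 := sym_hyp _ h2
  have g0 := imp_lim h _ h0.1 h0.2
  have g1 := imp_lim h _ h1.1 h1.2
  have g2 := imp_lim h _ h2.1 h2.2
  have g3 := imp_lim h _ h3.1 h3.2
  simp only [sym_valZ_nil, add_zero, sym_valM] at g0 g1 g2 g3
  intro a ha
  simp only [cl, List.mem_cons, List.not_mem_nil, or_false] at ha
  rcases ha with rfl | rfl | rfl | rfl <;> assumption

theorem stepZ {Lm Lz : List (List ℤ)} {tz : List ℤ} (h : Imp Lm Lz [] tz) (R : LR)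
    (hm : AllP (GM R) Lm) (hz : AllP (GZ R) Lz) : GZ R tz := by
  have h0 : (∀ b ∈ cl actM Lm, 0 ≤ valM R b) ∧ ∀ z ∈ cl actZ Lz, 0 ≤ valZ R z :=
    ⟨sym_allP Lm hm, sym_allP Lz hz⟩
  have h1 := sym_hyp R h0
  have h2 := sym_hyp _ h1
  have h3 := sym_hyp _ h2
  have g0 := imp_lim h _ h0.1 h0.2
  have g1 := imp_lim h _ h1.1 h1.2
  have g2 := imp_lim h _ h2.1 h2.2
  have g3 := imp_lim h _ h3.1 h3.2
  simp only [sym_valM_nil, zero_add, sym_valZ] at g0 g1 g2 g3
  intro a ha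
  simp only [cl, List.mem_cons, List.not_mem_nil, or_false] at ha
  rcases ha with rfl | rfl | rfl | rfl <;> assumption

theorem GZ_nonneg (R : LR) (z : List ℤ) (h : ∀ a ∈ z, 0 ≤ a) : GZ R z := by
  intro a ha
  simp only [cl, List.mem_cons, List.not_mem_nil, or_false] at ha
  have h1 := sym_actZ_nonneg h
  have h2 := sym_actZ_nonneg h1
  have h3 := sym_actZ_nonneg h2
  rcases ha with rfl | rfl | rfl | rfl <;> exact sym_valZ_nonneg R ‹_›

theorem GZ_eta (R : LR) (a b : ℤ) :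
    GZ R [a, b, b, b, b, b, b, b, b, b, b] ↔ 0 ≤ (a : ℝ) + b * R.eta := by
  have e : actZ [a, b, b, b, b, b, b, b, b, b, b] = [a, b, b, b, b, b, b, b, b, b, b] := rfl
  simp only [GZ, cl, e, List.mem_cons, List.not_mem_nil, or_false, or_self, forall_eq, valZ_eta]

theorem GM_false (R : LR) : ¬ GM R [-1, -1, -1, -1, -1, -1, -1, -1, -1, -1, -1] := by
  intro h
  have h1 := h _ (List.mem_cons_self ..)
  rw [valM_lin R [-1, -1, -1, -1, -1, -1, -1, -1, -1, -1, -1] _ 0 (-1) (by decide)] at h1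
  norm_num at h1

theorem mix_symS (R : LR) (s : ℝ) (p : List ℤ × List ℤ) :
    mix (symS R) s p = mix R s (a2 p) := by
  simp only [mix, sym_valM, a2]

theorem mix_pass (R : LR) (s : ℝ) (L : List (List ℤ × List ℤ))
    (h : ∀ p ∈ clP L, 0 ≤ mix R s p) : ∀ p ∈ clP L, 0 ≤ mix (symS R) s p := by
  simp only [mix_symS]
  induction L with
  | nil => simp [clP]
  | cons c l ih =>
    simp only [clP, List.mem_cons] at h ⊢
    rintro b (rfl | rfl | rfl | rfl | hb)
    · exact h _ (Or.inr (Or.inl rfl))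
    · exact h _ (Or.inr (Or.inr (Or.inl rfl)))
    · exact h _ (Or.inr (Or.inr (Or.inr (Or.inl rfl))))
    · have := h _ (Or.inl rfl)
      simpa only [mix, a2, sym_valM4] using this
    · exact ih (fun b hb => h b (Or.inr (Or.inr (Or.inr (Or.inr hb))))) b hb

theorem stepX {L : List (List ℤ × List ℤ)} {Lz : List (List ℤ)} {t : List ℤ × List ℤ}
    (h : ImpX L Lz t) (R : LR) (s : ℝ) (hs0 : 0 ≤ s) (hs1 : s ≤ 1)
    (hL : ∀ p ∈ clP L, 0 ≤ mix R s p) (hz : AllP (GZ R) Lz) :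
    0 ≤ mix R s t ∧ 0 ≤ mix R s (a2 t) ∧ 0 ≤ mix R s (a2 (a2 t)) ∧
      0 ≤ mix R s (a2 (a2 (a2 t))) := by
  have h0 : (∀ b ∈ cl actM [], 0 ≤ valM R b) ∧ ∀ z ∈ cl actZ Lz, 0 ≤ valZ R z :=
    ⟨by simp [cl], sym_allP Lz hz⟩
  have h1 := sym_hyp R h0
  have h2 := sym_hyp _ h1
  have h3 := sym_hyp _ h2
  have l1 := mix_pass R s L hL
  have l2 := mix_pass _ s L l1
  have l3 := mix_pass _ s L l2
  have g0 := impX_lim h _ s hs0 hs1 hL h0.2
  have g1 := impX_lim h _ s hs0 hs1 l1 h1.2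
  have g2 := impX_lim h _ s hs0 hs1 l2 h2.2
  have g3 := impX_lim h _ s hs0 hs1 l3 h3.2
  simp only [mix_symS] at g1 g2 g3
  exact ⟨g0, g1, g2, g3⟩

theorem mix_dbl (R : LR) (s : ℝ) (l : List (List ℤ)) (h : AllP (GM R) l) :
    ∀ p ∈ clP (dbl l), 0 ≤ mix R s p := by
  induction l with
  | nil => simp [dbl, clP]
  | cons b l ih =>
    obtain ⟨h1, h2⟩ := h
    have e : ∀ a, mix R s (a, a) = valM R a := fun a => by unfold mix; ring
    simp only [GM, cl, List.mem_cons, List.not_mem_nil, or_false, forall_eq_or_imp, forall_eq] at h1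
    intro p hp
    simp only [dbl, List.map_cons, clP, a2, List.mem_cons] at hp
    rcases hp with rfl | rfl | rfl | rfl | hp
    · rw [e]; exact h1.1
    · rw [e]; exact h1.2.1
    · rw [e]; exact h1.2.2.1
    · rw [e]; exact h1.2.2.2
    · exact ih h2 p hp

theorem contract (R : LR) (lf Lz Lz' : List (List ℤ))
    (hA : ImpX ((bA 0, bA 96) :: (bB 0, bB 396) :: dbl lf) Lz (bA 0, bA 77))
    (hB : ImpX ((bA 0, bA 96) :: (bB 0, bB 396) :: dbl lf) Lz' (bB 0, bB 383))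
    (hf : AllP (GM R) lf) (hz : AllP (GZ R) Lz) (hz' : AllP (GZ R) Lz')
    (h0 : GM R [864, 864, -136, -136, -136, -136, -136, -136, -136, -136, -136])
    (h1 : GM R [-186, -186, 814, 814, -186, -186, -186, -186, -186, -186, -186]) :
    GM R (bA 0) ∧ GM R (bB 0) := by
  simp only [GM, cl, List.mem_cons, List.not_mem_nil, or_false, forall_eq_or_imp,
    forall_eq] at h0 h1 ⊢
  have eA : ∀ d, actM (bA d) = bA d := fun d => rfl
  have a1 := valM_lin R (bA 0) (bA 96) 1 96 (by decide)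
  have a2' := valM_lin R (bA 0) (bA 77) 1 77 (by decide)
  have a3 := valM_lin R _ (bA 96) 14 0 (by decide :
    ∀ F < 11, (bA 96).getD F 0 =
      14 * [864, 864, -136, -136, -136, -136, -136, -136, -136, -136, -136].getD F 0 + 0)
  have b10 := valM_lin R (bB 0) (bB 396) 1 396 (by decide)
  have b11 := valM_lin R (actM (bB 0)) (actM (bB 396)) 1 396 (by decide)
  have b12 := valM_lin R (actM (actM (bB 0))) (actM (actM (bB 396))) 1 396 (by decide)
  have b13 := valM_lin R (actM (actM (actM (bB 0)))) (actM (actM (actM (bB 396)))) 1 396 (by decide)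
  have b20 := valM_lin R (bB 0) (bB 383) 1 383 (by decide)
  have b21 := valM_lin R (actM (bB 0)) (actM (bB 383)) 1 383 (by decide)
  have b22 := valM_lin R (actM (actM (bB 0))) (actM (actM (bB 383))) 1 383 (by decide)
  have b23 := valM_lin R (actM (actM (actM (bB 0)))) (actM (actM (actM (bB 383)))) 1 383 (by decide)
  have b30 := valM_lin R [-186, -186, 814, 814, -186, -186, -186, -186, -186, -186, -186]
    (bB 396) 14 0 (by decide)
  have b31 := valM_lin R (actM [-186, -186, 814, 814, -186, -186, -186, -186, -186, -186, -186])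
    (actM (bB 396)) 14 0 (by decide)
  have b32 := valM_lin R
    (actM (actM [-186, -186, 814, 814, -186, -186, -186, -186, -186, -186, -186]))
    (actM (actM (bB 396))) 14 0 (by decide)
  have b33 := valM_lin R
    (actM (actM (actM [-186, -186, 814, 814, -186, -186, -186, -186, -186, -186, -186])))
    (actM (actM (actM (bB 396)))) 14 0 (by decide)
  obtain ⟨h00, -⟩ := h0
  obtain ⟨h10, h11, h12, h13⟩ := h1
  rw [eA, eA, eA]
  push_cast at a1 a2' a3 b10 b11 b12 b13 b20 b21 b22 b23 b30 b31 b32 b33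
  set a := valM R (bA 0) with ha
  set c0 := valM R (bB 0) with hc0
  set c1 := valM R (actM (bB 0)) with hc1
  set c2 := valM R (actM (actM (bB 0))) with hc2
  set c3 := valM R (actM (actM (actM (bB 0)))) with hc3
  obtain ⟨s, s0, sa, s1, s2, s3, s4, hs⟩ : ∃ s : ℝ, 0 ≤ s ∧ -a / 96 ≤ s ∧ -c0 / 396 ≤ s ∧
      -c1 / 396 ≤ s ∧ -c2 / 396 ≤ s ∧ -c3 / 396 ≤ s ∧ (s = 0 ∨ s = -a / 96 ∨ s = -c0 / 396 ∨
      s = -c1 / 396 ∨ s = -c2 / 396 ∨ s = -c3 / 396) := by
    refine ⟨max 0 (max (-a / 96) (max (-c0 / 396) (max (-c1 / 396) (max (-c2 / 396) (-c3 / 396))))),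
      by simp, by simp, by simp, by simp, by simp, by simp, ?_⟩
    refine (max_choice _ _).imp_right fun h => ?_
    rw [h]
    refine (max_choice _ _).imp_right fun h => ?_
    rw [h]
    refine (max_choice _ _).imp_right fun h => ?_
    rw [h]
    refine (max_choice _ _).imp_right fun h => ?_
    rw [h]
    exact max_choice _ _
  have hs1 : s ≤ 1 := by
    rcases hs with h | h | h | h | h | h <;> linarith
  have hL : ∀ p ∈ clP ((bA 0, bA 96) :: (bB 0, bB 396) :: dbl lf), 0 ≤ mix R s p := by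
    intro p hp
    simp only [clP, a2, eA, List.mem_cons] at hp
    rcases hp with rfl | rfl | rfl | rfl | rfl | rfl | rfl | rfl | hp
    iterate 4
      simp only [mix]
      rw [a1]
      linarith
    · simp only [mix]
      rw [b10]
      linarith
    · simp only [mix]
      rw [b11]
      linarith
    · simp only [mix]
      rw [b12]
      linarith
    · simp only [mix]
      rw [b13]
      linarith
    · exact mix_dbl R s lf hf p hp
  have gA := (stepX hA R s s0 hs1 hL hz).1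
  obtain ⟨g0, g1, g2, g3⟩ := stepX hB R s s0 hs1 hL hz'
  simp only [mix, a2] at gA g0 g1 g2 g3
  rw [a2'] at gA
  rw [b20] at g0
  rw [b21] at g1
  rw [b22] at g2
  rw [b23] at g3
  have hz0 : s = 0 := by
    rcases hs with h | h | h | h | h | h <;> linarith
  subst hz0
  refine ⟨⟨?_, ?_, ?_, ?_⟩, ?_, ?_, ?_, ?_⟩ <;> linarith

end L

end Pool.Agent.P.MP_c18ddb_co.R
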