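import Pool.Agent.P.MP_c18ddb_co.R.RowsN

/-! Checker for certificates about rooted structures. -/

namespace Pool.Agent.P.MP_c18ddb_co.R

open Finset

structure C2 where
  Q : ℕ
  Qv : ℕ
  m0 : ℕ
  one : List (List ℕ)
  reg : List ℕ
  ker : List (ℕ × ℕ × List ℕ)
  prs : ℕ
  pw : List (ℕ × ℕ)

def BB : ℕ := 340282366920938463463374607431768211456

def regF (Q n : ℕ) : List (ℤ × ℕ) :=
  (uns Q 6 n).zipIdx.flatMap fun p => [(Int.mul 7 p.1, 16 + p.2), (Int.mul (-3) p.1, 0)]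

def cfgs : List (ℕ × ℕ) :=
  (List.range 11).flatMap fun F => (List.range (11 - F)).map fun i => (F, F + i)

noncomputable section

def wsw (f : ℕ) : ℕ × ℕ := (f, swp (Nat.pow BB 22) f)

/-- terms that depend on the first point: products with mass inequalities, regularity -/
def tabF (C : C2) (LM : List (List ℤ)) (pk u nu : ℕ → ℕ) (F : ℕ) : List (List ℤ × ℕ × ℕ) × ℕ :=
  ((lk [] C.one F).map fun g => (lk [] LM (Nat.mod g 256),
      wsw (cmb C.Q (red2 F 11 0) (blue2 F 11 0) pk (Nat.div g 256))),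
    spn u nu (regF C.Q (lk 0 C.reg F)))

def useT (t : List (List ℤ × ℕ × ℕ) × ℕ) (G : ℕ) : ℕ :=
  Nat.add t.2 (nsum (fun g => sm2 (lk 0 g.1 G) g.2.1 g.2.2) t.1)

/-- root forms with sums of squares: rank, columns, packed form and its negative -/
def kerT (C : C2) (Zs : List (List (ℤ × ℕ))) (u nu : ℕ → ℕ) : List (ℕ × List ℕ × ℕ × ℕ) :=
  C.ker.map fun k => (k.2.1, k.2.2, wsw (spn u nu (lk [] ([(1, 0)] :: Zs) k.1)))

def useK (Qv F G : ℕ) (k : ℕ × List ℕ × ℕ × ℕ) : ℕ :=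
  Nat.add
    (Nat.mul (Nat.add (dotp Qv k.1 (lk 0 k.2.1 F) (lk 0 k.2.1 G))
      (Nat.mul k.1 (Nat.mul (Nat.div Qv 2) (Nat.div Qv 2)))) k.2.2.1)
    (Nat.mul (Nat.mul (Nat.div Qv 2) (Nat.add (sump Qv k.1 (lk 0 k.2.1 F))
      (sump Qv k.1 (lk 0 k.2.1 G)))) k.2.2.2)

/-- products of two mass inequalities -/
def useP (LM : List (List ℤ)) (u0 nu0 F G e : ℕ) : ℕ :=
  Nat.mul (Nat.div e 65536) (sm2 (Int.add
    (Int.mul (lk 0 (lk [] LM (Nat.mod e 256)) F) (lk 0 (lk [] LM (Nat.mod (Nat.div e 256) 256)) G))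
    (Int.mul (lk 0 (lk [] LM (Nat.mod e 256)) G) (lk 0 (lk [] LM (Nat.mod (Nat.div e 256) 256)) F)))
    u0 nu0)

def chkP (Q : ℕ) (pk bd : ℕ → ℕ) (F G X Y : ℕ) (q : ℕ × ℕ) : Bool :=
  finN BB 21 3 (Nat.add X (swp (Nat.pow BB 22)
      (Nat.add (Nat.add Y (bd 0)) (cmb Q (red2 F G 0) (blue2 F G 0) pk q.1)))) &&
    finN BB 21 3 (Nat.add X (swp (Nat.pow BB 22)
      (Nat.add (Nat.add Y (bd 1)) (cmb Q (red2 F G 1) (blue2 F G 1) pk q.2))))

def go {α β : Type} (f : α → β → Bool) (l : List α) : List β → Bool :=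
  List.rec (motive := fun _ => List β → Bool) (fun _ => true)
    (fun a _ ih l' => List.rec false (fun b t _ => f a b && ih t) l') l

def chk2a (C : C2) (tm : List ℤ) (LM : List (List ℤ)) (pk : ℕ → ℕ) (bd : ℕ → ℕ → ℕ → ℕ)
    (u0 nu0 tz : ℕ) (T1 T2 : ℕ → List (List ℤ × ℕ × ℕ) × ℕ) (K : List (ℕ × List ℕ × ℕ × ℕ)) : Bool :=
  go (fun p q => fN p.1 fun F => fN p.2 fun G => chkP C.Q pk (bd F G) F G
    (Nat.mul C.m0 (Nat.add tz (sm2 (Int.add (lk 0 tm F) (lk 0 tm G)) u0 nu0)))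
    (Nat.add (Nat.add (useT (T1 F) G) (useT (T2 G) F))
      (Nat.add (Nat.mul 2 (nsum (useK C.Qv F G) K)) (ploop C.Q (useP LM u0 nu0 F G) 200 C.prs)))
    q) cfgs C.pw

def chk2b (C : C2) (tm tz : List ℤ) (LM : List (List ℤ)) (Zs : List (List (ℤ × ℕ)))
    (bd : ℕ → ℕ → ℕ → List (ℤ × ℕ)) (u nu u1 nu1 : ℕ → ℕ) : Bool :=
  Nat.blt 0 C.m0 && chk2a C tm LM (fun c => spn u nu (rowZ Zs c))
    (fun F G c => spn u nu (bd F G c)) (u 0) (nu 0)
    (Nat.mul 2 (spn u nu (zf tz)))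
    (tabF C LM (fun c => spn u1 nu1 (rowZ Zs c)) u nu)
    (tabF C LM (fun c => spn (fun k => bif Nat.blt k 16 then u (sw k) else 0)
      (fun k => bif Nat.blt k 16 then nu (sw k) else 0) (rowZ Zs c))
      (fun k => u (sw k)) (fun k => nu (sw k)))
    (kerT C Zs u nu)

def chk2g (C : C2) (Lm Lz : List (List ℤ)) (tm tz : List ℤ) (bd : ℕ → ℕ → ℕ → List (ℤ × ℕ)) :
    Bool :=
  chk2b C tm tz (cl actM Lm) ((cl actZ Lz).map zf) bd (upos BB 22 22) (uneg BB 22 22)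
    (upos BB 22 16) (uneg BB 22 16)

def chk2 (C : C2) (Lm Lz : List (List ℤ)) (tm tz : List ℤ) : Bool :=
  chk2g C Lm Lz tm tz fun _ _ _ => []

end

theorem c2_go {α β : Type} (f : α → β → Bool) (l : List α) :
    ∀ l' : List β, go f l l' = true → ∀ a ∈ l, ∃ b ∈ l', f a b = true := by
  induction l with
  | nil => intro _ _ a ha; simp at ha
  | cons a l ih =>
    intro l' h
    cases l' with
    | nil => exact absurd h (by change ¬ false = true; simp)
    | cons b t =>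
      have h' : (f a b && go f l t) = true := h
      rw [Bool.and_eq_true] at h'
      intro a' ha'
      rcases List.mem_cons.1 ha' with rfl | ha'
      · exact ⟨b, List.mem_cons_self, h'.1⟩
      · obtain ⟨b', hb, hb'⟩ := ih t h'.2 a' ha'
        exact ⟨b', List.mem_cons_of_mem _ hb, hb'⟩

theorem c2_cfgs {F G : ℕ} (h : F ≤ G) (hG : G ≤ 10) : (F, G) ∈ cfgs := by
  refine List.mem_flatMap.2 ⟨F, List.mem_range.2 (by omega), List.mem_map.2
    ⟨G - F, List.mem_range.2 (by omega), ?_⟩⟩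
  rw [Nat.add_sub_cancel' h]

theorem c2_getD {α : Type} (l : List α) (i : ℕ) (x : α) : l.getD i x ∈ l ∨ l.getD i x = x := by
  rcases lt_or_ge i l.length with h | h
  · rw [List.getD_eq_getElem _ _ h]
    exact Or.inl (List.getElem_mem h)
  · exact Or.inr (List.getD_eq_default _ _ h)

theorem c2_blt {a b : ℕ} (h : a < b) : Nat.blt a b = true := Nat.blt_eq.mpr h

theorem c2_BB : 2 ≤ BB := by unfold BB; norm_num

theorem c2_nsum_map {α β : Type} (f : β → ℕ) (φ : α → β) (l : List α) :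
    nsum f (l.map φ) = nsum (fun a => f (φ a)) l := by
  rw [nsum_eq, nsum_eq, List.map_map]
  rfl

/-- entry of a mass form -/
def mE (LM : List (List ℤ)) (i F : ℕ) : ℤ := (LM.getD i []).getD F 0

noncomputable section

abbrev Rp (d : ℕ → ℝ) (f : ℕ) (v : ℝ) : Prop := RepN BB (2 * 22 + 1) (sg 22 d) f v

def grpR (C : C2) (LM : List (List ℤ)) (val : ℕ → ℝ) (F G : ℕ) : ℝ :=
  ((C.one.getD F []).map fun g => (mE LM (g % 256) G : ℝ) *
    cmbR C.Q (red2 F 11 0) (blue2 F 11 0) val (g / 256)).sum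

def eK (Qv c i : ℕ) : ℝ := ((c / Qv ^ i % Qv : ℕ) : ℝ) - ((Qv / 2 : ℕ) : ℝ)

def kerR (C : C2) (val : ℕ → ℝ) (F G : ℕ) : ℝ :=
  (C.ker.map fun k => (∑ i ∈ range k.2.1,
    eK C.Qv (k.2.2.getD F 0) i * eK C.Qv (k.2.2.getD G 0) i) * val k.1).sum

def prR (C : C2) (LM : List (List ℤ)) (F G : ℕ) : ℝ :=
  ((unp C.Q 200 C.prs).map fun e => ((e / 65536 : ℕ) : ℝ) *
    ((mE LM (e % 256) F : ℝ) * mE LM (e / 256 % 256) G +
      (mE LM (e % 256) G : ℝ) * mE LM (e / 256 % 256) F)).sum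

end

theorem Rp.cast {d : ℕ → ℝ} {f : ℕ} {v w : ℝ} (h : Rp d f v) (e : v = w) : Rp d f w := e ▸ h

theorem c2_useT {d : ℕ → ℝ} (C : C2) (LM : List (List ℤ)) {pk u nu : ℕ → ℕ} {val dd : ℕ → ℝ}
    (hpk : ∀ c, Rp d (pk c) (val c)) (hu : ∀ k, Rp d (u k) (dd k))
    (hnu : ∀ k, Rp d (nu k) (-dd k)) (F G : ℕ) :
    Rp d (useT (tabF C LM pk u nu F) G)
      (sev dd (regF C.Q (C.reg.getD F 0)) + grpR C LM val F G) := by
  unfold useT tabF grpR
  dsimp only
  refine repN_add ?_ ?_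
  · rw [lk_eq]
    exact repN_spn hu hnu _
  · rw [c2_nsum_map, lk_eq]
    refine repN_nsum _ fun g _ => ?_
    have h1 := repN_cmb hpk C.Q (red2 F 11 0) (blue2 F 11 0) (Nat.div g 256)
    have h2 := repN_sm2 (mE LM (g % 256) G) h1 (repN_swp c2_BB h1)
    have e : lk 0 (lk [] LM (Nat.mod g 256)) G = mE LM (g % 256) G := by
      rw [lk_eq, lk_eq]
      rfl
    dsimp only [wsw]
    rw [e]
    exact h2

theorem c2_useK {d : ℕ → ℝ} (Qv F G r : ℕ) (cols : List ℕ) {f : ℕ} {v : ℝ} (hf : Rp d f v) :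
    Rp d (useK Qv F G (r, cols, wsw f))
      ((∑ i ∈ range r, eK Qv (cols.getD F 0) i * eK Qv (cols.getD G 0) i) * v) := by
  refine Rp.cast (repN_add (repN_sm _ hf) (repN_sm _ (repN_swp c2_BB hf))) ?_
  simp only [lk_eq, dotp_eq, sump_eq, Nat.add_eq, Nat.mul_eq, eK]
  have e : Nat.div Qv 2 = Qv / 2 := rfl
  rw [e]
  generalize Qv / 2 = h
  push_cast
  have : ∀ (a b : ℕ → ℝ), ∑ i ∈ range r, (a i - h) * (b i - h) =
      ∑ i ∈ range r, a i * b i + r * (h * h) - h * (∑ i ∈ range r, a i + ∑ i ∈ range r, b i) := by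
    intro a b
    induction r with
    | zero => simp
    | succ r ih =>
      rw [sum_range_succ, sum_range_succ, sum_range_succ, sum_range_succ, ih]
      push_cast
      ring
  rw [this]
  ring

theorem c2_kerT {d : ℕ → ℝ} (C : C2) (Zs : List (List (ℤ × ℕ))) {u nu : ℕ → ℕ} {dd : ℕ → ℝ}
    (hu : ∀ k, Rp d (u k) (dd k)) (hnu : ∀ k, Rp d (nu k) (-dd k)) (F G : ℕ) :
    Rp d (nsum (useK C.Qv F G) (kerT C Zs u nu))
      (kerR C (fun n => sev dd (([(1, 0)] :: Zs).getD n [])) F G) := by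
  unfold kerT kerR
  rw [c2_nsum_map]
  refine repN_nsum _ fun k _ => ?_
  rw [lk_eq]
  exact c2_useK C.Qv F G k.2.1 k.2.2 (repN_spn hu hnu _)

theorem c2_useP {d : ℕ → ℝ} (C : C2) (LM : List (List ℤ)) {u0 nu0 : ℕ} (hu : Rp d u0 1)
    (hnu : Rp d nu0 (-1)) (F G : ℕ) :
    Rp d (ploop C.Q (useP LM u0 nu0 F G) 200 C.prs) (prR C LM F G) := by
  unfold prR
  refine repN_ploop _ _ _ fun e => ?_
  refine Rp.cast (repN_sm _ (repN_sm2 _ hu hnu)) ?_
  simp only [lk_eq, Int.add_def, Int.mul_def]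
  push_cast
  rw [mul_one]
  rfl

/-- total multiplier of a combination -/
noncomputable def mass (Q n : ℕ) : ℝ := ((unp Q 200 n).map fun e => ((e / 524288 : ℕ) : ℝ)).sum

theorem mass_nonneg (Q n : ℕ) : 0 ≤ mass Q n := by
  refine List.sum_nonneg fun v hv => ?_
  obtain ⟨e, -, rfl⟩ := List.mem_map.1 hv
  exact Nat.cast_nonneg _

theorem cmbR_ge {red blue : ℕ} {val : ℕ → ℝ} {ε : ℝ} (hε : 0 ≤ ε) (Q : ℕ)
    (h : ∀ c, okM red blue (rowM c) = true → -ε ≤ val c) (n : ℕ) :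
    -(mass Q n * ε) ≤ cmbR Q red blue val n := by
  unfold mass cmbR
  induction unp Q 200 n with
  | nil => simp
  | cons e l ih =>
    simp only [List.map_cons, List.sum_cons]
    have h0 : (0 : ℝ) ≤ ((e / 524288 : ℕ) : ℝ) := Nat.cast_nonneg _
    cases hc : okM red blue (rowM (e % 524288))
    · have := mul_nonneg h0 hε
      simp only [cond_false]
      linarith
    · have := mul_le_mul_of_nonneg_left (h _ hc) h0
      simp only [cond_true]
      linarith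

theorem sev_bd (l : List (ℤ × ℕ)) : ∃ B : ℝ, 0 ≤ B ∧ ∀ d : ℕ → ℝ, (∀ k, |d k| ≤ 3) →
    |sev d l| ≤ B := by
  induction l with
  | nil => exact ⟨0, le_rfl, fun d _ => by simp [sev]⟩
  | cons p l ih =>
    obtain ⟨B, hB, h⟩ := ih
    refine ⟨|(p.1 : ℝ)| * 3 + B, by positivity, fun d hd => ?_⟩
    rw [sev]
    refine (abs_add_le _ _).trans (add_le_add ?_ (h d hd))
    rw [abs_mul]
    exact mul_le_mul_of_nonneg_left (hd _) (abs_nonneg _)

theorem cmbR_bd (Q n : ℕ) (row : ℕ → List (ℤ × ℕ)) : ∃ B : ℝ, 0 ≤ B ∧ ∀ (red blue : ℕ) (d : ℕ → ℝ),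
    (∀ k, |d k| ≤ 3) → |cmbR Q red blue (fun c => sev d (row c)) n| ≤ B := by
  unfold cmbR
  induction unp Q 200 n with
  | nil => exact ⟨0, le_rfl, fun _ _ _ _ => by simp⟩
  | cons e l ih =>
    obtain ⟨B, hB, h⟩ := ih
    obtain ⟨B', hB', h'⟩ := sev_bd (row (e % 524288))
    refine ⟨((e / 524288 : ℕ) : ℝ) * B' + B, by positivity, fun red blue d hd => ?_⟩
    simp only [List.map_cons, List.sum_cons]
    refine (abs_add_le _ _).trans (add_le_add ?_ (h red blue d hd))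
    cases okM red blue (rowM (e % 524288))
    · simp only [cond_false, abs_zero]
      positivity
    · simp only [cond_true]
      rw [abs_mul, Nat.abs_cast]
      exact mul_le_mul_of_nonneg_left (h' d hd) (Nat.cast_nonneg _)

theorem c2_mul {a b K K' B B' ε : ℝ} (hε : 0 ≤ ε) (hK : 0 ≤ K) (hK' : 0 ≤ K')
    (ha : -(K * ε) ≤ a) (hb : -(K' * ε) ≤ b) (hA : |a| ≤ B) (hB : |b| ≤ B') :
    -((K * B' + K' * B) * ε) ≤ a * b := by
  have h1 := mul_nonneg hK hε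
  have h2 := mul_nonneg hK' hε
  obtain ⟨a1, a2⟩ := abs_le.1 hA
  obtain ⟨b1, b2⟩ := abs_le.1 hB
  have h3 := mul_nonneg h1 (show 0 ≤ B' by linarith)
  have h4 := mul_nonneg h2 (show 0 ≤ B by linarith)
  rcases le_total 0 a with p | p <;> rcases le_total 0 b with q | q
  · nlinarith [mul_nonneg p q]
  · nlinarith [mul_le_mul_of_nonneg_left hb p, mul_le_mul_of_nonneg_left a2 h2]
  · nlinarith [mul_le_mul_of_nonneg_left ha q, mul_le_mul_of_nonneg_left b2 h1]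
  · nlinarith [mul_nonneg_of_nonpos_of_nonpos p q]

theorem c2_unif {α : Type} (l : List α) (P : α → ℝ → Prop)
    (hm : ∀ a K K', K ≤ K' → P a K → P a K') (h : ∀ a, ∃ K, 0 ≤ K ∧ P a K) :
    ∃ K, 0 ≤ K ∧ ∀ a ∈ l, P a K := by
  induction l with
  | nil => exact ⟨0, le_rfl, fun a ha => absurd ha List.not_mem_nil⟩
  | cons a l ih =>
    obtain ⟨K, hK, h1⟩ := ih
    obtain ⟨K', hK', h2⟩ := h a
    refine ⟨K + K', by positivity, fun b hb => ?_⟩
    rcases List.mem_cons.1 hb with rfl | hb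
    · exact hm _ _ _ (by linarith) h2
    · exact hm _ _ _ (by linarith) (h1 b hb)

theorem c2_cons {α : Type} (l : List α) (i : ℕ) (x : α) : l.getD i x ∈ x :: l :=
  (c2_getD l i x).elim (List.mem_cons_of_mem _) fun h => h.symm ▸ List.mem_cons_self

theorem rowZ_cases (Zs : List (List (ℤ × ℕ))) (c : ℕ) : rowZ Zs c = rowZ [] c ∨ rowZ Zs c ∈ Zs := by
  unfold rowZ rowL
  generalize c / 8 % 8 = a
  generalize c / 64 % 8 = b
  generalize c / 512 % 8 = d
  generalize c / 4096 % 8 = e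
  generalize c / 32768 % 8 = f
  generalize c / 8 = x
  generalize c % 8 = k
  match k with
  | 0 | 1 | 2 | 3 | 4 | 5 | 6 => exact Or.inl rfl
  | n + 7 =>
    match x with
    | 0 | 1 => exact Or.inl rfl
    | x + 2 => exact (c2_getD Zs x []).symm

theorem c2_chkP {d : ℕ → ℝ} (h0 : d 0 = 1) (hd : ∀ i, 0 ≤ d i ∧ d i ≤ 3) {Q : ℕ} {pk bd : ℕ → ℕ}
    {val vb : ℕ → ℝ} (hpk : ∀ c, Rp d (pk c) (val c)) (hbd : ∀ c, Rp d (bd c) (vb c))
    {F G X Y : ℕ} {vX vY ε : ℝ} (hε : 0 ≤ ε) (hX : Rp d X vX)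
    (hY : Rp d Y vY) {q : ℕ × ℕ} (h : chkP Q pk bd F G X Y q = true) {c : ℕ} (hc : c = 0 ∨ c = 1)
    (hv : ∀ n, okM (red2 F G c) (blue2 F G c) (rowM n) = true → -ε ≤ val n) :
    vY + vb c ≤ vX + (mass Q q.1 + mass Q q.2) * ε := by
  have key : ∀ n, finN BB 21 3 (Nat.add X (swp (Nat.pow BB 22)
      (Nat.add (Nat.add Y (bd c)) (cmb Q (red2 F G c) (blue2 F G c) pk n)))) = true →
      vY + vb c ≤ vX + mass Q n * ε := by
    intro n hn
    have h1 := repN_add hX (repN_swp c2_BB (repN_add (repN_add hY (hbd c))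
      (repN_cmb hpk Q (red2 F G c) (blue2 F G c) n)))
    have h2 := finN_sound (m := 21) (U := 3) h1 h0 (by simpa using hd) hn
    have h3 := cmbR_ge hε Q hv n
    linarith
  unfold chkP at h
  rw [Bool.and_eq_true] at h
  have m1 := mul_nonneg (mass_nonneg Q q.1) hε
  have m2 := mul_nonneg (mass_nonneg Q q.2) hε
  rcases hc with rfl | rfl
  · linarith [key _ h.1]
  · linarith [key _ h.2]

theorem c2_chk2a {C : C2} {tm : List ℤ} {LM : List (List ℤ)} {pk : ℕ → ℕ} {bd : ℕ → ℕ → ℕ → ℕ}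
    {u0 nu0 tz : ℕ} {T1 T2 : ℕ → List (List ℤ × ℕ × ℕ) × ℕ} {K : List (ℕ × List ℕ × ℕ × ℕ)}
    (h : chk2a C tm LM pk bd u0 nu0 tz T1 T2 K = true) {F G : ℕ} (hFG : F ≤ G) (hG : G ≤ 10) :
    ∃ q ∈ C.pw, chkP C.Q pk (bd F G) F G
      (Nat.mul C.m0 (Nat.add tz (sm2 (Int.add (lk 0 tm F) (lk 0 tm G)) u0 nu0)))
      (Nat.add (Nat.add (useT (T1 F) G) (useT (T2 G) F))
        (Nat.add (Nat.mul 2 (nsum (useK C.Qv F G) K))
          (ploop C.Q (useP LM u0 nu0 F G) 200 C.prs))) q = true := by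
  unfold chk2a at h
  obtain ⟨q, hq', hq⟩ := c2_go _ _ _ h _ (c2_cfgs hFG hG)
  refine ⟨q, hq', ?_⟩
  rw [fN_eq, fN_eq] at hq
  exact hq

section
variable {V : Type} [Fintype V]

/-- mean with respect to the weights -/
noncomputable def E1 (R : Rt V) (f : V → ℝ) : ℝ := ∑ y, R.S.x y * f y

theorem E1_add (R : Rt V) (f g : V → ℝ) : E1 R (fun y => f y + g y) = E1 R f + E1 R g := by
  simp only [E1, mul_add, sum_add_distrib]

theorem E1_sub (R : Rt V) (f g : V → ℝ) : E1 R (fun y => f y - g y) = E1 R f - E1 R g := by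
  simp only [E1, mul_sub, sum_sub_distrib]

theorem E1_mul (R : Rt V) (c : ℝ) (f : V → ℝ) : E1 R (fun y => c * f y) = c * E1 R f := by
  simp only [E1, mul_sum, mul_left_comm]

theorem E1_mul' (R : Rt V) (c : ℝ) (f : V → ℝ) : E1 R (fun y => f y * c) = E1 R f * c := by
  simp only [E1, sum_mul, mul_assoc]

theorem E1_const (R : Rt V) (c : ℝ) : E1 R (fun _ => c) = c := by
  rw [E1, ← sum_mul, R.S.x_sum, one_mul]

theorem E1_nonneg (R : Rt V) {f : V → ℝ} (h : ∀ y, 0 ≤ f y) : 0 ≤ E1 R f :=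
  sum_nonneg fun y _ => mul_nonneg (R.S.x_nonneg y) (h y)

theorem E1_comm (R : Rt V) (f : V → V → ℝ) :
    E1 R (fun y => E1 R fun y' => f y' y) = E1 R fun y => E1 R fun y' => f y y' := by
  simp only [E1, mul_sum]
  rw [sum_comm]
  simp only [mul_left_comm]

theorem E1_sum (R : Rt V) (r : ℕ) (f : ℕ → V → ℝ) :
    E1 R (fun y => ∑ i ∈ range r, f i y) = ∑ i ∈ range r, E1 R (f i) := by
  simp only [E1, mul_sum]
  rw [sum_comm]

theorem E1_list (R : Rt V) {α : Type} (l : List α) (f : α → V → ℝ) :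
    E1 R (fun y => (l.map fun a => f a y).sum) = (l.map fun a => E1 R (f a)).sum := by
  induction l with
  | nil => simp [E1]
  | cons a l ih => simp only [List.map_cons, List.sum_cons, E1_add, ih]

theorem E1_ge (R : Rt V) {f : V → ℝ} {a : ℝ} (h : ∀ y, a ≤ f y) : a ≤ E1 R f := by
  have := E1_nonneg R (f := fun y => f y - a) fun y => sub_nonneg.2 (h y)
  rw [E1_sub, E1_const] at this
  linarith

theorem E1_le (R : Rt V) {f : V → ℝ} {a : ℝ} (h : ∀ y, f y ≤ a) : E1 R f ≤ a := by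
  have := E1_nonneg R (f := fun y => a - f y) fun y => sub_nonneg.2 (h y)
  rw [E1_sub, E1_const] at this
  linarith

theorem err_nonneg (R : Rt V) : 0 ≤ R.S.err := (abs_nonneg _).trans (R.S.reg R.r0)

theorem dd_abs (R : Rt V) (y y' : V) (k : ℕ) : |R.dd y y' k| ≤ 3 :=
  abs_le.2 ⟨by linarith [(dd_bound R y y' k).1], (dd_bound R y y' k).2⟩

theorem db_abs (R : Rt V) (y y' : V) (n k : ℕ) : |db (R.dd y y') n k| ≤ 3 := by
  unfold db
  split_ifs
  · exact dd_abs R y y' k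
  · norm_num

theorem c2_mE (R : Rt V) {LM : List (List ℤ)} {ε : ℝ} (hε : 0 ≤ ε)
    (hM : ∀ b ∈ LM, -ε ≤ valM R b) (i : ℕ) : -ε ≤ E1 R fun y => (mE LM i (R.ty y) : ℝ) := by
  rcases c2_getD LM i [] with h | h
  · exact hM _ h
  · unfold mE
    rw [h]
    simpa [E1] using hε

theorem rowZ2_ge (R : Rt V) (y y' : V) (Zs : List (List (ℤ × ℕ))) {ε : ℝ} (hε : 0 ≤ ε)
    (hZ : ∀ l ∈ Zs, -ε ≤ sev (R.dd y y') l) (code : ℕ)
    (hok : okM (red2 (R.ty y) (R.ty y') (R.cn y y')) (blue2 (R.ty y) (R.ty y') (R.cn y y'))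
      (rowM code) = true) : -ε ≤ sev (R.dd y y') (rowZ Zs code) := by
  rcases rowZ_cases Zs code with h | h
  · rw [h]
    linarith [rowZ2_nonneg R y y' [] (fun l hl => absurd hl List.not_mem_nil) code hok]
  · exact hZ _ h

theorem rowZ1_ge (R : Rt V) (y y' : V) (Zs : List (List (ℤ × ℕ))) {ε : ℝ} (hε : 0 ≤ ε)
    (hZ : ∀ l ∈ Zs, -ε ≤ sev (db (R.dd y y') 16) l) (code : ℕ)
    (hok : okM (red2 (R.ty y) 11 0) (blue2 (R.ty y) 11 0) (rowM code) = true) :
    -ε ≤ sev (db (R.dd y y') 16) (rowZ Zs code) := by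
  rcases rowZ_cases Zs code with h | h
  · rw [h]
    linarith [rowZ1_nonneg R y y' [] (fun l hl => absurd hl List.not_mem_nil) code hok]
  · exact hZ _ h

end

theorem E1_bd (φ : ℕ → ℝ) : ∃ B : ℝ, 0 ≤ B ∧ ∀ (V : Type) [Fintype V] (R : Rt V),
    |E1 R fun y => φ (R.ty y)| ≤ B := by
  refine ⟨∑ k ∈ range 11, |φ k|, sum_nonneg fun _ _ => abs_nonneg _, fun V _ R => ?_⟩
  have h : ∀ y, |φ (R.ty y)| ≤ ∑ k ∈ range 11, |φ k| := fun y =>
    single_le_sum (f := fun k => |φ k|) (fun _ _ => abs_nonneg _)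
      (mem_range.2 (Nat.lt_succ_of_le (ty_le R y)))
  exact abs_le.2 ⟨E1_ge R fun y => (abs_le.1 (h y)).1, E1_le R fun y => (abs_le.1 (h y)).2⟩

theorem valM_bd (L : List (List ℤ)) : ∃ B : ℝ, 0 ≤ B ∧ ∀ i, ∀ (V : Type) [Fintype V] (R : Rt V),
    |valM R (L.getD i [])| ≤ B := by
  obtain ⟨B, hB, h⟩ := c2_unif ([] :: L)
    (fun b B => ∀ (V : Type) [Fintype V] (R : Rt V), |valM R b| ≤ B)
    (fun b K K' hK h V _ R => (h V R).trans hK)
    fun b => E1_bd fun k => ((b.getD k 0 : ℤ) : ℝ)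
  exact ⟨B, hB, fun i => h _ (c2_cons L i [])⟩

theorem c2_reg (Q n : ℕ) : ∃ K : ℝ, 0 ≤ K ∧ ∀ (V : Type) [Fintype V] (R : Rt V) (y : V),
    -(K * R.S.err) ≤ E1 R (fun y' => sev (R.dd y y') (regF Q n)) := by
  have key : ∀ l : List (ℤ × ℕ), (∀ p ∈ l, p.2 < 6) → ∃ K : ℝ, 0 ≤ K ∧
      ∀ (V : Type) [Fintype V] (R : Rt V) (y : V), -(K * R.S.err) ≤ E1 R (fun y' => sev (R.dd y y')
      (l.flatMap fun p => [(Int.mul 7 p.1, 16 + p.2), (Int.mul (-3) p.1, 0)])) := by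
    intro l
    induction l with
    | nil => exact fun _ => ⟨0, le_rfl, fun V _ R y => by simp [sev, E1]⟩
    | cons p l ih =>
      intro h
      obtain ⟨K, hK, ih⟩ := ih fun q hq => h q (List.mem_cons_of_mem _ hq)
      refine ⟨|(p.1 : ℝ)| * 7 + K, by positivity, fun V _ R y => ?_⟩
      simp only [List.flatMap_cons, sev_append, E1_add]
      have e : ∀ y', sev (R.dd y y') [(Int.mul 7 p.1, 16 + p.2), (Int.mul (-3) p.1, 0)] =
          (p.1 : ℝ) * (7 * R.dd y y' (16 + p.2) - 3) := by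
        intro y'
        simp only [sev, Int.mul_def, dd_zero]
        push_cast
        ring
      simp only [e, E1_mul]
      have h1 : |(p.1 : ℝ) * E1 R fun y' => 7 * R.dd y y' (16 + p.2) - 3| ≤
          |(p.1 : ℝ)| * (7 * R.S.err) := by
        rw [abs_mul]
        exact mul_le_mul_of_nonneg_left (reg_zero R y p.2 (h p List.mem_cons_self)) (abs_nonneg _)
      linarith [(abs_le.1 h1).1, ih V R y]
  refine key _ fun p hp => ?_
  have h1 := List.snd_lt_of_mem_zipIdx hp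
  have h2 : (uns Q 6 n).length ≤ 6 := by
    rw [uns, List.length_map]
    exact unp_length Q 6 n
  omega

theorem c2_regs (C : C2) : ∃ K : ℝ, 0 ≤ K ∧ ∀ (F : ℕ) (V : Type) [Fintype V] (R : Rt V) (y : V),
    -(K * R.S.err) ≤ E1 R (fun y' => sev (R.dd y y') (regF C.Q (C.reg.getD F 0))) := by
  obtain ⟨K, hK, h⟩ := c2_unif (0 :: C.reg)
    (fun n K => ∀ (V : Type) [Fintype V] (R : Rt V) (y : V),
      -(K * R.S.err) ≤ E1 R (fun y' => sev (R.dd y y') (regF C.Q n)))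
    (fun n K K' hK h V _ R y => le_trans
      (neg_le_neg (mul_le_mul_of_nonneg_right hK (err_nonneg R))) (h V R y)) (c2_reg C.Q)
  exact ⟨K, hK, fun F => h _ (c2_cons _ F 0)⟩

/-- products of nearly nonnegative numbers `a i` with combinations of nearly valid forms -/
theorem c2_grp (C : C2) (row : ℕ → List (ℤ × ℕ)) (B : ℝ) (hB : 0 ≤ B) : ∃ K : ℝ, 0 ≤ K ∧
    ∀ (F red blue : ℕ) (d a : ℕ → ℝ) (ε : ℝ), 0 ≤ ε → (∀ k, |d k| ≤ 3) → (∀ i, -ε ≤ a i) →
      (∀ i, |a i| ≤ B) → (∀ c, okM red blue (rowM c) = true → -ε ≤ sev d (row c)) →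
      -(K * ε) ≤ ((C.one.getD F []).map fun g =>
        a (g % 256) * cmbR C.Q red blue (fun c => sev d (row c)) (g / 256)).sum := by
  obtain ⟨K, hK, h⟩ := c2_unif ([] :: C.one)
    (fun l K => ∀ (red blue : ℕ) (d a : ℕ → ℝ) (ε : ℝ), 0 ≤ ε → (∀ k, |d k| ≤ 3) →
      (∀ i, -ε ≤ a i) → (∀ i, |a i| ≤ B) →
      (∀ c, okM red blue (rowM c) = true → -ε ≤ sev d (row c)) → -(K * ε) ≤ (l.map fun g =>
        a (g % 256) * cmbR C.Q red blue (fun c => sev d (row c)) (g / 256)).sum)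
    (fun l K K' hK h red blue d a ε hε h1 h2 h3 h4 => le_trans
      (neg_le_neg (mul_le_mul_of_nonneg_right hK hε)) (h red blue d a ε hε h1 h2 h3 h4))
    (fun l => by
      induction l with
      | nil => exact ⟨0, le_rfl, fun _ _ _ _ _ _ _ _ _ _ => by simp⟩
      | cons g l ih =>
        obtain ⟨K, hK, ih⟩ := ih
        obtain ⟨B', hB', h'⟩ := cmbR_bd C.Q (g / 256) row
        have hm := mass_nonneg C.Q (g / 256)
        refine ⟨(1 * B' + mass C.Q (g / 256) * B) + K, by positivity,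
          fun red blue d a ε hε h1 h2 h3 h4 => ?_⟩
        simp only [List.map_cons, List.sum_cons]
        have := c2_mul hε zero_le_one hm (by rw [one_mul]; exact h2 (g % 256))
          (cmbR_ge hε C.Q h4 (g / 256)) (h3 _) (h' red blue d h1)
        linarith [ih red blue d a ε hε h1 h2 h3 h4])
  exact ⟨K, hK, fun F => h _ (c2_cons _ F [])⟩

theorem c2_ker (C : C2) : ∃ K : ℝ, 0 ≤ K ∧ ∀ (V : Type) [Fintype V] (R : Rt V) (val : ℕ → ℝ)
    (ε : ℝ), 0 ≤ ε → (∀ n, -ε ≤ val n) →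
    -(K * ε) ≤ E1 R fun y => E1 R fun y' => kerR C val (R.ty y) (R.ty y') := by
  simp only [kerR, E1_list]
  induction C.ker with
  | nil => exact ⟨0, le_rfl, fun _ _ _ _ _ _ _ => by simp⟩
  | cons k l ih =>
    obtain ⟨K, hK, ih⟩ := ih
    choose B hB h using fun i => E1_bd fun F => eK C.Qv (k.2.2.getD F 0) i
    refine ⟨∑ i ∈ range k.2.1, B i * B i + K,
      add_nonneg (sum_nonneg fun i _ => mul_self_nonneg _) hK, fun V _ R val ε hε hv => ?_⟩
    simp only [List.map_cons, List.sum_cons]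
    refine le_trans (le_of_eq (by ring)) (add_le_add
      (show -((∑ i ∈ range k.2.1, B i * B i) * ε) ≤ _ from ?_) (ih V R val ε hε hv))
    simp only [E1_mul', E1_sum, E1_mul]
    have h1 : ∑ i ∈ range k.2.1, (E1 R fun y => eK C.Qv (k.2.2.getD (R.ty y) 0) i) *
        (E1 R fun y => eK C.Qv (k.2.2.getD (R.ty y) 0) i) ≤ ∑ i ∈ range k.2.1, B i * B i :=
      sum_le_sum fun i _ => abs_le_iff_mul_self_le.1
        ((h i V R).trans (le_abs_self _))
    have h2 : 0 ≤ ∑ i ∈ range k.2.1, (E1 R fun y => eK C.Qv (k.2.2.getD (R.ty y) 0) i) *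
        (E1 R fun y => eK C.Qv (k.2.2.getD (R.ty y) 0) i) := sum_nonneg fun i _ => mul_self_nonneg _
    nlinarith [mul_le_mul_of_nonneg_left (hv k.1) h2, mul_le_mul_of_nonneg_right h1 hε]

theorem c2_pr (C : C2) (LM : List (List ℤ)) : ∃ K : ℝ, 0 ≤ K ∧
    ∀ (V : Type) [Fintype V] (R : Rt V) (ε : ℝ), 0 ≤ ε → (∀ b ∈ LM, -ε ≤ valM R b) →
    -(K * ε) ≤ E1 R fun y => E1 R fun y' => prR C LM (R.ty y) (R.ty y') := by
  simp only [prR, E1_list]
  obtain ⟨B, hB, hb⟩ := valM_bd LM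
  induction unp C.Q 200 C.prs with
  | nil => exact ⟨0, le_rfl, fun _ _ _ _ _ _ => by simp⟩
  | cons e l ih =>
    obtain ⟨K, hK, ih⟩ := ih
    refine ⟨((e / 65536 : ℕ) : ℝ) * (2 * (1 * B + 1 * B)) + K, by positivity,
      fun V _ R ε hε hM => ?_⟩
    simp only [List.map_cons, List.sum_cons]
    refine le_trans (le_of_eq (by ring)) (add_le_add
      (show ((e / 65536 : ℕ) : ℝ) * (-((1 * B + 1 * B) * ε) + -((1 * B + 1 * B) * ε)) ≤ _ from ?_)
      (ih V R ε hε hM))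
    simp only [E1_mul', E1_add, E1_mul]
    have h : ∀ i j, -((1 * B + 1 * B) * ε) ≤ (E1 R fun y => (mE LM i (R.ty y) : ℝ)) *
        E1 R fun y => (mE LM j (R.ty y) : ℝ) := fun i j =>
      c2_mul hε zero_le_one zero_le_one (by rw [one_mul]; exact c2_mE R hε hM i)
        (by rw [one_mul]; exact c2_mE R hε hM j) (hb i V R) (hb j V R)
    exact mul_le_mul_of_nonneg_left (add_le_add (h _ _) (h _ _)) (Nat.cast_nonneg _)

section
variable {V : Type} [Fintype V]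

theorem c2_kerR_symm (C : C2) (val : ℕ → ℝ) (F G : ℕ) : kerR C val F G = kerR C val G F := by
  simp only [kerR, mul_comm (eK C.Qv (List.getD _ F 0) _)]

theorem c2_prR_symm (C : C2) (LM : List (List ℤ)) (F G : ℕ) : prR C LM F G = prR C LM G F := by
  simp only [prR, add_comm ((mE LM _ F : ℝ) * _)]

theorem c2_valK (R : Rt V) (Lz : List (List ℤ)) (y y' : V) (n : ℕ) :
    sev (R.dd y y') (([(1, 0)] :: Lz.map zf).getD n []) =
      sev (R.dd R.r0 R.r0) (([(1, 0)] :: Lz.map zf).getD n []) := by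
  rcases c2_getD ([(1, 0)] :: Lz.map zf) n [] with h | h
  · rcases List.mem_cons.1 h with h | h
    · rw [h]
      simp only [sev, dd_zero]
    · obtain ⟨z, -, hz⟩ := List.mem_map.1 h
      rw [← hz, sev_zf, sev_zf]
  · rw [h]
    simp only [sev]

theorem c2_valK_ge (R : Rt V) {Lz : List (List ℤ)} {ε : ℝ} (hε : 0 ≤ ε)
    (hZ : ∀ z ∈ Lz, -ε ≤ valZ R z) (n : ℕ) :
    -ε ≤ sev (R.dd R.r0 R.r0) (([(1, 0)] :: Lz.map zf).getD n []) := by
  rcases c2_getD ([(1, 0)] :: Lz.map zf) n [] with h | h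
  · rcases List.mem_cons.1 h with h | h
    · rw [h]
      simp only [sev, dd_zero]
      push_cast
      linarith
    · obtain ⟨z, hz', hz⟩ := List.mem_map.1 h
      rw [← hz]
      exact hZ z hz'
  · rw [h]
    exact neg_nonpos.2 hε

/-- terms attached to the first point -/
noncomputable def aR (R : Rt V) (C : C2) (LM : List (List ℤ)) (Zs : List (List (ℤ × ℕ)))
    (y y' : V) : ℝ :=
  sev (R.dd y y') (regF C.Q (C.reg.getD (R.ty y) 0)) +
    grpR C LM (fun c => sev (db (R.dd y y') 16) (rowZ Zs c)) (R.ty y) (R.ty y')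

theorem c2_db (R : Rt V) (y y' : V) : db (R.dd y y') 22 = R.dd y y' := by
  funext k
  unfold db
  split_ifs with hk
  · rfl
  · exact (dd_ge R y y' k (not_lt.1 hk)).symm

theorem c2_point (R : Rt V) (C : C2) (tm tz : List ℤ) (LM Lz : List (List ℤ))
    (bd : ℕ → ℕ → ℕ → List (ℤ × ℕ)) {ε K : ℝ} (hε : 0 ≤ ε)
    (hK : ∀ q ∈ C.pw, mass C.Q q.1 + mass C.Q q.2 ≤ K) (hZ : ∀ z ∈ Lz, -ε ≤ valZ R z)
    (h : chk2b C tm tz LM (Lz.map zf) bd (upos BB 22 22) (uneg BB 22 22) (upos BB 22 16)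
      (uneg BB 22 16) = true) (y y' : V) (hy : R.ty y ≤ R.ty y') :
    aR R C LM (Lz.map zf) y y' + aR R C LM (Lz.map zf) y' y +
      (2 * kerR C (fun n => sev (R.dd R.r0 R.r0) (([(1, 0)] :: Lz.map zf).getD n []))
        (R.ty y) (R.ty y') + prR C LM (R.ty y) (R.ty y')) +
      sev (R.dd y y') (bd (R.ty y) (R.ty y') (R.cn y y')) ≤
      C.m0 * (2 * valZ R tz + (((tm.getD (R.ty y) 0 : ℤ) : ℝ) + (tm.getD (R.ty y') 0 : ℤ))) +
        K * ε := by
  unfold chk2b at h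
  rw [Bool.and_eq_true] at h
  obtain ⟨q, hq', hq⟩ := c2_chk2a h.2 hy (ty_le R y')
  have hu : ∀ k, Rp (R.dd y y') (upos BB 22 22 k) (R.dd y y' k) := fun k =>
    Rp.cast (repN_upos le_rfl k) (by rw [c2_db])
  have hnu : ∀ k, Rp (R.dd y y') (uneg BB 22 22 k) (-R.dd y y' k) := fun k =>
    Rp.cast (repN_uneg le_rfl k) (by rw [c2_db])
  have hu1 : ∀ k, Rp (R.dd y y') (upos BB 22 16 k) (db (R.dd y y') 16 k) := fun k =>
    repN_upos (by norm_num) k
  have hnu1 : ∀ k, Rp (R.dd y y') (uneg BB 22 16 k) (-db (R.dd y y') 16 k) := fun k =>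
    repN_uneg (by norm_num) k
  have hs : ∀ k, Rp (R.dd y y') (upos BB 22 22 (sw k)) (R.dd y' y k) := fun k =>
    Rp.cast (hu _) (dd_sw R y y' k).symm
  have hns : ∀ k, Rp (R.dd y y') (uneg BB 22 22 (sw k)) (-R.dd y' y k) := fun k =>
    Rp.cast (hnu _) (by rw [dd_sw R y y' k])
  have hs1 : ∀ k, Rp (R.dd y y') (bif Nat.blt k 16 then upos BB 22 22 (sw k) else 0)
      (db (R.dd y' y) 16 k) := by
    intro k
    unfold db
    by_cases hk : k < 16
    · rw [if_pos hk, c2_blt hk]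
      exact hs k
    · have : Nat.blt k 16 = false := by
        rw [← Bool.not_eq_true, Nat.blt_eq]; exact hk
      rw [if_neg hk, this]
      exact repN_zero
  have hns1 : ∀ k, Rp (R.dd y y') (bif Nat.blt k 16 then uneg BB 22 22 (sw k) else 0)
      (-db (R.dd y' y) 16 k) := by
    intro k
    unfold db
    by_cases hk : k < 16
    · rw [if_pos hk, c2_blt hk]
      exact hns k
    · have : Nat.blt k 16 = false := by
        rw [← Bool.not_eq_true, Nat.blt_eq]; exact hk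
      rw [if_neg hk, this, neg_zero]
      exact repN_zero
  have hu0 : Rp (R.dd y y') (upos BB 22 22 0) 1 := hu 0
  have hnu0 : Rp (R.dd y y') (uneg BB 22 22 0) (-1) := hnu 0
  have hX := repN_sm C.m0 (repN_add (repN_sm 2 (repN_spn hu hnu (zf tz)))
    (repN_sm2 (Int.add (lk 0 tm (R.ty y)) (lk 0 tm (R.ty y'))) hu0 hnu0))
  have hY := repN_add (repN_add
    (c2_useT C LM (fun c => repN_spn hu1 hnu1 (rowZ (Lz.map zf) c)) hu hnu (R.ty y) (R.ty y'))
    (c2_useT C LM (fun c => repN_spn hs1 hns1 (rowZ (Lz.map zf) c)) hs hns (R.ty y') (R.ty y)))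
    (repN_add (repN_sm 2 (c2_kerT C (Lz.map zf) hu hnu (R.ty y) (R.ty y')))
      (c2_useP C LM hu0 hnu0 (R.ty y) (R.ty y')))
  have hc : R.cn y y' = 0 ∨ R.cn y y' = 1 := by
    unfold Rt.cn
    cases R.S.c y y'
    · exact Or.inl rfl
    · exact Or.inr rfl
  have hZ' : ∀ l ∈ Lz.map zf, -ε ≤ sev (R.dd y y') l := by
    intro l hl
    obtain ⟨z, hz, rfl⟩ := List.mem_map.1 hl
    rw [sev_zf]
    exact hZ z hz
  have key := c2_chkP (dd_zero R y y') (dd_bound R y y')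
    (fun c => repN_spn hu hnu (rowZ (Lz.map zf) c))
    (fun c => repN_spn hu hnu (bd (R.ty y) (R.ty y') c)) hε hX hY hq hc
    (fun n hn => rowZ2_ge R y y' _ hε hZ' n hn)
  simp only [c2_valK R Lz y y', sev_zf, lk_eq, Int.add_def] at key
  push_cast at key
  rw [mul_one] at key
  exact key.trans (add_le_add_right (mul_le_mul_of_nonneg_right (hK q hq') hε) _)

end

/-- the averaged inequality -/
theorem c2_key (C : C2) (Lm Lz : List (List ℤ)) (tm tz : List ℤ) (bd : ℕ → ℕ → ℕ → List (ℤ × ℕ))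
    (hs : ∀ F G c (d : ℕ → ℝ), sev (fun k => d (sw k)) (bd G F c) = sev d (bd F G c))
    (h : chk2g C Lm Lz tm tz bd = true) : ∃ K : ℝ, 0 ≤ K ∧
    ∀ (V : Type) [Fintype V] (R : Rt V) (ε : ℝ), 0 ≤ ε → R.S.err ≤ ε →
      (∀ z ∈ cl actZ Lz, -ε ≤ valZ R z) →
      2 * (E1 R fun y => ((C.one.getD (R.ty y) []).map fun g =>
        valM R ((cl actM Lm).getD (g % 256) []) *
          cmbR C.Q (red2 (R.ty y) 11 0) (blue2 (R.ty y) 11 0)
          (fun c => sev (db (R.dd y y) 16) (rowZ ((cl actZ Lz).map zf) c)) (g / 256)).sum) +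
      (E1 R fun y => E1 R fun y' => prR C (cl actM Lm) (R.ty y) (R.ty y')) +
      (E1 R fun y => E1 R fun y' => sev (R.dd y y') (bd (R.ty y) (R.ty y') (R.cn y y'))) ≤
      C.m0 * (2 * (valM R tm + valZ R tz)) + K * ε := by
  unfold chk2g at h
  obtain ⟨K1, k1, h1⟩ := c2_unif C.pw (fun q K => mass C.Q q.1 + mass C.Q q.2 ≤ K)
    (fun _ _ _ hK h => h.trans hK)
    fun q => ⟨_, add_nonneg (mass_nonneg _ _) (mass_nonneg _ _), le_rfl⟩
  obtain ⟨K2, k2, h2⟩ := c2_regs C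
  obtain ⟨K3, k3, h3⟩ := c2_ker C
  refine ⟨K1 + 2 * K2 + 2 * K3, by positivity, fun V _ R ε hε he hZ => ?_⟩
  set LM := cl actM Lm
  set LZ := cl actZ Lz
  set val : ℕ → ℝ := fun n => sev (R.dd R.r0 R.r0) (([(1, 0)] :: LZ.map zf).getD n []) with hval
  have hall : ∀ y y', 0 ≤
      C.m0 * (2 * valZ R tz + (((tm.getD (R.ty y) 0 : ℤ) : ℝ) + (tm.getD (R.ty y') 0 : ℤ))) +
      K1 * ε - (aR R C LM (LZ.map zf) y y' + aR R C LM (LZ.map zf) y' y +
        (2 * kerR C val (R.ty y) (R.ty y') + prR C LM (R.ty y) (R.ty y')) +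
        sev (R.dd y y') (bd (R.ty y) (R.ty y') (R.cn y y'))) := by
    intro y y'
    rcases le_total (R.ty y) (R.ty y') with hy | hy
    · exact sub_nonneg.2 (c2_point R C tm tz LM LZ bd hε h1 hZ h y y' hy)
    · have := c2_point R C tm tz LM LZ bd hε h1 hZ h y' y hy
      have e1 : R.cn y' y = R.cn y y' := by unfold Rt.cn; rw [R.S.c_symm]
      have e2 : R.dd y' y = fun k => R.dd y y' (sw k) := funext fun k => dd_sw R y y' k
      have e3 := hs (R.ty y) (R.ty y') (R.cn y y') (R.dd y y')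
      rw [← e2, ← e1] at e3
      rw [c2_kerR_symm, c2_prR_symm, e3, e1] at this
      linarith
  have hE := E1_nonneg R fun y => E1_nonneg R fun y' => hall y y'
  have hA : (E1 R fun y => E1 R fun y' => aR R C LM (LZ.map zf) y y') =
      (E1 R fun y => E1 R fun y' => sev (R.dd y y') (regF C.Q (C.reg.getD (R.ty y) 0))) +
      E1 R fun y => ((C.one.getD (R.ty y) []).map fun g =>
      valM R (LM.getD (g % 256) []) * cmbR C.Q (red2 (R.ty y) 11 0) (blue2 (R.ty y) 11 0)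
        (fun c => sev (db (R.dd y y) 16) (rowZ (LZ.map zf) c)) (g / 256)).sum := by
    rw [← E1_add]
    congr 1
    funext y
    simp only [aR, E1_add, db_indep R y, grpR]
    rw [E1_list]
    simp only [E1_mul']
    rfl
  have hA' := E1_comm R (aR R C LM (LZ.map zf))
  have hR := E1_ge R fun y => h2 (R.ty y) V R y
  have hK := h3 V R val ε hε (c2_valK_ge R hε hZ)
  have hT : E1 R (fun y => ((tm.getD (R.ty y) 0 : ℤ) : ℝ)) = valM R tm := rfl
  have he' := mul_le_mul_of_nonneg_left he k2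
  simp only [E1_sub, E1_add, E1_mul, E1_const, hT] at hE
  linarith

/-- a bound for the mean of a form in two points -/
def ImpB (Lm Lz : List (List ℤ)) (tm tz : List ℤ) (m : ℝ) (bd : ℕ → ℕ → ℕ → List (ℤ × ℕ)) : Prop :=
  ∃ K : ℝ, ∀ (V : Type) [Fintype V] (R : Rt V) (ε : ℝ), 0 ≤ ε → R.S.err ≤ ε →
    (∀ b ∈ cl actM Lm, -ε ≤ valM R b) → (∀ z ∈ cl actZ Lz, -ε ≤ valZ R z) →
    (E1 R fun y => E1 R fun y' => sev (R.dd y y') (bd (R.ty y) (R.ty y') (R.cn y y'))) ≤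
      m * (2 * (valM R tm + valZ R tz)) + K * ε

theorem impB_of_chk2 (C : C2) (Lm Lz : List (List ℤ)) (tm tz : List ℤ)
    (bd : ℕ → ℕ → ℕ → List (ℤ × ℕ))
    (hs : ∀ F G c (d : ℕ → ℝ), sev (fun k => d (sw k)) (bd G F c) = sev d (bd F G c))
    (h : chk2g C Lm Lz tm tz bd = true) : ImpB Lm Lz tm tz C.m0 bd := by
  obtain ⟨K1, k1, h1⟩ := c2_key C Lm Lz tm tz bd hs h
  obtain ⟨B, hB, hb⟩ := valM_bd (cl actM Lm)
  obtain ⟨K2, k2, h2⟩ := c2_grp C (rowZ ((cl actZ Lz).map zf)) B hB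
  obtain ⟨K3, k3, h3⟩ := c2_pr C (cl actM Lm)
  refine ⟨K1 + 2 * K2 + K3, fun V _ R ε hε he hM hZ => ?_⟩
  have g1 := h1 V R ε hε he hZ
  have g2 := E1_ge R fun y => h2 (R.ty y) (red2 (R.ty y) 11 0) (blue2 (R.ty y) 11 0)
    (db (R.dd y y) 16) (fun i => valM R ((cl actM Lm).getD i [])) ε hε (db_abs R y y 16)
    (c2_mE R hε hM) (fun i => hb i V R) (rowZ1_ge R y y _ hε fun l hl => by
      obtain ⟨z, hz, rfl⟩ := List.mem_map.1 hl
      rw [sev_zf_db]
      exact hZ z hz)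
  have g3 := h3 V R ε hε hM
  linarith

theorem c2_m0 {C : C2} {Lm Lz : List (List ℤ)} {tm tz : List ℤ}
    (h : chk2 C Lm Lz tm tz = true) : (0 : ℝ) < C.m0 := by
  unfold chk2 chk2g chk2b at h
  rw [Bool.and_eq_true] at h
  exact_mod_cast Nat.blt_eq.mp h.1

theorem imp_of_chk2 (C : C2) (Lm Lz : List (List ℤ)) (tm tz : List ℤ)
    (h : chk2 C Lm Lz tm tz = true) : Imp Lm Lz tm tz := by
  have hm := c2_m0 h
  obtain ⟨K, h1⟩ := impB_of_chk2 C Lm Lz tm tz _ (fun _ _ _ _ => rfl) h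
  refine ⟨K / (2 * C.m0), fun V _ R ε hε he hM hZ => ?_⟩
  have g := h1 V R ε hε he hM hZ
  simp only [sev, E1_const] at g
  rw [div_mul_eq_mul_div, ← neg_div, div_le_iff₀ (by positivity)]
  linarith

end Pool.Agent.P.MP_c18ddb_co.R
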