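import Pool.Agent.P.MP_c18ddb_co.R.StepA
import Pool.Agent.P.MP_c18ddb_co.X.StepB

/-! From small deviations at the roots to closeness to the template. -/

namespace Pool.Agent.P.MP_c18ddb_co.R

open Finset

def pf (F : ℕ) : Fin 6 := Fin.ofNat 6 (F / 2)

def LA : List (List ℤ) :=
  [bA 0, bB 0, [-113, -113, -113, 887, -113, -113, -113, -113, -113, -113, -113]]

theorem cls1 : ∀ F < 11, pf F ≠ 5 → F < 10 := by decide
theorem cls2 : ∀ F < 10, ∀ a : Fin 6, a ≠ 5 → a ≠ pf F → Nat.beq (tb F a) 1 = X.tc a (pf F) := by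
  decide
theorem cls3 : ∀ F < 10, pf F ≠ 0 → Nat.beq (tb F (pf F)) 1 ≠ X.tc (pf F) (pf F) → wt F = 1 := by
  decide
theorem cls4 : ∀ F < 11, ∀ G < 11, ∀ s : Bool, pf F ≠ 5 ∧ pf G ≠ 5 ∧ pf F ≠ pf G ∧
    s ≠ X.tc (pf F) (pf G) → cw F G (bif s then 1 else 0) = 1 := by decide
theorem cls5 : ∀ F < 11, ∀ a : Fin 6, pf F ≠ a → nq (F / 2) a = 1 := by decide
theorem cls6 : ∀ F < 11, ∀ G < 11, pf F ≠ pf G → nq (F / 2) (G / 2) = 1 := by decide
theorem cls7 : ∀ i : Fin 6, i ≠ 5 → ∃ b ∈ cl actM LA, ∀ F < 11,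
    b.getD F 0 = (if pf F = i then 14000 else 0) - 1000 * (X.sz i : ℤ) := by decide
theorem cls8 : ∀ a : Fin 6, a ≠ 5 → (a : ℕ) < 5 := by decide

variable {V : Type} [Fintype V]

noncomputable def dev (R : Rt V) (y y' : V) : ℝ :=
  sev (R.dd y y') (bdl 72576000 (R.ty y) (R.ty y') (R.cn y y'))

theorem bad_ge (R : Rt V) (y y' : V) :
    0 ≤ dev R y y' ∧ (cw (R.ty y) (R.ty y') (R.cn y y') : ℝ) ≤ dev R y y' ∧
      (wt (R.ty y) : ℝ) ≤ dev R y y' ∧
      (∀ a < 5, nq (R.ty y / 2) a * R.S.D (R.pt R.r0 R.r0 a) y ≤ dev R y y') ∧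
      nq (R.ty y / 2) (R.ty y' / 2) * R.S.D y y' ≤ dev R y y' := by
  have p : ∀ i j k, 0 ≤ (nq i j : ℝ) * R.dd y y' k := fun i j k =>
    mul_nonneg (Nat.cast_nonneg _) (dd_bound R y y' k).1
  have a0 := p (R.ty y / 2) 0 11
  have a1 := p (R.ty y / 2) 1 12
  have a2 := p (R.ty y / 2) 2 13
  have a3 := p (R.ty y / 2) 3 14
  have a4 := p (R.ty y / 2) 4 15
  have b0 := p (R.ty y' / 2) 0 16
  have b1 := p (R.ty y' / 2) 1 17
  have b2 := p (R.ty y' / 2) 2 18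
  have b3 := p (R.ty y' / 2) 3 19
  have b4 := p (R.ty y' / 2) 4 20
  have b5 := p (R.ty y / 2) (R.ty y' / 2) 21
  have c0 : (0 : ℝ) ≤ cw (R.ty y) (R.ty y') (R.cn y y') := Nat.cast_nonneg _
  have c1 : (0 : ℝ) ≤ wt (R.ty y) := Nat.cast_nonneg _
  have c2 : (0 : ℝ) ≤ wt (R.ty y') := Nat.cast_nonneg _
  have e : ∀ a < 5, R.S.D (R.pt R.r0 R.r0 a) y = R.dd y y' (11 + a) := by
    intro a ha
    interval_cases a <;> rfl
  have e' : R.S.D y y' = R.dd y y' 21 := rfl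
  rw [dev, bdl_sev, dd_zero, e']
  push_cast
  refine ⟨by linarith, by linarith, by linarith, fun a ha => ?_, by linarith⟩
  rw [e a ha]
  interval_cases a <;> norm_num <;> linarith

theorem cls_E1 (R : Rt V) (hx : ∀ v, R.S.x v = (Fintype.card V : ℝ)⁻¹) (f : V → ℝ) :
    ∑ y, f y = E1 R f * Fintype.card V := by
  have : Nonempty V := ⟨R.r0⟩
  have h : (Fintype.card V : ℝ) ≠ 0 := by exact_mod_cast Fintype.card_ne_zero
  simp only [E1, hx, ← mul_sum]
  field_simp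

theorem E1_mono (R : Rt V) {f g : V → ℝ} (h : ∀ y, f y ≤ g y) : E1 R f ≤ E1 R g :=
  sum_le_sum fun y _ => mul_le_mul_of_nonneg_left (h y) (R.S.x_nonneg y)

theorem cls_s1 (R : Rt V) (hx : ∀ v, R.S.x v = (Fintype.card V : ℝ)⁻¹) {δ : ℝ}
    (hb : (E1 R fun y => E1 R (dev R y)) ≤ δ) (P : V → Prop) [DecidablePred P] (g : V → ℝ)
    (h : ∀ y y', P y → g y ≤ dev R y y') : ∑ y ∈ univ.filter P, g y ≤ δ * Fintype.card V := by
  rw [sum_filter, cls_E1 R hx]
  refine mul_le_mul_of_nonneg_right (le_trans (E1_mono R fun y => E1_ge R fun y' => ?_) hb)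
    (Nat.cast_nonneg _)
  split_ifs with hP
  exacts [h y y' hP, (bad_ge R y y').1]

theorem cls_s2 (R : Rt V) (hx : ∀ v, R.S.x v = (Fintype.card V : ℝ)⁻¹) {δ : ℝ}
    (hb : (E1 R fun y => E1 R (dev R y)) ≤ δ) (P : V × V → Prop) [DecidablePred P]
    (g : V × V → ℝ) (h : ∀ y y', P (y, y') → g (y, y') ≤ dev R y y') :
    ∑ p ∈ univ.filter P, g p ≤ δ * (Fintype.card V : ℝ) ^ 2 := by
  rw [sum_filter, Fintype.sum_prod_type]
  simp only [cls_E1 R hx, E1_mul']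
  rw [mul_assoc, ← sq]
  refine mul_le_mul_of_nonneg_right (le_trans (E1_mono R fun y => E1_mono R fun y' => ?_) hb)
    (sq_nonneg _)
  split_ifs with hP
  exacts [h y y' hP, (bad_ge R y y').1]

theorem close_of_bad (R : Rt V) (hx : ∀ v, R.S.x v = (Fintype.card V : ℝ)⁻¹) {δ : ℝ}
    (h0 : 0 ≤ δ) (h1 : δ ≤ 1 / 100) (he : R.S.err ≤ δ) (hη : R.eta ≤ δ)
    (hM : ∀ b ∈ cl actM LA, -δ ≤ valM R b) (hb : (E1 R fun y => E1 R (dev R y)) ≤ δ) :
    X.Close (1000 * δ) R.S.c := by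
  classical
  have ht : ∀ y, R.ty y < 11 := fun y => Nat.lt_succ_of_le (ty_le R y)
  have hn : (0 : ℝ) ≤ Fintype.card V := Nat.cast_nonneg _
  refine ⟨fun y => pf (R.ty y), X.stepB R.S.c R.S.D
    ⟨R.S.c_symm, R.S.D_symm, R.S.D_nonneg, R.S.k3, R.S.k4, R.S.k5⟩
    (fun a => R.pt R.r0 R.r0 a) _ δ h0 h1 ?_ ?_ ?_ ?_ ?_ ?_ ?_ ?_ ?_⟩
  · obtain ⟨c01, c02, c12, c03, c13, c23, c04, c14, c24, c34⟩ := R.hp
    intro a b hab ha hb
    fin_cases a <;> fin_cases b <;>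
      first
      | exact absurd rfl hab
      | exact absurd rfl ha
      | exact absurd rfl hb
      | assumption
      | (rw [R.S.c_symm]; assumption)
  · intro y a ha hy hay
    have h := cls1 _ (ht y) hy
    exact (root_tb R y _ _ h a (cls8 a ha)).trans (cls2 _ h a ha hay)
  · have n := R.S.D_nonneg
    unfold Rt.eta tot at hη
    have n01 := n R.r0 R.r1
    have n02 := n R.r0 R.r2
    have n12 := n R.r1 R.r2
    have n03 := n R.r0 R.r3
    have n13 := n R.r1 R.r3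
    have n23 := n R.r2 R.r3
    have n04 := n R.r0 R.r4
    have n14 := n R.r1 R.r4
    have n24 := n R.r2 R.r4
    have n34 := n R.r3 R.r4
    have e01 : R.S.D R.r0 R.r1 ≤ δ := by linarith
    have e02 : R.S.D R.r0 R.r2 ≤ δ := by linarith
    have e12 : R.S.D R.r1 R.r2 ≤ δ := by linarith
    have e03 : R.S.D R.r0 R.r3 ≤ δ := by linarith
    have e13 : R.S.D R.r1 R.r3 ≤ δ := by linarith
    have e23 : R.S.D R.r2 R.r3 ≤ δ := by linarith
    have e04 : R.S.D R.r0 R.r4 ≤ δ := by linarith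
    have e14 : R.S.D R.r1 R.r4 ≤ δ := by linarith
    have e24 : R.S.D R.r2 R.r4 ≤ δ := by linarith
    have e34 : R.S.D R.r3 R.r4 ≤ δ := by linarith
    intro a b hab ha hb
    fin_cases a <;> fin_cases b <;>
      first
      | exact absurd rfl hab
      | exact absurd rfl ha
      | exact absurd rfl hb
      | assumption
      | (rw [R.S.D_symm]; assumption)
  · intro v
    rw [cls_E1 R hx]
    refine mul_le_mul_of_nonneg_right ?_ hn
    have := (abs_le.1 (R.S.reg v)).2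
    unfold E1
    linarith
  · intro i
    by_cases hi : i = 5
    · subst hi
      have : ((X.sz 5 : ℕ) : ℝ) = 0 := Nat.cast_zero
      rw [this]
      nlinarith [Nat.cast_nonneg (α := ℝ) (X.ps (fun y => pf (R.ty y)) 5)]
    obtain ⟨b, hb1, hb2⟩ := cls7 i hi
    have h2 := hM b hb1
    have h3 : valM R b = 14000 * (E1 R fun y => if pf (R.ty y) = i then 1 else 0) -
        1000 * X.sz i := by
      rw [← E1_mul, ← E1_const R (1000 * X.sz i), ← E1_sub]
      refine sum_congr rfl fun y _ => ?_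
      rw [hb2 _ (ht y)]
      by_cases h : pf (R.ty y) = i <;> simp [h]
    rw [X.ps, card_filter]
    push_cast
    rw [cls_E1 R hx]
    refine mul_le_mul_of_nonneg_right ?_ hn
    linarith
  · intro a ha
    refine cls_s1 R hx hb _ _ fun y y' h => ?_
    have := (bad_ge R y y').2.2.2.1 a (cls8 a ha)
    rwa [cls5 _ (ht y) a h.1, Nat.cast_one, one_mul] at this
  · refine cls_s2 R hx hb _ _ fun y y' h => ?_
    have := (bad_ge R y y').2.2.2.2
    rwa [cls6 _ (ht y) _ (ht y') h.1, Nat.cast_one, one_mul] at this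
  · rw [X.cnt_eq, card_eq_sum_ones]
    push_cast
    refine cls_s2 R hx hb _ _ fun y y' h => ?_
    have := (bad_ge R y y').2.1
    rwa [Rt.cn, cls4 _ (ht y) _ (ht y') _ ⟨h.1.2.1, h.1.2.2.1, h.2, h.1.2.2.2.2⟩,
      Nat.cast_one] at this
  · rw [X.cnt_eq, card_eq_sum_ones]
    push_cast
    refine cls_s1 R hx hb _ _ fun y y' h => ?_
    have := (bad_ge R y y').2.2.1
    have h4 := cls1 _ (ht y) h.2.1
    rwa [cls3 _ h4 h.1 (by rw [← root_tb R y R.r0 R.r0 h4 _ (cls8 _ h.2.1)]; exact h.2.2),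
      Nat.cast_one] at this

end Pool.Agent.P.MP_c18ddb_co.R
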