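import Mathlib

namespace Pool.Agent.P.MP_c18ddb_co.R

open Finset

/-- A weighted two-coloured structure: vertex masses `x`, colours `c`, deficiencies `D` with the
clique constraints (tuples may repeat vertices) and `D`-degrees within `err` of `lam`. -/
structure WS (V : Type) [Fintype V] (lam : ℝ) where
  x : V → ℝ
  c : V → V → Bool
  D : V → V → ℝ
  err : ℝ
  x_nonneg : ∀ v, 0 ≤ x v
  x_sum : ∑ v, x v = 1
  c_symm : ∀ u v, c u v = c v u
  D_symm : ∀ u v, D u v = D v u
  D_nonneg : ∀ u v, 0 ≤ D u v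
  D_le : ∀ u v, D u v ≤ 3
  k3 : ∀ (s : Bool) (a b d : V), c a b = s → c a d = s → c b d = s → 2 ≤ D a b + D a d + D b d
  k4 : ∀ (s : Bool) (a b d e : V), c a b = s → c a d = s → c b d = s → c a e = s → c b e = s →
    c d e = s → 5 ≤ D a b + D a d + D b d + D a e + D b e + D d e
  k5 : ∀ (s : Bool) (a b d e f : V), c a b = s → c a d = s → c b d = s → c a e = s → c b e = s →
    c d e = s → c a f = s → c b f = s → c d f = s → c e f = s →
    9 ≤ D a b + D a d + D b d + D a e + D b e + D d e + D a f + D b f + D d f + D e f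
  reg : ∀ v, |∑ y, x y * D v y - lam| ≤ err

end Pool.Agent.P.MP_c18ddb_co.R
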