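import Pool.Agent.P.MP_c18ddb_co.R.Def1

/-! Five sampled points: averaging. -/

namespace Pool.Agent.P.MP_c18ddb_co.R

open Finset

/-- every colouring can be reordered into one of `reps`; `w` lists the reorderings -/
noncomputable def cover (reps : List ℕ) (w : ℕ) : Bool :=
  (List.range 1024).all fun i => reps.elem (gperm (2 * i) (lk 0 SM (w / 128 ^ i % 128)))
    && Nat.blt (w / 128 ^ i % 128) 120

theorem m1_bit (l : List Bool) : ∀ k, Nat.land (Nat.shiftRight (nb l) k) 1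
    = bif l.getD k false then 1 else 0 := by
  induction l with
  | nil => intro k; simp [nb]
  | cons b l ih =>
    intro k
    cases k with
    | zero =>
      show (nb (b :: l) >>> 0) &&& 1 = _
      rw [Nat.and_one_is_mod]
      cases b <;> simp [nb]
    | succ k =>
      have h : nb (b :: l) / 2 = nb l := by
        cases b <;> simp only [nb, cond_true, cond_false] <;> omega
      show (nb (b :: l) >>> (k + 1)) &&& 1 = _
      rw [Nat.shiftRight_succ_inside, h]
      simpa using ih k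

theorem m1_parts : ∀ b1 b2 b3 b4 b5 b6 b7 b8 b9 b10 : Bool,
    nb [false, b1, b2, b3, b4, b5, b6, b7, b8, b9, b10] / 2 % 8 = nb [b1, b2, b3] ∧
    nb [false, b1, b2, b3, b4, b5, b6, b7, b8, b9, b10] / 16 % 8 = nb [b4, b5, b6] ∧
    nb [false, b1, b2, b3, b4, b5, b6, b7, b8, b9, b10] / 128 % 8 = nb [b7, b8, b9] ∧
    nb [false, b1, b2, b3, b4, b5, b6, b7, b8, b9, b10] / 2 % 64 = nb [b1, b2, b3, b4, b5, b6] ∧
    nb [false, b1, b2, b3, b4, b5, b6, b7, b8, b9, b10] % 2 = 0 ∧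
    nb [false, b1, b2, b3, b4, b5, b6, b7, b8, b9, b10] / 2 < 1024 := by
  decide +kernel

theorem m1_tab : ∀ t < 120,
    (perms5.getD t [] ∈ perms5) ∧
    sl (SM.getD t 0) 1 = slot ((perms5.getD t []).getD 0 0) ((perms5.getD t []).getD 1 0) ∧
    sl (SM.getD t 0) 2 = slot ((perms5.getD t []).getD 0 0) ((perms5.getD t []).getD 2 0) ∧
    sl (SM.getD t 0) 3 = slot ((perms5.getD t []).getD 1 0) ((perms5.getD t []).getD 2 0) ∧
    sl (SM.getD t 0) 4 = slot ((perms5.getD t []).getD 0 0) ((perms5.getD t []).getD 3 0) ∧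
    sl (SM.getD t 0) 5 = slot ((perms5.getD t []).getD 1 0) ((perms5.getD t []).getD 3 0) ∧
    sl (SM.getD t 0) 6 = slot ((perms5.getD t []).getD 2 0) ((perms5.getD t []).getD 3 0) ∧
    sl (SM.getD t 0) 7 = slot ((perms5.getD t []).getD 0 0) ((perms5.getD t []).getD 4 0) ∧
    sl (SM.getD t 0) 8 = slot ((perms5.getD t []).getD 1 0) ((perms5.getD t []).getD 4 0) ∧
    sl (SM.getD t 0) 9 = slot ((perms5.getD t []).getD 2 0) ((perms5.getD t []).getD 4 0) ∧
    sl (SM.getD t 0) 10 = slot ((perms5.getD t []).getD 3 0) ((perms5.getD t []).getD 4 0) := by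
  decide +kernel

theorem m1_pm : ∀ π ∈ perms5, π.length = 5 ∧ (∀ i < 5, π.getD i 0 < 5) ∧
    (∀ j < 5, ∀ i < j, π.getD i 0 ≠ π.getD j 0) := by
  decide +kernel

theorem m1_p5 : perms5.isPerm [0, 1, 2, 3, 4].permutations' = true := by
  decide +kernel

theorem m1_rho : ∀ ρ ∈ perms5,
    ([0, 1, 2, 3, 4].map fun i => ρ.getD i 0).isPerm [0, 1, 2, 3, 4] = true := by
  decide +kernel

theorem m1_perm (ρ : List ℕ) (hρ : ρ ∈ perms5) :
    (perms5.map fun π => π.map fun i => ρ.getD i 0).Perm perms5 := by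
  have h := List.isPerm_iff.1 m1_p5
  refine (h.map _).trans (List.Perm.trans ?_ h.symm)
  have := List.map_permutations' (fun i => ρ.getD i 0) [0, 1, 2, 3, 4]
  exact (List.Perm.of_eq this).trans (List.isPerm_iff.1 (m1_rho ρ hρ)).permutations'

section
variable {V : Type} [Fintype V]

theorem m1_col (S : WS V (3 / 7)) (q : ℕ → V) (a b : ℕ) (ha : a < 5) (hb : b < 5) (h : a ≠ b) :
    Nat.land (Nat.shiftRight (gS S q) (slot a b)) 1 = bif S.c (q a) (q b) then 1 else 0 := by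
  rw [gS, m1_bit]
  interval_cases a <;> interval_cases b <;> first
    | exact absurd rfl h
    | rfl
    | (symm; rw [S.c_symm]; rfl)

theorem m1_gperm (S : WS V (3 / 7)) (q : ℕ → V) (t : ℕ) (ht : t < 120) :
    gS S (fun i => q ((perms5.getD t []).getD i 0)) = gperm (gS S q) (SM.getD t 0) := by
  obtain ⟨hm, h1, h2, h3, h4, h5, h6, h7, h8, h9, h10⟩ := m1_tab t ht
  obtain ⟨-, hl, hn⟩ := m1_pm _ hm
  generalize perms5.getD t [] = π at *
  have hc : ∀ j < 5, ∀ i < j, Nat.land (Nat.shiftRight (gS S q) (slot (π.getD i 0) (π.getD j 0))) 1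
      = bif S.c (q (π.getD i 0)) (q (π.getD j 0)) then 1 else 0 := fun j hj i hi =>
    m1_col S q _ _ (hl i (by omega)) (hl j hj) (hn j hj i hi)
  rw [gperm, nsum_eq]
  simp only [List.map_cons, List.map_nil, h1, h2, h3, h4, h5, h6, h7, h8, h9, h10]
  rw [hc 1 (by omega) 0 (by omega), hc 2 (by omega) 0 (by omega), hc 2 (by omega) 1 (by omega),
    hc 3 (by omega) 0 (by omega), hc 3 (by omega) 1 (by omega), hc 3 (by omega) 2 (by omega),
    hc 4 (by omega) 0 (by omega), hc 4 (by omega) 1 (by omega), hc 4 (by omega) 2 (by omega),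
    hc 4 (by omega) 3 (by omega)]
  simp only [gS, nb, List.sum_cons, List.sum_nil, Nat.shiftLeft_eq', Nat.shiftLeft_eq, cond_false]
  ring

/-- the integrand -/
noncomputable def m1F (C : C1) (S : WS V (3 / 7)) (q : ℕ → V) : ℝ := TR C (gS S q) (dS S q)

theorem m1_congr (C : C1) (S : WS V (3 / 7)) {q q' : ℕ → V} (h : ∀ i < 5, q i = q' i) :
    m1F C S q = m1F C S q' := by
  have hg : gS S q = gS S q' := by
    simp only [gS, h 0 (by omega), h 1 (by omega), h 2 (by omega), h 3 (by omega), h 4 (by omega)]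
  have hd : dS S q = dS S q' := by
    funext k
    simp only [dS, h 0 (by omega), h 1 (by omega), h 2 (by omega), h 3 (by omega), h 4 (by omega)]
  rw [m1F, m1F, hg, hd]

theorem m1_HR (C : C1) (S : WS V (3 / 7)) (q : ℕ → V) :
    HR C S q = (perms5.map fun π => m1F C S fun i => q (π.getD i 0)).sum := rfl

theorem m1_HR_perm (C : C1) (S : WS V (3 / 7)) (q : ℕ → V) (ρ : List ℕ) (hρ : ρ ∈ perms5) :
    HR C S (fun i => q (ρ.getD i 0)) = HR C S q := by
  have hp := m1_perm ρ hρ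
  rw [m1_HR, m1_HR, ← (hp.map fun π => m1F C S fun i => q (π.getD i 0)).sum_eq, List.map_map]
  refine congrArg List.sum (List.map_congr_left fun π hπ => m1_congr C S fun i hi => ?_)
  have hl := (m1_pm π hπ).1
  have hi' : i < π.length := by omega
  simp [List.getD_eq_getElem?_getD, List.getElem?_eq_getElem hi']

theorem m1_neg (C : C1) (reps : List ℕ) (w : ℕ) (hc : cover reps w = true)
    (h : ∀ g ∈ reps, Hneg C g) (S : WS V (3 / 7)) (hH : Heavy S) (q : ℕ → V) : HR C S q ≤ -1 := by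
  obtain ⟨-, -, -, -, h1, h2⟩ := m1_parts (S.c (q 0) (q 1)) (S.c (q 0) (q 2)) (S.c (q 1) (q 2))
    (S.c (q 0) (q 3)) (S.c (q 1) (q 3)) (S.c (q 2) (q 3)) (S.c (q 0) (q 4)) (S.c (q 1) (q 4))
    (S.c (q 2) (q 4)) (S.c (q 3) (q 4))
  change gS S q % 2 = 0 at h1
  change gS S q / 2 < 1024 at h2
  have h3 := List.all_eq_true.1 hc (gS S q / 2) (List.mem_range.2 h2)
  rw [Bool.and_eq_true, Nat.blt_eq, List.elem_eq_mem, decide_eq_true_eq, lk_eq,
    show 2 * (gS S q / 2) = gS S q by omega] at h3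
  obtain ⟨h4, h5⟩ := h3
  rw [← m1_HR_perm C S q _ (m1_tab _ h5).1]
  exact h _ h4 V S hH _ (m1_gperm S q _ h5)

def m1ext (p : Fin 5 → V) (i : ℕ) : V := p (Fin.ofNat 5 i)

noncomputable def m1E (S : WS V (3 / 7)) (f : (ℕ → V) → ℝ) : ℝ := by
  classical exact ∑ p : Fin 5 → V, (∏ i, S.x (p i)) * f (m1ext p)

theorem m1_bij : ∀ π ∈ perms5,
    Function.Bijective fun i : Fin 5 => Fin.ofNat 5 (π.getD i 0) := by
  decide +kernel

theorem m1E_perm (C : C1) (S : WS V (3 / 7)) (π : List ℕ) (hπ : π ∈ perms5) :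
    m1E S (fun q => m1F C S fun i => q (π.getD i 0)) = m1E S (m1F C S) := by
  classical
  let e : Fin 5 ≃ Fin 5 := Equiv.ofBijective _ (m1_bij π hπ)
  unfold m1E
  refine Fintype.sum_equiv (Equiv.arrowCongr e.symm (Equiv.refl V)) _ _ fun p => ?_
  have h1 : ∏ i, S.x ((Equiv.arrowCongr e.symm (Equiv.refl V)) p i) = ∏ i, S.x (p i) :=
    Equiv.prod_comp e fun i => S.x (p i)
  rw [h1]
  refine congrArg _ (m1_congr C S fun i hi => ?_)
  show p (Fin.ofNat 5 (π.getD i 0)) = p (Fin.ofNat 5 (π.getD (i % 5) 0))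
  rw [Nat.mod_eq_of_lt hi]

theorem m1E_list (S : WS V (3 / 7)) {α : Type} (l : List α) (f : α → (ℕ → V) → ℝ) :
    m1E S (fun q => (l.map fun a => f a q).sum) = (l.map fun a => m1E S (f a)).sum := by
  induction l with
  | nil => simp [m1E]
  | cons a l ih =>
    simp only [List.map_cons, List.sum_cons, ← ih]
    simp only [m1E, mul_add, sum_add_distrib]

theorem m1_cons [DecidableEq V] {n : ℕ} (g : (Fin (n + 1) → V) → ℝ) :
    ∑ p, g p = ∑ a, ∑ p : Fin n → V, g (Matrix.vecCons a p) := by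
  rw [← Fintype.sum_prod_type']
  exact (Fintype.sum_equiv (Fin.consEquiv fun _ => V) _ _ fun _ => rfl).symm

theorem m1E_nest (S : WS V (3 / 7)) (f : (ℕ → V) → ℝ) :
    m1E S f = ∑ a, ∑ b, ∑ c, S.x a * S.x b * S.x c *
      ∑ d, ∑ e, S.x d * S.x e * f (m1ext ![a, b, c, d, e]) := by
  classical
  unfold m1E
  simp only [m1_cons, Fintype.sum_unique, mul_sum]
  refine sum_congr rfl fun a _ => sum_congr rfl fun b _ => sum_congr rfl fun c _ =>
    sum_congr rfl fun d _ => sum_congr rfl fun e _ => ?_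
  rw [Fin.prod_univ_five]
  have : (default : Fin 0 → V) = ![] := Subsingleton.elim _ _
  rw [this]
  simp only [Matrix.cons_val]
  ring

theorem m1_list2 (x : V → ℝ) {α : Type} (l : List α) (T : α → V → V → ℝ)
    (h : ∀ a ∈ l, 0 ≤ ∑ d, ∑ e, x d * x e * T a d e) :
    0 ≤ ∑ d, ∑ e, x d * x e * (l.map fun a => T a d e).sum := by
  induction l with
  | nil => simp
  | cons a l ih =>
    simp only [List.map_cons, List.sum_cons, mul_add, sum_add_distrib]
    exact add_nonneg (h a (by simp)) (ih fun b hb => h b (by simp [hb]))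

theorem m1_sq (x : V → ℝ) (r : ℕ) (φ : ℕ → V → ℝ) (l : ℝ) (hl : 0 ≤ l) :
    0 ≤ ∑ d, ∑ e, x d * x e * ((∑ k ∈ range r, φ k d * φ k e) * l) := by
  have : ∑ d, ∑ e, x d * x e * ((∑ k ∈ range r, φ k d * φ k e) * l)
      = (∑ k ∈ range r, (∑ d, x d * φ k d) * (∑ d, x d * φ k d)) * l := by
    simp only [sum_mul_sum]
    rw [sum_comm (s := range r), sum_mul]
    refine sum_congr rfl fun d _ => ?_
    rw [sum_comm (s := range r), sum_mul]
    refine sum_congr rfl fun e _ => ?_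
    simp only [mul_sum, sum_mul]
    exact sum_congr rfl fun k _ => by ring
  rw [this]
  exact mul_nonneg (sum_nonneg fun k _ => mul_self_nonneg _) hl

theorem m1_flag (C : C1) (S : WS V (3 / 7)) (hH : Heavy S) (a b c : V) :
    0 ≤ ∑ d, ∑ e, S.x d * S.x e *
      flagR C (gS S (m1ext ![a, b, c, d, e])) (dS S (m1ext ![a, b, c, d, e])) := by
  have hp := fun d e => m1_parts (S.c a b) (S.c a c) (S.c b c) (S.c a d) (S.c b d) (S.c c d)
    (S.c a e) (S.c b e) (S.c c e) (S.c d e)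
  have h1 : ∀ d e, gS S (m1ext ![a, b, c, d, e]) / 2 % 8 = nb [S.c a b, S.c a c, S.c b c] :=
    fun d e => (hp d e).1
  have h2 : ∀ d e, gS S (m1ext ![a, b, c, d, e]) / 16 % 8 = nb [S.c a d, S.c b d, S.c c d] :=
    fun d e => (hp d e).2.1
  have h3 : ∀ d e, gS S (m1ext ![a, b, c, d, e]) / 128 % 8 = nb [S.c a e, S.c b e, S.c c e] :=
    fun d e => (hp d e).2.2.1
  have h4 : ∀ d e, db (dS S (m1ext ![a, b, c, d, e])) 4 = db (dS S (m1ext ![a, b, c, a, a])) 4 := by
    intro d e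
    funext k
    unfold db
    split_ifs with hk
    · interval_cases k <;> rfl
    · rfl
  simp only [flagR, h1, h2, h3, h4]
  refine m1_list2 S.x _ _ fun bl _ => ?_
  cases hok : okM (2 * nb [S.c a b, S.c a c, S.c b c]) (14 - 2 * nb [S.c a b, S.c a c, S.c b c])
    (rowM bl.1)
  · simp
  · simp only [cond_true, sqR]
    exact m1_sq S.x bl.2.1 (fun k y => vecR C.Qv
      [1, S.D a b, S.D a c, S.D b c, S.D a y, S.D b y, S.D c y]
      (bl.2.2.getD (nb [S.c a y, S.c b y, S.c c y]) 0 / (C.Qv ^ 7) ^ k % C.Qv ^ 7)) _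
      (row3_nonneg S hH _ _ (by rw [h1]; exact hok))

theorem m1_vec (Q m : ℕ) : ∀ a : ℕ, ∃ B : ℝ, 0 ≤ B ∧ ∀ l : List ℝ, l.length = m →
    (∀ x ∈ l, |x| ≤ 3) → |vecR Q l a| ≤ B := by
  induction m with
  | zero =>
    intro a
    refine ⟨0, le_rfl, fun l hl _ => ?_⟩
    rw [List.length_eq_zero_iff.1 hl]
    simp [vecR]
  | succ m ih =>
    intro a
    obtain ⟨B, hB, h⟩ := ih (a / Q)
    refine ⟨|((a % Q : ℕ) : ℝ) - ((Q / 2 : ℕ) : ℝ)| * 3 + B, by positivity, fun l hl hx => ?_⟩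
    cases l with
    | nil => simp at hl
    | cons x l =>
      rw [vecR]
      refine (abs_add_le _ _).trans (add_le_add ?_ (h l (by simpa using hl)
        fun y hy => hx y (List.mem_cons_of_mem _ hy)))
      rw [abs_mul]
      exact mul_le_mul_of_nonneg_left (hx x List.mem_cons_self) (abs_nonneg _)

theorem m1_mat (Q n : ℕ) : ∃ B : ℝ, 0 ≤ B ∧ ∀ d : ℕ → ℝ, (∀ k, |d k| ≤ 3) → |matR Q n d| ≤ B := by
  choose B hB h using m1_vec Q 7
  refine ⟨∑ a ∈ range 7, 3 * B (n / (Q ^ 7) ^ a % Q ^ 7),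
    sum_nonneg fun a _ => mul_nonneg (by norm_num) (hB _), fun d hd => ?_⟩
  refine (abs_sum_le_sum_abs _ _).trans (sum_le_sum fun a _ => ?_)
  rw [abs_mul]
  refine mul_le_mul (hd a) (h _ _ rfl ?_) (abs_nonneg _) (by norm_num)
  simp only [List.forall_mem_cons, hd, List.not_mem_nil, IsEmpty.forall_iff, implies_true, and_self]

theorem m1_mats (Q : ℕ) (L : List ℕ) : ∃ B : ℝ, 0 ≤ B ∧ ∀ n ∈ L, ∀ d : ℕ → ℝ, (∀ k, |d k| ≤ 3) →
    |matR Q n d| ≤ B := by
  induction L with
  | nil => exact ⟨0, le_rfl, fun n hn => absurd hn List.not_mem_nil⟩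
  | cons a L ih =>
    obtain ⟨B, hB, h⟩ := ih
    obtain ⟨B', hB', h'⟩ := m1_mat Q a
    refine ⟨B + B', by positivity, fun n hn d hd => ?_⟩
    rcases List.mem_cons.1 hn with rfl | hn
    · linarith [h' d hd]
    · linarith [h n hn d hd]

theorem m1_reg (C : C1) {B : ℝ} (hB : 0 ≤ B)
    (hb : ∀ n ∈ C.rg.flatten, ∀ d : ℕ → ℝ, (∀ k, |d k| ≤ 3) → |matR C.Qr n d| ≤ B)
    (S : WS V (3 / 7)) (a b c : V) :
    -(28 * B * S.err) ≤ ∑ d, ∑ e, S.x d * S.x e *
      regR C (gS S (m1ext ![a, b, c, d, e])) (dS S (m1ext ![a, b, c, d, e])) := by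
  have he : 0 ≤ S.err := (abs_nonneg _).trans (S.reg a)
  have h1 : ∀ d e, gS S (m1ext ![a, b, c, d, e]) / 2 % 64
      = nb [S.c a b, S.c a c, S.c b c, S.c a d, S.c b d, S.c c d] := fun d e =>
    (m1_parts (S.c a b) (S.c a c) (S.c b c) (S.c a d) (S.c b d) (S.c c d)
      (S.c a e) (S.c b e) (S.c c e) (S.c d e)).2.2.2.1
  have h2 : ∀ d e n, matR C.Qr n (dS S (m1ext ![a, b, c, d, e]))
      = matR C.Qr n (dS S (m1ext ![a, b, c, d, a])) := by
    intro d e n
    refine sum_congr rfl fun k hk => ?_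
    have := mem_range.1 hk
    interval_cases k <;> rfl
  have h3 : ∀ (v : V) (m : ℝ), |m| ≤ B →
      -(7 * B * S.err) ≤ ∑ e, S.x e * (m * (7 * S.D v e - 3 * 1)) := by
    intro v m hm
    have : ∑ e, S.x e * (m * (7 * S.D v e - 3 * 1))
        = m * (7 * ∑ e, S.x e * S.D v e - 3 * ∑ e, S.x e) := by
      simp only [mul_sum, ← sum_sub_distrib]
      exact sum_congr rfl fun e _ => by ring
    rw [this, S.x_sum]
    have h4 : |m * (∑ e, S.x e * S.D v e - 3 / 7)| ≤ B * S.err := by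
      rw [abs_mul]
      exact mul_le_mul hm (S.reg v) (abs_nonneg _) hB
    linarith [(abs_le.1 h4).1]
  simp only [regR, h1, h2]
  have e0 : -(28 * B * S.err) = ∑ d, S.x d * -(28 * B * S.err) := by
    rw [← sum_mul, S.x_sum, one_mul]
  rw [e0]
  refine sum_le_sum fun d _ => ?_
  simp only [mul_assoc (S.x d), ← mul_sum]
  refine mul_le_mul_of_nonneg_left ?_ (S.x_nonneg d)
  have hl : ∀ p ∈ ((C.rg.getD (nb [S.c a b, S.c a c, S.c b c, S.c a d, S.c b d, S.c c d]) []).take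
      4).zipIdx, p.2 < 4 ∧ p.1 ∈ C.rg.flatten := by
    intro p hp
    have h5 := List.mem_zipIdx' (x := p.1) (i := p.2) hp
    refine ⟨lt_of_lt_of_le h5.1 (List.length_take_le _ _), ?_⟩
    have h6 := List.mem_of_mem_take (List.fst_mem_of_mem_zipIdx hp)
    generalize nb [S.c a b, S.c a c, S.c b c, S.c a d, S.c b d, S.c c d] = i at h6
    rcases lt_or_ge i C.rg.length with h | h
    · rw [List.getD_eq_getElem _ _ h] at h6
      exact List.mem_flatten.2 ⟨_, List.getElem_mem h, h6⟩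
    · rw [List.getD_eq_default _ _ h] at h6
      exact absurd h6 List.not_mem_nil
  have hn : ((C.rg.getD (nb [S.c a b, S.c a c, S.c b c, S.c a d, S.c b d, S.c c d]) []).take
      4).zipIdx.length ≤ 4 := by
    rw [List.length_zipIdx]
    exact List.length_take_le _ _
  generalize ((C.rg.getD (nb [S.c a b, S.c a c, S.c b c, S.c a d, S.c b d, S.c c d]) []).take
      4).zipIdx = l at hl hn
  have hp : 0 ≤ 7 * B * S.err := by positivity
  suffices h : -((l.length : ℝ) * (7 * B * S.err)) ≤ ∑ e, S.x e *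
      (l.map fun p => matR C.Qr p.1 (dS S (m1ext ![a, b, c, d, a])) *
        (7 * dS S (m1ext ![a, b, c, d, e]) (7 + p.2) - 3 * dS S (m1ext ![a, b, c, d, e]) 0)).sum by
    have h7 : (l.length : ℝ) ≤ 4 := by exact_mod_cast hn
    have := mul_le_mul_of_nonneg_right h7 hp
    linarith
  clear hn
  induction l with
  | nil => simp
  | cons p l ih =>
    simp only [List.map_cons, List.sum_cons, mul_add, sum_add_distrib, List.length_cons]
    have h8 := ih fun b hb => hl b (by simp [hb])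
    obtain ⟨h9, h10⟩ := hl p (by simp)
    have h11 := hb _ h10 (dS S (m1ext ![a, b, c, d, a])) fun k =>
      abs_le.2 ⟨by linarith [(dS_bound S (m1ext ![a, b, c, d, a]) k).1], (dS_bound S _ k).2⟩
    obtain ⟨n, v⟩ := p
    have h12 : -(7 * B * S.err) ≤ ∑ e, S.x e * (matR C.Qr n (dS S (m1ext ![a, b, c, d, a])) *
        (7 * dS S (m1ext ![a, b, c, d, e]) (7 + v) - 3 * dS S (m1ext ![a, b, c, d, e]) 0)) := by
      interval_cases v
      exacts [h3 a _ h11, h3 b _ h11, h3 c _ h11, h3 d _ h11]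
    push_cast
    linarith

theorem m1_three (S : WS V (3 / 7)) (t : ℝ) :
    ∑ a, ∑ b, ∑ c, S.x a * S.x b * S.x c * t = t := by
  simp only [mul_assoc, ← mul_sum, ← sum_mul, S.x_sum, one_mul]

theorem m1E_ge (C : C1) {B : ℝ} (hB : 0 ≤ B)
    (hb : ∀ n ∈ C.rg.flatten, ∀ d : ℕ → ℝ, (∀ k, |d k| ≤ 3) → |matR C.Qr n d| ≤ B)
    (S : WS V (3 / 7)) (hH : Heavy S) : -(28 * B * S.err) ≤ m1E S (m1F C S) := by
  rw [m1E_nest, ← m1_three S (-(28 * B * S.err))]
  refine sum_le_sum fun a _ => sum_le_sum fun b _ => sum_le_sum fun c _ =>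
    mul_le_mul_of_nonneg_left ?_
      (mul_nonneg (mul_nonneg (S.x_nonneg a) (S.x_nonneg b)) (S.x_nonneg c))
  simp only [m1F, TR, mul_add, sum_add_distrib]
  linarith [m1_flag C S hH a b c, m1_reg C hB hb S a b c]

theorem m1E_neg (S : WS V (3 / 7)) (f : (ℕ → V) → ℝ) (h : ∀ q, f q ≤ -1) : m1E S f ≤ -1 := by
  have e : m1E S (fun _ => -1) = -1 := by
    rw [m1E_nest]
    simp only [mul_assoc, ← mul_sum, ← sum_mul, S.x_sum, one_mul]
  rw [← e]
  classical
  unfold m1E
  exact sum_le_sum fun p _ => mul_le_mul_of_nonneg_left (h _)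
    (prod_nonneg fun i _ => S.x_nonneg _)

end

theorem light_of_hneg (C : C1) (reps : List ℕ) (w : ℕ) (hc : cover reps w = true)
    (h : ∀ g ∈ reps, Hneg C g) : ∃ δ : ℝ, 0 < δ ∧ ∀ (V : Type) [Fintype V] (S : WS V (3 / 7)),
    S.err ≤ δ → ∃ a b d e f, Pent S a b d e f ∧ tot S a b d e f ≤ 6 / 5 := by
  obtain ⟨B, hB, hb⟩ := m1_mats C.Qr C.rg.flatten
  refine ⟨1 / (3360 * B + 1), by positivity, fun V _ S hS => ?_⟩
  by_contra hn
  have hH : Heavy S := fun a b d e f hp => by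
    by_contra h'
    exact hn ⟨a, b, d, e, f, hp, (not_le.1 h').le⟩
  have h1 := m1E_neg S _ (m1_neg C reps w hc h S hH)
  have h2 : m1E S (HR C S)
      = (perms5.map fun π => m1E S fun q => m1F C S fun i => q (π.getD i 0)).sum :=
    m1E_list S perms5 fun π q => m1F C S fun i => q (π.getD i 0)
  rw [h2, List.map_congr_left fun π hπ => m1E_perm C S π hπ, List.map_const', List.sum_replicate,
    show perms5.length = 120 from rfl, nsmul_eq_mul] at h1
  have h3 := m1E_ge C hB hb S hH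
  have h4 := mul_le_mul_of_nonneg_left hS hB
  have h5 : B * (1 / (3360 * B + 1)) * 3360 < 1 := by
    rw [mul_one_div, div_mul_eq_mul_div, div_lt_one (by positivity)]
    linarith
  push_cast at h1
  linarith

end Pool.Agent.P.MP_c18ddb_co.R
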