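import Pool.Agent.P.MP_c18ddb_co.R.Root

/-! Symmetries of rooted structures. -/

namespace Pool.Agent.P.MP_c18ddb_co.R

open Finset

variable {V : Type} [Fintype V]

theorem sym_not {a s : Bool} (h : (!a) = s) : a = !s := by
  cases a <;> cases s <;> simp_all

/-- the complementary colouring -/
def symCo {lam : ℝ} (S : WS V lam) : WS V lam where
  x := S.x
  c u v := !S.c u v
  D := S.D
  err := S.err
  x_nonneg := S.x_nonneg
  x_sum := S.x_sum
  c_symm u v := by rw [S.c_symm]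
  D_symm := S.D_symm
  D_nonneg := S.D_nonneg
  D_le := S.D_le
  k3 s a b d h1 h2 h3 := S.k3 (!s) a b d (sym_not h1) (sym_not h2) (sym_not h3)
  k4 s a b d e h1 h2 h3 h4 h5 h6 := S.k4 (!s) a b d e (sym_not h1) (sym_not h2) (sym_not h3)
    (sym_not h4) (sym_not h5) (sym_not h6)
  k5 s a b d e f h1 h2 h3 h4 h5 h6 h7 h8 h9 h10 := S.k5 (!s) a b d e f (sym_not h1) (sym_not h2)
    (sym_not h3) (sym_not h4) (sym_not h5) (sym_not h6) (sym_not h7) (sym_not h8) (sym_not h9)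
    (sym_not h10)
  reg := S.reg

theorem sym_tot {lam : ℝ} (S : WS V lam) (a b d e f : V) :
    tot S a d f b e = tot S a b d e f := by
  simp only [tot, S.D_symm d b, S.D_symm f b, S.D_symm f e]
  ring

theorem sym_tot' {lam : ℝ} (S : WS V lam) (a b d e f : V) :
    tot S b d e f a = tot S a b d e f := by
  simp only [tot, S.D_symm b a, S.D_symm d a, S.D_symm e a, S.D_symm f a]
  ring

/-- complement of a rooted structure -/
noncomputable def symS (R : Rt V) : Rt V where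
  S := symCo R.S
  r0 := R.r0
  r1 := R.r2
  r2 := R.r4
  r3 := R.r1
  r4 := R.r3
  hp := by
    obtain ⟨h1, h2, h3, h4, h5, h6, h7, h8, h9, h10⟩ := R.hp
    simp only [Pent, symCo, R.S.c_symm R.r2 R.r1, R.S.c_symm R.r4 R.r1, R.S.c_symm R.r4 R.r3, h1, h2,
      h3, h4, h5, h6, h7, h8, h9, h10]
    simp
  hmin a b d e f h := by
    obtain ⟨h1, h2, h3, h4, h5, h6, h7, h8, h9, h10⟩ := h
    have hp : Pent R.S a d f b e :=
      ⟨sym_not h2, sym_not h7, sym_not h9, sym_not h1, (R.S.c_symm _ _).trans (sym_not h3),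
        (R.S.c_symm _ _).trans (sym_not h8), sym_not h4, sym_not h6,
        (R.S.c_symm _ _).trans (sym_not h10), sym_not h5⟩
    have h0 := R.hmin _ _ _ _ _ hp
    rw [sym_tot R.S a b d e f] at h0
    have e1 : tot (symCo R.S) R.r0 R.r2 R.r4 R.r1 R.r3 = tot R.S R.r0 R.r1 R.r2 R.r3 R.r4 :=
      sym_tot R.S _ _ _ _ _
    rw [e1]
    exact h0

/-- rotation of the roots -/
noncomputable def symR (R : Rt V) : Rt V where
  S := R.S
  r0 := R.r1
  r1 := R.r2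
  r2 := R.r3
  r3 := R.r4
  r4 := R.r0
  hp := by
    obtain ⟨h1, h2, h3, h4, h5, h6, h7, h8, h9, h10⟩ := R.hp
    exact ⟨h3, h5, h6, h8, h9, h10, (R.S.c_symm _ _).trans h1, (R.S.c_symm _ _).trans h2,
      (R.S.c_symm _ _).trans h4, (R.S.c_symm _ _).trans h7⟩
  hmin a b d e f h := by
    rw [sym_tot']
    exact R.hmin _ _ _ _ _ h

theorem sym_tabS : ∀ a b c d e : Bool, patT.idxOf (nb [!a, !c, !e, !b, !d]) =
    [1, 0, 7, 6, 3, 2, 9, 8, 5, 4, 10].getD (patT.idxOf (nb [a, b, c, d, e])) 0 := by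
  decide

theorem sym_tabR : ∀ a b c d e : Bool, patT.idxOf (nb [b, c, d, e, a]) =
    [8, 9, 0, 1, 2, 3, 4, 5, 6, 7, 10].getD (patT.idxOf (nb [a, b, c, d, e])) 0 := by
  decide

theorem sym_tyS (R : Rt V) (y : V) :
    (symS R).ty y = [1, 0, 7, 6, 3, 2, 9, 8, 5, 4, 10].getD (R.ty y) 0 := sym_tabS _ _ _ _ _

theorem sym_tyR (R : Rt V) (y : V) :
    (symR R).ty y = [8, 9, 0, 1, 2, 3, 4, 5, 6, 7, 10].getD (R.ty y) 0 := sym_tabR _ _ _ _ _

theorem sym_valM (R : Rt V) (b : List ℤ) : valM (symS R) b = valM R (actM b) := by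
  unfold valM
  refine Finset.sum_congr rfl fun y _ => ?_
  rw [sym_tyS]
  have h := ty_le R y
  generalize R.ty y = k at h
  have e : b.getD ([1, 0, 7, 6, 3, 2, 9, 8, 5, 4, 10].getD k 0) 0 = (actM b).getD k 0 := by
    interval_cases k <;> rfl
  rw [e]
  rfl

theorem sym_valM4 (R : Rt V) (b : List ℤ) : valM R (actM (actM (actM (actM b)))) = valM R b := by
  unfold valM
  refine Finset.sum_congr rfl fun y _ => ?_
  have h := ty_le R y
  generalize R.ty y = k at h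
  have e : (actM (actM (actM (actM b)))).getD k 0 = b.getD k 0 := by
    interval_cases k <;> rfl
  rw [e]

theorem sym_valZ_eq (R : Rt V) (z : List ℤ) : valZ R z =
    (z.getD 0 0 : ℤ) + (z.getD 1 0 : ℤ) * R.S.D R.r0 R.r1 + (z.getD 2 0 : ℤ) * R.S.D R.r0 R.r2 +
      (z.getD 3 0 : ℤ) * R.S.D R.r1 R.r2 + (z.getD 4 0 : ℤ) * R.S.D R.r0 R.r3 +
      (z.getD 5 0 : ℤ) * R.S.D R.r1 R.r3 + (z.getD 6 0 : ℤ) * R.S.D R.r2 R.r3 +
      (z.getD 7 0 : ℤ) * R.S.D R.r0 R.r4 + (z.getD 8 0 : ℤ) * R.S.D R.r1 R.r4 +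
      (z.getD 9 0 : ℤ) * R.S.D R.r2 R.r4 + (z.getD 10 0 : ℤ) * R.S.D R.r3 R.r4 := by
  unfold valZ zf
  rw [sev_filter]
  have e : List.range 11 = [0, 1, 2, 3, 4, 5, 6, 7, 8, 9, 10] := rfl
  rw [e]
  simp only [List.map_cons, List.map_nil, sev]
  simp only [Rt.dd, List.getD_cons_zero, List.getD_cons_succ]
  ring

theorem sym_actZ (z : List ℤ) : actZ z = [z.getD 0 0, z.getD 4 0, z.getD 1 0, z.getD 5 0, z.getD 7 0,
    z.getD 10 0, z.getD 8 0, z.getD 2 0, z.getD 6 0, z.getD 3 0, z.getD 9 0] := rfl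

theorem sym_valZ (R : Rt V) (z : List ℤ) : valZ (symS R) z = valZ R (actZ z) := by
  rw [sym_valZ_eq, sym_valZ_eq, sym_actZ]
  simp only [symS, symCo, List.getD_cons_zero, List.getD_cons_succ, R.S.D_symm R.r2 R.r1,
    R.S.D_symm R.r4 R.r1, R.S.D_symm R.r4 R.r3]
  ring

theorem sym_valZ4 (R : Rt V) (z : List ℤ) : valZ R (actZ (actZ (actZ (actZ z)))) = valZ R z := by
  rw [sym_valZ_eq, sym_valZ_eq]
  rfl

theorem sym_valM_nil (R : Rt V) : valM R [] = 0 := by simp [valM]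

theorem sym_valZ_nil (R : Rt V) : valZ R [] = 0 := by simp [sym_valZ_eq]

theorem sym_allP {act : List ℤ → List ℤ} {v : List ℤ → ℝ} (L : List (List ℤ))
    (h : AllP (fun b => ∀ a ∈ cl act [b], 0 ≤ v a) L) : ∀ b ∈ cl act L, 0 ≤ v b := by
  induction L with
  | nil => simp [cl]
  | cons c l ih =>
    obtain ⟨h1, h2⟩ := h
    simp only [cl, List.mem_cons, List.not_mem_nil, or_false] at h1 ⊢
    rintro b (hb | hb | hb | hb | hb)
    · exact h1 b (Or.inl hb)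
    · exact h1 b (Or.inr (Or.inl hb))
    · exact h1 b (Or.inr (Or.inr (Or.inl hb)))
    · exact h1 b (Or.inr (Or.inr (Or.inr hb)))
    · exact ih h2 b hb

theorem sym_pass {act : List ℤ → List ℤ} {v : List ℤ → ℝ}
    (h4 : ∀ b, v (act (act (act (act b)))) = v b) (L : List (List ℤ))
    (h : ∀ b ∈ cl act L, 0 ≤ v b) : ∀ b ∈ cl act L, 0 ≤ v (act b) := by
  induction L with
  | nil => simp [cl]
  | cons c l ih =>
    simp only [cl, List.mem_cons] at h ⊢
    rintro b (rfl | rfl | rfl | rfl | hb)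
    · exact h _ (Or.inr (Or.inl rfl))
    · exact h _ (Or.inr (Or.inr (Or.inl rfl)))
    · exact h _ (Or.inr (Or.inr (Or.inr (Or.inl rfl))))
    · rw [h4]
      exact h _ (Or.inl rfl)
    · exact ih (fun b hb => h b (Or.inr (Or.inr (Or.inr (Or.inr hb))))) b hb

theorem sym_getD_nonneg {z : List ℤ} (h : ∀ a ∈ z, 0 ≤ a) (k : ℕ) : 0 ≤ z.getD k 0 := by
  rw [List.getD_eq_getElem?_getD]
  rcases hk : z[k]? with _ | a
  · simp
  · exact h a (List.mem_of_getElem? hk)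

theorem sym_actZ_nonneg {z : List ℤ} (h : ∀ a ∈ z, 0 ≤ a) : ∀ a ∈ actZ z, 0 ≤ a := by
  intro a ha
  obtain ⟨k, -, rfl⟩ := List.mem_map.1 ha
  exact sym_getD_nonneg h k

theorem sym_valZ_nonneg (R : Rt V) {z : List ℤ} (h : ∀ a ∈ z, 0 ≤ a) : 0 ≤ valZ R z := by
  rw [sym_valZ_eq]
  have h1 : ∀ k, (0 : ℝ) ≤ ((z.getD k 0 : ℤ) : ℝ) := fun k => by
    exact_mod_cast sym_getD_nonneg h k
  have h2 := fun k u v => mul_nonneg (h1 k) (R.S.D_nonneg u v)
  linarith [h1 0, h2 1 R.r0 R.r1, h2 2 R.r0 R.r2, h2 3 R.r1 R.r2, h2 4 R.r0 R.r3, h2 5 R.r1 R.r3,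
    h2 6 R.r2 R.r3, h2 7 R.r0 R.r4, h2 8 R.r1 R.r4, h2 9 R.r2 R.r4, h2 10 R.r3 R.r4]

theorem valZ_eta (R : Rt V) (a b : ℤ) :
    valZ R [a, b, b, b, b, b, b, b, b, b, b] = (a : ℝ) + b * R.eta := by
  rw [sym_valZ_eq]
  simp only [List.getD_cons_zero, List.getD_cons_succ, Rt.eta, tot]
  ring

/-- mass of the twins of root `i` -/
noncomputable def symQ (R : Rt V) (i : ℕ) : ℝ := ∑ y, R.S.x y * if R.ty y / 2 = i then 1 else 0

theorem sym_valM_pairs (R : Rt V) (a b c d e : ℤ) :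
    valM R [a, a, b, b, c, c, d, d, e, e, 0] =
      a * symQ R 0 + b * symQ R 1 + c * symQ R 2 + d * symQ R 3 + e * symQ R 4 := by
  unfold valM symQ
  simp only [Finset.mul_sum, ← Finset.sum_add_distrib]
  refine Finset.sum_congr rfl fun y _ => ?_
  have h := ty_le R y
  generalize R.ty y = k at h
  interval_cases k <;> simp [mul_comm]

theorem sym_Q_rot (R : Rt V) (i : ℕ) (hi : i < 5) : symQ (symR R) i = symQ R ((i + 1) % 5) := by
  unfold symQ
  refine Finset.sum_congr rfl fun y _ => ?_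
  rw [sym_tyR]
  have h := ty_le R y
  generalize R.ty y = k at h
  have e : ([8, 9, 0, 1, 2, 3, 4, 5, 6, 7, 10].getD k 0 / 2 = i) ↔ (k / 2 = (i + 1) % 5) := by
    interval_cases k <;> interval_cases i <;> decide
  simp only [e]
  rfl

theorem sym_box (R : Rt V) (h1 : symQ R 0 ≤ symQ R 1) (h2 : symQ R 0 ≤ symQ R 2)
    (h3 : symQ R 0 ≤ symQ R 3) (h4 : symQ R 0 ≤ symQ R 4) :
    GM R [-1, -1, 1, 1, 0, 0, 0, 0, 0, 0, 0] := by
  have e : cl actM [[-1, -1, 1, 1, 0, 0, 0, 0, 0, 0, 0]] =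
      [[-1, -1, 1, 1, 0, 0, 0, 0, 0, 0, 0], [-1, -1, 0, 0, 1, 1, 0, 0, 0, 0, 0],
        [-1, -1, 0, 0, 0, 0, 0, 0, 1, 1, 0], [-1, -1, 0, 0, 0, 0, 1, 1, 0, 0, 0]] := by decide
  intro a ha
  rw [e] at ha
  simp only [List.mem_cons, List.not_mem_nil, or_false] at ha
  rcases ha with rfl | rfl | rfl | rfl <;> rw [sym_valM_pairs] <;> push_cast <;> linarith

theorem sym_eta_rot (R : Rt V) : (symR R).eta = R.eta := sym_tot' R.S _ _ _ _ _

theorem exists_root (S : WS V (3 / 7)) (t : ℝ)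
    (h : ∃ a b d e f, Pent S a b d e f ∧ tot S a b d e f ≤ t) :
    ∃ R : Rt V, R.S = S ∧ R.eta ≤ t ∧ GM R [-1, -1, 1, 1, 0, 0, 0, 0, 0, 0, 0] := by
  classical
  obtain ⟨a, b, d, e, f, hp, ht⟩ := h
  obtain ⟨p, hp1, hp2⟩ := Finset.exists_min_image
    (Finset.univ.filter fun p : V × V × V × V × V => Pent S p.1 p.2.1 p.2.2.1 p.2.2.2.1 p.2.2.2.2)
    (fun p => tot S p.1 p.2.1 p.2.2.1 p.2.2.2.1 p.2.2.2.2) ⟨(a, b, d, e, f), by simpa using hp⟩
  simp only [Finset.mem_filter, Finset.mem_univ, true_and] at hp1 hp2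
  let R : Rt V := ⟨S, p.1, p.2.1, p.2.2.1, p.2.2.2.1, p.2.2.2.2, hp1,
    fun a b d e f h => hp2 (a, b, d, e, f) h⟩
  have hS : R.S = S := rfl
  have hR : R.eta ≤ t := (hp2 (a, b, d, e, f) hp).trans ht
  clear_value R
  have q0 := fun R : Rt V => sym_Q_rot R 0 (by norm_num)
  have q1 := fun R : Rt V => sym_Q_rot R 1 (by norm_num)
  have q2 := fun R : Rt V => sym_Q_rot R 2 (by norm_num)
  have q3 := fun R : Rt V => sym_Q_rot R 3 (by norm_num)
  have q4 := fun R : Rt V => sym_Q_rot R 4 (by norm_num)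
  norm_num at q0 q1 q2 q3 q4
  obtain ⟨i, hi, hmin⟩ := Finset.exists_min_image (Finset.range 5) (symQ R) ⟨0, by simp⟩
  have m0 := hmin 0 (by simp)
  have m1 := hmin 1 (by simp)
  have m2 := hmin 2 (by simp)
  have m3 := hmin 3 (by simp)
  have m4 := hmin 4 (by simp)
  rw [Finset.mem_range] at hi
  interval_cases i
  · exact ⟨R, hS, hR, sym_box _ m1 m2 m3 m4⟩
  · refine ⟨symR R, hS, by simpa only [sym_eta_rot] using hR, sym_box _ ?_ ?_ ?_ ?_⟩ <;>
      simp only [q0, q1, q2, q3, q4] <;> assumption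
  · refine ⟨symR (symR R), hS, by simpa only [sym_eta_rot] using hR, sym_box _ ?_ ?_ ?_ ?_⟩ <;>
      simp only [q0, q1, q2, q3, q4] <;> assumption
  · refine ⟨symR (symR (symR R)), hS, by simpa only [sym_eta_rot] using hR,
      sym_box _ ?_ ?_ ?_ ?_⟩ <;> simp only [q0, q1, q2, q3, q4] <;> assumption
  · refine ⟨symR (symR (symR (symR R))), hS, by simpa only [sym_eta_rot] using hR,
      sym_box _ ?_ ?_ ?_ ?_⟩ <;> simp only [q0, q1, q2, q3, q4] <;> assumption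

end Pool.Agent.P.MP_c18ddb_co.R
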