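import Pool.Agent.P.MP_c18ddb_co.R.Chk2
import Pool.Agent.P.MP_c18ddb_co.R.Sym

/-! Certificates that depend affinely on a parameter, and the contraction argument. -/

namespace Pool.Agent.P.MP_c18ddb_co.R

open Finset

def a2 (p : List ℤ × List ℤ) : List ℤ × List ℤ := (actM p.1, actM p.2)

def clP : List (List ℤ × List ℤ) → List (List ℤ × List ℤ)
  | [] => []
  | p :: l => p :: a2 p :: a2 (a2 p) :: a2 (a2 (a2 p)) :: clP l

theorem clP_fst (L : List (List ℤ × List ℤ)) :
    cl actM (L.map Prod.fst) = (clP L).map Prod.fst := by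
  induction L with
  | nil => rfl
  | cons p l ih => simp only [List.map_cons, cl, clP, ih, a2]

theorem clP_snd (L : List (List ℤ × List ℤ)) :
    cl actM (L.map Prod.snd) = (clP L).map Prod.snd := by
  induction L with
  | nil => rfl
  | cons p l ih => simp only [List.map_cons, cl, clP, ih, a2]

section
variable {V : Type} [Fintype V]

noncomputable def mix (R : Rt V) (s : ℝ) (p : List ℤ × List ℤ) : ℝ :=
  (1 - s) * valM R p.1 + s * valM R p.2

end

def ImpX (L : List (List ℤ × List ℤ)) (Lz : List (List ℤ)) (t : List ℤ × List ℤ) : Prop :=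
  ∃ K : ℝ, ∀ (V : Type) [Fintype V] (R : Rt V) (s ε : ℝ), 0 ≤ s → s ≤ 1 → 0 ≤ ε → R.S.err ≤ ε →
    (∀ p ∈ clP L, -ε ≤ mix R s p) → (∀ z ∈ cl actZ Lz, -ε ≤ valZ R z) → -(K * ε) ≤ mix R s t

theorem impX_of_chk2 (C0 C1 : C2) (L : List (List ℤ × List ℤ)) (Lz : List (List ℤ))
    (t : List ℤ × List ℤ) (h0 : chk2 C0 (L.map Prod.fst) Lz t.1 [] = true)
    (h1 : chk2 C1 (L.map Prod.snd) Lz t.2 [] = true) (hone : C1.one = C0.one) (hQ : C1.Q = C0.Q)
    (hm : C1.m0 = C0.m0) (hp0 : C0.prs = 0) (hp1 : C1.prs = 0) : ImpX L Lz t := by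
  have hm0 := c2_m0 h0
  obtain ⟨K0, k0', k0⟩ := c2_key C0 _ Lz _ _ _ (fun _ _ _ _ => rfl) h0
  obtain ⟨K1, k1', k1⟩ := c2_key C1 _ Lz _ _ _ (fun _ _ _ _ => rfl) h1
  obtain ⟨B0, b0', b0⟩ := valM_bd ((clP L).map Prod.fst)
  obtain ⟨B1, b1', b1⟩ := valM_bd ((clP L).map Prod.snd)
  obtain ⟨K2, k2', k2⟩ := c2_grp C0 (rowZ ((cl actZ Lz).map zf)) (B0 + B1) (by positivity)
  refine ⟨(K0 + K1 + 2 * K2) / (2 * C0.m0), fun V _ R s ε hs0 hs1 hε he hL hZ => ?_⟩
  have hpr : ∀ (C : C2) LM F G, C.prs = 0 → prR C LM F G = 0 := by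
    intro C LM F G hp
    have e : unp C.Q 200 0 = [] := rfl
    rw [prR, hp, e]
    rfl
  have g0 := k0 V R ε hε he hZ
  have g1 := k1 V R ε hε he hZ
  simp only [hpr C0 _ _ _ hp0, hpr C1 _ _ _ hp1, sev, E1_const, sym_valZ_nil, add_zero] at g0 g1
  rw [hone, hQ, hm, clP_snd] at g1
  rw [clP_fst] at g0
  have hs2 := sub_nonneg.2 hs1
  have hg : ∀ i, -ε ≤ (1 - s) * valM R (((clP L).map Prod.fst).getD i []) +
      s * valM R (((clP L).map Prod.snd).getD i []) := by
    intro i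
    rcases lt_or_ge i (clP L).length with h | h
    · rw [List.getD_eq_getElem _ _ (by simpa using h), List.getD_eq_getElem _ _ (by simpa using h)]
      simp only [List.getElem_map]
      exact hL _ (List.getElem_mem h)
    · rw [List.getD_eq_default _ _ (by simpa using h), List.getD_eq_default _ _ (by simpa using h)]
      simpa [sym_valM_nil] using hε
  have hb : ∀ i, |(1 - s) * valM R (((clP L).map Prod.fst).getD i []) +
      s * valM R (((clP L).map Prod.snd).getD i [])| ≤ B0 + B1 := by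
    intro i
    refine (abs_add_le _ _).trans (add_le_add ?_ ?_)
    · rw [abs_mul, abs_of_nonneg hs2]
      exact (mul_le_of_le_one_left (abs_nonneg _) (by linarith)).trans (b0 i V R)
    · rw [abs_mul, abs_of_nonneg hs0]
      exact (mul_le_of_le_one_left (abs_nonneg _) hs1).trans (b1 i V R)
  have g2 := E1_ge R fun y => k2 (R.ty y) (red2 (R.ty y) 11 0) (blue2 (R.ty y) 11 0)
    (db (R.dd y y) 16) _ ε hε (db_abs R y y 16) hg hb (rowZ1_ge R y y _ hε fun l hl => by
      obtain ⟨z, hz, rfl⟩ := List.mem_map.1 hl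
      rw [sev_zf_db]
      exact hZ z hz)
  simp only [add_mul, mul_assoc, List.sum_map_add, List.sum_map_mul_left, E1_add, E1_mul] at g2
  have a0 := mul_le_mul_of_nonneg_left g0 hs2
  have a1 := mul_le_mul_of_nonneg_left g1 hs0
  have c0 := mul_nonneg hs0 (mul_nonneg k0' hε)
  have c1 := mul_nonneg hs2 (mul_nonneg k1' hε)
  rw [div_mul_eq_mul_div, ← neg_div, div_le_iff₀ (by positivity)]
  unfold mix
  nlinarith

theorem valM_lin {V : Type} [Fintype V] (R : Rt V) (b c : List ℤ) (k d : ℤ)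
    (h : ∀ F < 11, c.getD F 0 = k * b.getD F 0 + d) : valM R c = k * valM R b + d := by
  have e : (d : ℝ) = ∑ y, R.S.x y * d := by rw [← sum_mul, R.S.x_sum, one_mul]
  rw [e]
  unfold valM
  rw [mul_sum, ← sum_add_distrib]
  refine sum_congr rfl fun y _ => ?_
  rw [h _ (Nat.lt_succ_of_le (ty_le R y))]
  push_cast
  ring

def dbl (l : List (List ℤ)) : List (List ℤ × List ℤ) := l.map fun b => (b, b)

def bA (d : ℤ) : List ℤ := [12000 + d, 12000 + d, -2000 + d, -2000 + d, -2000 + d, -2000 + d,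
  -2000 + d, -2000 + d, -2000 + d, -2000 + d, -2000 + d]
def bB (d : ℤ) : List ℤ := [-3000 + d, -3000 + d, 11000 + d, 11000 + d, -3000 + d, -3000 + d,
  -3000 + d, -3000 + d, -3000 + d, -3000 + d, -3000 + d]

end Pool.Agent.P.MP_c18ddb_co.R
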