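import Mathlib

/-! Packed integer vectors: `f.1` is the vector read in base `B`, `f.2` bounds its l1 norm. -/

namespace Pool.Agent.P.MP_c18ddb_co.R

open Finset

abbrev PF := ℤ × ℕ

def pz : PF := (0, 0)
def padd (f g : PF) : PF := (Int.add f.1 g.1, Nat.add f.2 g.2)
def psm (k : ℤ) (f : PF) : PF := (Int.mul k f.1, Nat.mul k.natAbs f.2)
def pmul (f g : PF) : PF := (Int.mul f.1 g.1, Nat.mul f.2 g.2)
def pu (B i : ℕ) : PF := (Int.ofNat (Nat.pow B i), 1)

/-- `f` packs an integer vector whose scalar product with `z` is `v` -/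
def Rep (B K : ℕ) (z : ℕ → ℝ) (f : PF) (v : ℝ) : Prop :=
  ∃ a : ℕ → ℤ, f.1 = ∑ i ∈ range K, a i * (B : ℤ) ^ i ∧ ∑ i ∈ range K, (a i).natAbs ≤ f.2 ∧
    v = ∑ i ∈ range K, (a i : ℝ) * z i

/-- balanced digits -/
def digs (B : ℕ) : ℕ → ℤ → List ℤ
  | 0, _ => []
  | k + 1, V => Int.sub (Int.emod (Int.add V (Int.ofNat (B / 2))) (Int.ofNat B)) (Int.ofNat (B / 2)) ::
      digs B k (Int.ediv (Int.add V (Int.ofNat (B / 2))) (Int.ofNat B))

/-- scalar product of a list with a sequence -/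
noncomputable def evL : List ℤ → (ℕ → ℝ) → ℝ
  | [], _ => 0
  | c :: l, z => c * z 0 + evL l (fun i => z (i + 1))

/-- sum of the negative entries -/
def negs : List ℤ → ℤ
  | [] => 0
  | Int.ofNat _ :: l => negs l
  | Int.negSucc n :: l => Int.add (Int.negSucc n) (negs l)

def low (U : ℤ) : List ℤ → ℤ
  | [] => 0
  | c :: l => Int.add c (Int.mul U (negs l))

def dot : List ℤ → List PF → PF
  | c :: l, u :: us => padd (psm c u) (dot l us)
  | _, _ => pz

noncomputable def rdot : List ℤ → List ℝ → ℝ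
  | c :: l, u :: us => c * u + rdot l us
  | _, _ => 0

def spk (u : ℕ → PF) : List (ℤ × ℕ) → PF
  | [] => pz
  | p :: l => padd (psm p.1 (u p.2)) (spk u l)

noncomputable def sev (d : ℕ → ℝ) : List (ℤ × ℕ) → ℝ
  | [] => 0
  | p :: l => p.1 * d p.2 + sev d l

def psum {α : Type} (f : α → PF) : List α → PF
  | [] => pz
  | a :: l => padd (f a) (psum f l)

/-- cut-off versions -/
def ub (u : ℕ → PF) (n k : ℕ) : PF := if k < n then u k else pz
noncomputable def db (d : ℕ → ℝ) (n k : ℕ) : ℝ := if k < n then d k else 0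

/-- unpacking of certificate data (no property is needed) -/
def unp (Q : ℕ) : ℕ → ℕ → List ℕ
  | 0, _ => []
  | f + 1, n => bif Nat.beq n 0 then [] else Nat.mod n Q :: unp Q f (Nat.div n Q)

def uns (Q : ℕ) (f n : ℕ) : List ℤ := (unp Q f n).map fun e => Int.subNatNat e (Nat.div Q 2)

theorem pk_sum {R : Type} [CommSemiring R] {K K' : ℕ} (g g' : ℕ → R) :
    ∑ i ∈ range (K * K'), g (i % K) * g' (i / K) =
      (∑ i ∈ range K, g i) * ∑ j ∈ range K', g' j := by
  induction K' with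
  | zero => simp
  | succ n ih =>
    rw [Nat.mul_succ, sum_range_add, ih, sum_range_succ, mul_add, sum_mul (range K) g (g' n)]
    congr 1
    refine sum_congr rfl fun i hi => ?_
    have hi' := mem_range.1 hi
    rw [Nat.mul_add_mod, Nat.mod_eq_of_lt hi', Nat.mul_add_div (by omega), Nat.div_eq_of_lt hi',
      add_zero]

theorem pk_digs (B K : ℕ) : ∀ (a : ℕ → ℤ) (z : ℕ → ℝ), (∀ i < K, 2 * (a i).natAbs < B) →
    ∑ i ∈ range K, (a i : ℝ) * z i = evL (digs B K (∑ i ∈ range K, a i * (B : ℤ) ^ i)) z := by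
  induction K with
  | zero => intro a z _; simp [digs, evL]
  | succ K ih =>
    intro a z h
    have h0 := h 0 (Nat.succ_pos K)
    have e : ∑ i ∈ range (K + 1), a i * (B : ℤ) ^ i + ((B / 2 : ℕ) : ℤ) =
        (a 0 + ((B / 2 : ℕ) : ℤ)) + (B : ℤ) * ∑ i ∈ range K, a (i + 1) * (B : ℤ) ^ i := by
      rw [sum_range_succ', mul_sum]
      have : ∀ i ∈ range K, a (i + 1) * (B : ℤ) ^ (i + 1) = B * (a (i + 1) * (B : ℤ) ^ i) :=
        fun i _ => by ring
      rw [sum_congr rfl this]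
      ring
    have l1 : 0 ≤ a 0 + ((B / 2 : ℕ) : ℤ) := by omega
    have l2 : a 0 + ((B / 2 : ℕ) : ℤ) < B := by omega
    have hB : (B : ℤ) ≠ 0 := by omega
    show _ = (((∑ i ∈ range (K + 1), a i * (B : ℤ) ^ i + ((B / 2 : ℕ) : ℤ)) % (B : ℤ) -
        ((B / 2 : ℕ) : ℤ) : ℤ) : ℝ) * z 0 +
      evL (digs B K ((∑ i ∈ range (K + 1), a i * (B : ℤ) ^ i + ((B / 2 : ℕ) : ℤ)) / (B : ℤ)))
        fun i => z (i + 1)
    rw [e, Int.add_mul_emod_self_left, Int.add_mul_ediv_left _ _ hB, Int.emod_eq_of_lt l1 l2,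
      Int.ediv_eq_zero_of_lt l1 l2, zero_add, add_sub_cancel_right,
      ← ih (fun i => a (i + 1)) (fun i => z (i + 1)) fun i hi => h (i + 1) (Nat.succ_lt_succ hi),
      sum_range_succ', add_comm]

theorem pk_negs (U : ℤ) (l : List ℤ) : ∀ z : ℕ → ℝ, (∀ i, 0 ≤ z i ∧ z i ≤ U) →
    (U : ℝ) * (negs l : ℝ) ≤ evL l z := by
  induction l with
  | nil => intro z _; simp [negs, evL]
  | cons c l ih =>
    intro z h
    have h1 := ih (fun i => z (i + 1)) fun i => h (i + 1)
    have h2 := h 0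
    cases c with
    | ofNat n =>
      show (U : ℝ) * (negs l : ℝ) ≤ ((n : ℤ) : ℝ) * z 0 + evL l fun i => z (i + 1)
      have : 0 ≤ ((n : ℤ) : ℝ) * z 0 := mul_nonneg (by positivity) h2.1
      linarith
    | negSucc n =>
      show (U : ℝ) * ((Int.negSucc n + negs l : ℤ) : ℝ) ≤
        ((Int.negSucc n : ℤ) : ℝ) * z 0 + evL l fun i => z (i + 1)
      have h3 : ((Int.negSucc n : ℤ) : ℝ) ≤ 0 := by exact_mod_cast (Int.negSucc_lt_zero n).le
      have h4 := mul_le_mul_of_nonpos_left h2.2 h3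
      rw [Int.cast_add]
      linarith

theorem pk_zip (l : List ℤ) : ∀ (n : ℕ) (z : ℕ → ℝ),
    evL l (fun i => z (n + i)) = sev z (l.zipIdx n) := by
  induction l with
  | nil => intro n z; rfl
  | cons c l ih =>
    intro n z
    rw [List.zipIdx_cons]
    simp only [evL, sev]
    rw [← ih (n + 1) z]
    simp only [add_zero, add_assoc, add_comm 1]

section
variable {B K : ℕ} {z : ℕ → ℝ}

theorem rep_pz : Rep B K z pz 0 := by
  exact ⟨fun _ => 0, by simp [pz], by simp [pz], by simp⟩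

theorem rep_add {f g : PF} {v w : ℝ} (hf : Rep B K z f v) (hg : Rep B K z g w) :
    Rep B K z (padd f g) (v + w) := by
  obtain ⟨a, h1, h2, h3⟩ := hf
  obtain ⟨a', h1', h2', h3'⟩ := hg
  refine ⟨fun i => a i + a' i, ?_, ?_, ?_⟩
  · show f.1 + g.1 = _
    rw [h1, h1', ← sum_add_distrib]
    exact sum_congr rfl fun i _ => by ring
  · show _ ≤ f.2 + g.2
    refine le_trans (sum_le_sum fun i _ => Int.natAbs_add_le (a i) (a' i)) ?_
    rw [sum_add_distrib]
    exact Nat.add_le_add h2 h2'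
  · rw [h3, h3', ← sum_add_distrib]
    exact sum_congr rfl fun i _ => by push_cast; ring

theorem rep_sm (k : ℤ) {f : PF} {v : ℝ} (hf : Rep B K z f v) : Rep B K z (psm k f) (k * v) := by
  obtain ⟨a, h1, h2, h3⟩ := hf
  refine ⟨fun i => k * a i, ?_, ?_, ?_⟩
  · show k * f.1 = _
    rw [h1, mul_sum]
    exact sum_congr rfl fun i _ => by ring
  · show _ ≤ k.natAbs * f.2
    simp only [Int.natAbs_mul]
    rw [← mul_sum]
    exact Nat.mul_le_mul_left _ h2
  · rw [h3, mul_sum]
    exact sum_congr rfl fun i _ => by push_cast; ring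

theorem rep_pu {i : ℕ} (hi : i < K) : Rep B K z (pu B i) (z i) := by
  refine ⟨fun j => if j = i then 1 else 0, ?_, ?_, ?_⟩
  · show ((B ^ i : ℕ) : ℤ) = _
    simp [hi]
  · show _ ≤ 1
    have : ∀ j, (if j = i then (1 : ℤ) else 0).natAbs = if j = i then 1 else 0 := by
      intro j; split_ifs <;> rfl
    simp [this, hi]
  · simp [hi]

theorem rep_mul {K' : ℕ} {z' : ℕ → ℝ} {f g : PF} {v w : ℝ} (hf : Rep B K z f v)
    (hg : Rep (B ^ K) K' z' g w) :
    Rep B (K * K') (fun i => z (i % K) * z' (i / K)) (pmul f g) (v * w) := by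
  obtain ⟨a, h1, h2, h3⟩ := hf
  obtain ⟨a', h1', h2', h3'⟩ := hg
  refine ⟨fun i => a (i % K) * a' (i / K), ?_, ?_, ?_⟩
  · show f.1 * g.1 = _
    have e : ∀ i, a (i % K) * a' (i / K) * (B : ℤ) ^ i =
        (a (i % K) * (B : ℤ) ^ (i % K)) * (a' (i / K) * ((B ^ K : ℕ) : ℤ) ^ (i / K)) := by
      intro i
      have : (B : ℤ) ^ i = (B : ℤ) ^ (i % K) * ((B : ℤ) ^ K) ^ (i / K) := by
        rw [← pow_mul, ← pow_add, Nat.mod_add_div]
      rw [this]
      push_cast
      ring
    simp only [e]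
    rw [h1, h1', pk_sum (fun i => a i * (B : ℤ) ^ i) (fun j => a' j * ((B ^ K : ℕ) : ℤ) ^ j)]
  · show _ ≤ f.2 * g.2
    simp only [Int.natAbs_mul]
    rw [pk_sum (fun i => (a i).natAbs) (fun j => (a' j).natAbs)]
    exact Nat.mul_le_mul h2 h2'
  · have e : ∀ i, ((a (i % K) * a' (i / K) : ℤ) : ℝ) * (z (i % K) * z' (i / K)) =
        ((a (i % K) : ℝ) * z (i % K)) * ((a' (i / K) : ℝ) * z' (i / K)) := by
      intro i
      push_cast
      ring
    simp only [e]
    rw [h3, h3', pk_sum (fun i => (a i : ℝ) * z i) (fun j => (a' j : ℝ) * z' j)]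

theorem rep_digs {f : PF} {v : ℝ} (hf : Rep B K z f v) (hs : 2 * f.2 < B) :
    v = evL (digs B K f.1) z := by
  obtain ⟨a, h1, h2, h3⟩ := hf
  rw [h1, h3]
  exact pk_digs B K a z fun i hi =>
    lt_of_le_of_lt (Nat.mul_le_mul_left 2 (le_trans
      (single_le_sum (f := fun i => (a i).natAbs) (fun _ _ => Nat.zero_le _) (mem_range.2 hi)) h2))
      hs

theorem low_le (U : ℤ) (l : List ℤ) (h0 : z 0 = 1) (h : ∀ i, 0 ≤ z i ∧ z i ≤ U) :
    (low U l : ℝ) ≤ evL l z := by
  cases l with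
  | nil => simp [low, evL]
  | cons c l =>
    have := pk_negs U l (fun i => z (i + 1)) fun i => h (i + 1)
    show ((c + U * negs l : ℤ) : ℝ) ≤ c * z 0 + evL l fun i => z (i + 1)
    rw [h0]
    push_cast
    linarith

theorem evL_zipIdx (l : List ℤ) : evL l z = sev z l.zipIdx := by
  simpa using pk_zip l 0 z

theorem rep_dot (l : List ℤ) {us : List PF} {ds : List ℝ} (h : List.Forall₂ (Rep B K z) us ds) :
    Rep B K z (dot l us) (rdot l ds) := by
  induction h generalizing l with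
  | nil => cases l <;> exact rep_pz
  | cons h1 _ ih =>
    cases l with
    | nil => exact rep_pz
    | cons c l => exact rep_add (rep_sm c h1) (ih l)

theorem rep_spk {u : ℕ → PF} {d : ℕ → ℝ} (h : ∀ k, Rep B K z (u k) (d k)) (l : List (ℤ × ℕ)) :
    Rep B K z (spk u l) (sev d l) := by
  induction l with
  | nil => exact rep_pz
  | cons p l ih => exact rep_add (rep_sm p.1 (h p.2)) ih

theorem rep_psum {α : Type} {f : α → PF} {g : α → ℝ} (l : List α)
    (h : ∀ a ∈ l, Rep B K z (f a) (g a)) : Rep B K z (psum f l) (l.map g).sum := by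
  induction l with
  | nil => exact rep_pz
  | cons a l ih =>
    rw [List.map_cons, List.sum_cons]
    exact rep_add (h a List.mem_cons_self) (ih fun b hb => h b (List.mem_cons_of_mem a hb))

theorem rep_ub {u : ℕ → PF} {d : ℕ → ℝ} (n : ℕ) (h : ∀ k < n, Rep B K z (u k) (d k)) (k : ℕ) :
    Rep B K z (ub u n k) (db d n k) := by
  unfold ub db
  split_ifs with hk
  · exact h k hk
  · exact rep_pz

end

theorem sev_append (d : ℕ → ℝ) (l l' : List (ℤ × ℕ)) : sev d (l ++ l') = sev d l + sev d l' := by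
  induction l with
  | nil => simp [sev]
  | cons p l ih => simp only [List.cons_append, sev, ih, add_assoc]

theorem sev_congr {d d' : ℕ → ℝ} (l : List (ℤ × ℕ)) (h : ∀ p ∈ l, d p.2 = d' p.2) :
    sev d l = sev d' l := by
  induction l with
  | nil => rfl
  | cons p l ih =>
    simp only [sev]
    rw [h p List.mem_cons_self, ih fun q hq => h q (List.mem_cons_of_mem p hq)]

theorem sev_filter (d : ℕ → ℝ) (l : List (ℤ × ℕ)) :
    sev d (l.filter fun p => p.1 != 0) = sev d l := by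
  induction l with
  | nil => rfl
  | cons p l ih =>
    by_cases hp : p.1 = 0
    · simp [hp, sev, ih]
    · simp [hp, sev, ih]

theorem unp_length (Q f n : ℕ) : (unp Q f n).length ≤ f := by
  induction f generalizing n with
  | zero => simp [unp]
  | succ f ih =>
    unfold unp
    cases Nat.beq n 0
    · simpa using ih _
    · simp

end Pool.Agent.P.MP_c18ddb_co.R
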