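import Pool.Agent.P.MP_c18ddb_co.R.Chain
import Pool.Agent.P.MP_c18ddb_co.R.Stage1
import Pool.Agent.P.MP_c18ddb_co.R.Cls

/-! Stability of nearly regular covers. -/

namespace Pool.Agent.P.MP_c18ddb_co.R

open Finset Filter Topology

theorem ulim (U : Ultrafilter ℕ) (f : ℕ → ℝ) (B : ℝ) (h : ∀ n, |f n| ≤ B) :
    ∃ a, Tendsto f U (𝓝 a) := by
  obtain ⟨a, -, ha⟩ := (isCompact_Icc (a := -B) (b := B)).ultrafilter_le_nhds (U.map f)
    (le_principal_iff.2 (mem_map.2 (Eventually.of_forall fun n => abs_le.1 (h n))))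
  exact ⟨a, ha⟩

theorem rc_root (V : Type) [Fintype V] [Nonempty V] (c : V → V → Bool) (D : V → V → ℝ)
    (hC : X.Cov c D) (h3 : ∀ u v, D u v ≤ 3) (δ : ℝ)
    (hd : ∀ v, |∑ y, D v y - 3 / 7 * Fintype.card V| ≤ δ * Fintype.card V) :
    ∃ S : WS V (3 / 7), (∀ v, S.x v = (Fintype.card V : ℝ)⁻¹) ∧ S.c = c ∧ S.err = δ := by
  have hn : (0 : ℝ) < Fintype.card V := by exact_mod_cast Fintype.card_pos
  refine ⟨⟨fun _ => (Fintype.card V : ℝ)⁻¹, c, D, δ, fun _ => by positivity, ?_, hC.c_symm,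
    hC.D_symm, hC.D_nonneg, h3, hC.k3, hC.k4, hC.k5, fun v => ?_⟩, fun _ => rfl, rfl, rfl⟩
  · rw [sum_const, card_univ, nsmul_eq_mul, mul_inv_cancel₀ hn.ne']
  · have e : ∑ y, (Fintype.card V : ℝ)⁻¹ * D v y - 3 / 7 =
        (∑ y, D v y - 3 / 7 * Fintype.card V) / Fintype.card V := by
      rw [← mul_sum]
      field_simp
    rw [e, abs_div, abs_of_pos hn, div_le_iff₀ hn]
    exact hd v

theorem rc : X.RC := by
  classical
  intro ε hε
  by_contra hn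
  push Not at hn
  obtain ⟨δ0, hδ0, h1⟩ := stage1
  obtain ⟨K, hK⟩ := stepA
  have ex : ∀ n : ℕ, ∃ (V : Type) (_ : Fintype V) (R : Rt V),
      (∀ v, R.S.x v = (Fintype.card V : ℝ)⁻¹) ∧ R.S.err ≤ 1 / ((n : ℝ) + 1) ∧ R.eta ≤ 6 / 5 ∧
        GM R [-1, -1, 1, 1, 0, 0, 0, 0, 0, 0, 0] ∧ ¬ X.Close ε R.S.c := by
    intro n
    obtain ⟨V, i1, i2, c, D, hC, h3, hd, hcl⟩ := hn (min δ0 (1 / ((n : ℝ) + 1))) (by positivity)
    obtain ⟨S, s1, s2, s3⟩ := rc_root V c D hC h3 _ hd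
    obtain ⟨R, r1, r2, r3⟩ := exists_root S (6 / 5) (h1 V S (s3.le.trans (min_le_left _ _)))
    subst r1
    exact ⟨V, i1, R, s1, s3.le.trans (min_le_right _ _), r2, r3, s2 ▸ hcl⟩
  choose V inst R hx he ht hq hcl using ex
  have hM : ∀ b, ∃ a, Tendsto (fun n => valM (R n) b) (hyperfilter ℕ) (𝓝 a) := by
    intro b
    obtain ⟨B, -, hB⟩ := E1_bd fun k => ((b.getD k 0 : ℤ) : ℝ)
    exact ulim _ _ B fun n => hB _ (R n)
  have hZ : ∀ z, ∃ a, Tendsto (fun n => valZ (R n) z) (hyperfilter ℕ) (𝓝 a) := by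
    intro z
    obtain ⟨B, -, hB⟩ := sev_bd (zf z)
    exact ulim _ _ B fun n => hB _ (dd_abs _ _ _)
  choose vM hM using hM
  choose vZ hZ using hZ
  have herr : Tendsto (fun n => (R n).S.err) (hyperfilter ℕ) (𝓝 0) :=
    (squeeze_zero (fun n => err_nonneg (R n)) he tendsto_one_div_add_atTop_nhds_zero_nat).mono_left
      (hyperfilter_le_cofinite.trans Nat.cofinite_eq_atTop.le)
  let A : LR := ⟨hyperfilter ℕ, inferInstance, V, inst, R, herr, vM, vZ, hM, hZ⟩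
  obtain ⟨c1, c2, c3, c4⟩ := L.chain A (fun a ha => ge_of_tendsto' (hM a) fun n => hq n a ha)
    (le_of_tendsto' (L.eta_lim A) ht)
  have c5 : ∀ b ∈ cl actM LA, 0 ≤ vM b := sym_allP (v := vM) LA ⟨c2, c3, c4, trivial⟩
  set δ : ℝ := min (ε / 1000) (1 / 100) with hδ
  have d0 : 0 < δ := by positivity
  set W : ℝ := 2 * 7402752001 + |K| with hW
  have w1 : 1 ≤ W := by linarith [abs_nonneg K]
  have e0 : 0 < δ / W := by positivity
  have e1 : δ / W ≤ δ := div_le_self d0.le w1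
  obtain ⟨n, n1, n2, n3⟩ := ((L.err_ev A e0).and ((lim_all hM _ c5 e0).and
    ((L.eta_lim A).eventually (gt_mem_nhds (c1.trans_lt e0))))).exists
  have n1' : (R n).S.err ≤ δ / W := n1
  have n3' : (R n).eta < δ / W := n3
  have g := hK _ (R n) _ e0.le n1' n2 fun z hz => absurd hz List.not_mem_nil
  rw [sym_valM_nil, valZ_eta] at g
  refine hcl n ((close_of_bad (R n) (hx n) d0.le (min_le_right _ _) (n1'.trans e1)
    (n3'.le.trans e1) (fun b hb => (neg_le_neg e1).trans (n2 b hb)) (g.trans ?_)).mono ?_)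
  · have e2 : W * (δ / W) = δ := by field_simp
    have e3 := mul_le_mul_of_nonneg_right (le_abs_self K) e0.le
    push_cast
    rw [hW, add_mul] at e2
    rw [← hW] at e2
    linarith
  · linarith [min_le_left (ε / 1000) (1 / 100)]

end Pool.Agent.P.MP_c18ddb_co.R
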