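import Pool.Agent.P.MP_c18ddb_co.R.Root
import Pool.Agent.P.MP_c18ddb_co.R.Pn

/-! Valid linear forms, tested through bit masks of the known colours. -/

namespace Pool.Agent.P.MP_c18ddb_co.R

open Finset

def bm (l : List (ℤ × ℕ)) : ℕ := l.foldr (fun p a => 2 ^ p.2 ||| a) 0

def rowLK (m : ℤ) (px : List (ℤ × ℕ)) (ex : List (List (ℤ × ℕ))) (x a b d e f : ℕ) :
    ℕ → List (ℤ × ℕ)
  | 0 => [(1, 0)]
  | 1 => [(1, x)]
  | 2 => [(3, 0), (-1, x)]
  | 3 => (-2, 0) :: e3 1 a b d
  | 4 => (-5, 0) :: e4 1 a b d e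
  | 5 => px ++ e5 m a b d e f
  | 6 => (-9, 0) :: e5 1 a b d e f
  | _ => ex.getD x []

/-- the form with number `code` -/
def rowL (m : ℤ) (px : List (ℤ × ℕ)) (ex : List (List (ℤ × ℕ))) (code : ℕ) : List (ℤ × ℕ) :=
  rowLK m px ex (code / 8) (code / 8 % 8) (code / 64 % 8) (code / 512 % 8) (code / 4096 % 8)
    (code / 32768 % 8) (code % 8)

def exM (x : ℕ) : ℕ := if x = 0 then 2 ^ 30 else if x = 1 then 2 ^ 31 else 0

def cm (l : List ℕ) (s M : ℕ) : ℕ × ℕ :=
  if l.Nodup then (if s = 1 then (M, 0) else (0, M)) else (2 ^ 40, 0)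

def rowMK (s x a b d e f : ℕ) : ℕ → ℕ × ℕ
  | 0 => (0, 0)
  | 1 => (0, 0)
  | 2 => (0, 0)
  | 3 => cm [a, b, d] s (bm (e3 1 a b d))
  | 4 => cm [a, b, d, e] s (bm (e4 1 a b d e))
  | 5 => if [a, b, d, e, f].Nodup then
      (bm [(1, slot a b), (1, slot b d), (1, slot d e), (1, slot a f), (1, slot e f)],
        bm [(1, slot a d), (1, slot a e), (1, slot b e), (1, slot b f), (1, slot d f)])
      else (2 ^ 40, 0)
  | 6 => cm [a, b, d, e, f] s (bm (e5 1 a b d e f))
  | _ => (exM x, 0)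

/-- pairs that have to be red, pairs that have to be blue -/
def rowM (code : ℕ) : ℕ × ℕ :=
  rowMK (code / 262144) (code / 8) (code / 8 % 8) (code / 64 % 8) (code / 512 % 8)
    (code / 4096 % 8) (code / 32768 % 8) (code % 8)

def okM (red blue : ℕ) (M : ℕ × ℕ) : Bool :=
  Nat.beq (Nat.land M.1 red) M.1 && Nat.beq (Nat.land M.2 blue) M.2

theorem rn_land {M red k : ℕ} (h : Nat.land M red = M) (hk : M.testBit k = true) :
    red.testBit k = true := by
  have e : (M &&& red).testBit k = M.testBit k := congrArg (fun n => Nat.testBit n k) h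
  rw [Nat.testBit_and, hk, Bool.true_and] at e
  exact e

theorem rn_bm {l : List (ℤ × ℕ)} {m : ℤ} {k : ℕ} (h : (m, k) ∈ l) : (bm l).testBit k = true := by
  induction l with
  | nil => exact absurd h List.not_mem_nil
  | cons q l ih =>
    have e : bm (q :: l) = 2 ^ q.2 ||| bm l := rfl
    rw [e, Nat.testBit_or, Bool.or_eq_true]
    rcases List.mem_cons.1 h with rfl | h
    · exact Or.inl (Nat.testBit_two_pow_self)
    · exact Or.inr (ih h)

theorem rn_ok {red blue : ℕ} {M : ℕ × ℕ} (h : okM red blue M = true) :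
    Nat.land M.1 red = M.1 ∧ Nat.land M.2 blue = M.2 := by
  simpa only [okM, Bool.and_eq_true, Nat.beq_eq] using h

theorem rn_40 {red blue : ℕ} (h40 : red.testBit 40 = false) :
    ¬ okM red blue (2 ^ 40, 0) = true := fun h => by
  have := rn_land (rn_ok h).1 (k := 40) Nat.testBit_two_pow_self
  rw [h40] at this
  exact Bool.false_ne_true this

theorem rn_cm {red blue s M : ℕ} {l : List ℕ} (h40 : red.testBit 40 = false)
    {P : Bool → ℕ → ℕ → Prop}
    (hr : ∀ i < 8, ∀ j < 8, i ≠ j → red.testBit (slot i j) = true → P true i j)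
    (hb : ∀ i < 8, ∀ j < 8, i ≠ j → blue.testBit (slot i j) = true → P false i j)
    (h : okM red blue (cm l s M) = true) :
    l.Nodup ∧ ∃ u, ∀ i < 8, ∀ j < 8, i ≠ j → M.testBit (slot i j) = true → P u i j := by
  unfold cm at h
  split_ifs at h with h1 h2
  · exact ⟨h1, true, fun i hi j hj hij hM => hr i hi j hj hij (rn_land (rn_ok h).1 hM)⟩
  · exact ⟨h1, false, fun i hi j hj hij hM => hb i hi j hj hij (rn_land (rn_ok h).2 hM)⟩
  · exact absurd h (rn_40 h40)

theorem rowL_nonneg {V : Type} [Fintype V] {lam : ℝ} (S : WS V lam) (p : ℕ → V) (d : ℕ → ℝ)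
    (red blue : ℕ) (m : ℤ) (px : List (ℤ × ℕ)) (ex : List (List (ℤ × ℕ)))
    (h0 : d 0 = 1) (hd : ∀ k, 0 ≤ d k ∧ d k ≤ 3) (h40 : red.testBit 40 = false)
    (hr : ∀ i < 8, ∀ j < 8, i ≠ j → red.testBit (slot i j) = true →
      S.c (p i) (p j) = true ∧ d (slot i j) = S.D (p i) (p j))
    (hb : ∀ i < 8, ∀ j < 8, i ≠ j → blue.testBit (slot i j) = true →
      S.c (p i) (p j) = false ∧ d (slot i j) = S.D (p i) (p j))
    (hp : ∀ a b c e f, Pent S a b c e f → 0 ≤ sev d px + m * tot S a b c e f)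
    (hex : ∀ x, Nat.land (exM x) red = exM x → 0 ≤ sev d (ex.getD x [])) (code : ℕ)
    (hok : okM red blue (rowM code) = true) : 0 ≤ sev d (rowL m px ex code) := by
  unfold rowL
  unfold rowM at hok
  have ha : code / 8 % 8 < 8 := Nat.mod_lt _ (by norm_num)
  have hb' : code / 64 % 8 < 8 := Nat.mod_lt _ (by norm_num)
  have hc : code / 512 % 8 < 8 := Nat.mod_lt _ (by norm_num)
  have he : code / 4096 % 8 < 8 := Nat.mod_lt _ (by norm_num)
  have hf : code / 32768 % 8 < 8 := Nat.mod_lt _ (by norm_num)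
  generalize code / 8 % 8 = a at *
  generalize code / 64 % 8 = b at *
  generalize code / 512 % 8 = c at *
  generalize code / 4096 % 8 = e at *
  generalize code / 32768 % 8 = f at *
  generalize code / 8 = x at *
  generalize code / 262144 = s at *
  generalize code % 8 = k at *
  match k with
  | 0 => simp [rowLK, sev, h0]
  | 1 => simpa [rowLK, sev] using (hd x).1
  | 2 =>
    simp only [rowLK, sev, h0]
    push_cast
    linarith [(hd x).2]
  | 3 =>
    obtain ⟨hn, u, hu⟩ := rn_cm (P := fun u i j => S.c (p i) (p j) = u ∧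
      d (slot i j) = S.D (p i) (p j)) h40 hr hb hok
    simp only [List.nodup_cons, List.mem_cons, List.not_mem_nil, not_or] at hn
    have k1 := hu a ha b hb' (by omega) (rn_bm (m := 1) (by simp [e3]))
    have k2 := hu a ha c hc (by omega) (rn_bm (m := 1) (by simp [e3]))
    have k3 := hu b hb' c hc (by omega) (rn_bm (m := 1) (by simp [e3]))
    have := S.k3 _ _ _ _ k1.1 k2.1 k3.1
    simp only [rowLK, e3, sev, h0, k1.2, k2.2, k3.2]
    push_cast
    linarith
  | 4 =>
    obtain ⟨hn, u, hu⟩ := rn_cm (P := fun u i j => S.c (p i) (p j) = u ∧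
      d (slot i j) = S.D (p i) (p j)) h40 hr hb hok
    simp only [List.nodup_cons, List.mem_cons, List.not_mem_nil, not_or] at hn
    have k1 := hu a ha b hb' (by omega) (rn_bm (m := 1) (by simp [e4, e3]))
    have k2 := hu a ha c hc (by omega) (rn_bm (m := 1) (by simp [e4, e3]))
    have k3 := hu b hb' c hc (by omega) (rn_bm (m := 1) (by simp [e4, e3]))
    have k4 := hu a ha e he (by omega) (rn_bm (m := 1) (by simp [e4, e3]))
    have k5 := hu b hb' e he (by omega) (rn_bm (m := 1) (by simp [e4, e3]))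
    have k6 := hu c hc e he (by omega) (rn_bm (m := 1) (by simp [e4, e3]))
    have := S.k4 _ _ _ _ _ k1.1 k2.1 k3.1 k4.1 k5.1 k6.1
    simp only [rowLK, e4, e3, sev, h0, k1.2, k2.2, k3.2, k4.2, k5.2, k6.2]
    push_cast
    linarith
  | 5 =>
    simp only [rowMK] at hok
    split_ifs at hok with hn
    swap
    · exact absurd hok (rn_40 h40)
    obtain ⟨h1, h2⟩ := rn_ok hok
    simp only [List.nodup_cons, List.mem_cons, List.not_mem_nil, not_or] at hn
    have k1 := hr a ha b hb' (by omega) (rn_land h1 (rn_bm (m := 1) (by simp)))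
    have k2 := hb a ha c hc (by omega) (rn_land h2 (rn_bm (m := 1) (by simp)))
    have k3 := hr b hb' c hc (by omega) (rn_land h1 (rn_bm (m := 1) (by simp)))
    have k4 := hb a ha e he (by omega) (rn_land h2 (rn_bm (m := 1) (by simp)))
    have k5 := hb b hb' e he (by omega) (rn_land h2 (rn_bm (m := 1) (by simp)))
    have k6 := hr c hc e he (by omega) (rn_land h1 (rn_bm (m := 1) (by simp)))
    have k7 := hr a ha f hf (by omega) (rn_land h1 (rn_bm (m := 1) (by simp)))
    have k8 := hb b hb' f hf (by omega) (rn_land h2 (rn_bm (m := 1) (by simp)))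
    have k9 := hb c hc f hf (by omega) (rn_land h2 (rn_bm (m := 1) (by simp)))
    have k10 := hr e he f hf (by omega) (rn_land h1 (rn_bm (m := 1) (by simp)))
    have := hp (p a) (p b) (p c) (p e) (p f)
      ⟨k1.1, k2.1, k3.1, k4.1, k5.1, k6.1, k7.1, k8.1, k9.1, k10.1⟩
    simp only [rowLK, sev_append, e5, e4, e3, sev, k1.2, k2.2, k3.2, k4.2, k5.2, k6.2, k7.2,
      k8.2, k9.2, k10.2]
    simp only [tot] at this
    linarith
  | 6 =>
    obtain ⟨hn, u, hu⟩ := rn_cm (P := fun u i j => S.c (p i) (p j) = u ∧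
      d (slot i j) = S.D (p i) (p j)) h40 hr hb hok
    simp only [List.nodup_cons, List.mem_cons, List.not_mem_nil, not_or] at hn
    have k1 := hu a ha b hb' (by omega) (rn_bm (m := 1) (by simp [e5, e4, e3]))
    have k2 := hu a ha c hc (by omega) (rn_bm (m := 1) (by simp [e5, e4, e3]))
    have k3 := hu b hb' c hc (by omega) (rn_bm (m := 1) (by simp [e5, e4, e3]))
    have k4 := hu a ha e he (by omega) (rn_bm (m := 1) (by simp [e5, e4, e3]))
    have k5 := hu b hb' e he (by omega) (rn_bm (m := 1) (by simp [e5, e4, e3]))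
    have k6 := hu c hc e he (by omega) (rn_bm (m := 1) (by simp [e5, e4, e3]))
    have k7 := hu a ha f hf (by omega) (rn_bm (m := 1) (by simp [e5, e4, e3]))
    have k8 := hu b hb' f hf (by omega) (rn_bm (m := 1) (by simp [e5, e4, e3]))
    have k9 := hu c hc f hf (by omega) (rn_bm (m := 1) (by simp [e5, e4, e3]))
    have k10 := hu e he f hf (by omega) (rn_bm (m := 1) (by simp [e5, e4, e3]))
    have := S.k5 _ _ _ _ _ _ k1.1 k2.1 k3.1 k4.1 k5.1 k6.1 k7.1 k8.1 k9.1 k10.1
    simp only [rowLK, e5, e4, e3, sev, h0, k1.2, k2.2, k3.2, k4.2, k5.2, k6.2, k7.2,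
      k8.2, k9.2, k10.2]
    push_cast
    linarith
  | n + 7 => exact hex x (rn_ok hok).1

/-- nonnegative combination of forms; an entry is `code + 2^19 * multiplier` -/
noncomputable def cmb (Q red blue : ℕ) (pk : ℕ → ℕ) (n : ℕ) : ℕ :=
  ploop Q (fun e => fN (Nat.mod e 524288) fun c =>
    bif okM red blue (rowM c) then Nat.mul (Nat.div e 524288) (pk c) else 0) 200 n

noncomputable def cmbR (Q red blue : ℕ) (val : ℕ → ℝ) (n : ℕ) : ℝ :=
  ((unp Q 200 n).map fun e => bif okM red blue (rowM (e % 524288)) then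
    ((e / 524288 : ℕ) : ℝ) * val (e % 524288) else 0).sum

theorem repN_cmb {B K : ℕ} {z : ℕ → ℝ} {pk : ℕ → ℕ} {val : ℕ → ℝ}
    (h : ∀ c, RepN B K z (pk c) (val c)) (Q red blue n : ℕ) :
    RepN B K z (cmb Q red blue pk n) (cmbR Q red blue val n) := by
  refine repN_ploop Q 200 n fun e => ?_
  rw [fN_eq]
  show RepN B K z (bif okM red blue (rowM (e % 524288)) then
    Nat.mul (e / 524288) (pk (e % 524288)) else 0) _
  cases okM red blue (rowM (e % 524288))
  · exact repN_zero
  · exact repN_sm _ (h _)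

theorem cmbR_nonneg {red blue : ℕ} {val : ℕ → ℝ} (Q : ℕ)
    (h : ∀ c, okM red blue (rowM c) = true → 0 ≤ val c) (n : ℕ) : 0 ≤ cmbR Q red blue val n := by
  refine List.sum_nonneg fun v hv => ?_
  obtain ⟨e, -, rfl⟩ := List.mem_map.1 hv
  cases hc : okM red blue (rowM (e % 524288))
  · exact le_rfl
  · exact mul_nonneg (Nat.cast_nonneg _) (h _ hc)

def rT (F : ℕ) : ℕ := [18, 19, 5, 7, 10, 14, 20, 28, 9, 25].getD F 0
def bT (F : ℕ) : ℕ := [13, 12, 26, 24, 21, 17, 11, 3, 22, 6].getD F 0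

/-- known red pairs; `G = 11` (with `c = 0`) means that the last point is not known -/
def red2 (F G c : ℕ) : ℕ :=
  1226 + rT F * 2 ^ 11 + rT G * 2 ^ 16 + c * 2 ^ 21 + (if F = 10 then 2 ^ 30 else 0) +
    (if G = 10 then 2 ^ 31 else 0)
def blue2 (F G c : ℕ) : ℕ :=
  820 + bT F * 2 ^ 11 + bT G * 2 ^ 16 + (if G < 11 then (1 - c) * 2 ^ 21 else 0)

def rowZ (Zs : List (List (ℤ × ℕ))) (code : ℕ) : List (ℤ × ℕ) :=
  rowL 1 px2 (wrow 11 :: wrow 16 :: Zs) code

section
variable {V : Type} [Fintype V]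

def rnB (F G c : ℕ) : Bool :=
  (!(red2 F G c).testBit 40 && (!(red2 F G c).testBit 30 || F == 10) &&
    (!(red2 F G c).testBit 31 || G == 10)) &&
  (List.range 8).all fun i => (List.range 8).all fun j => i == j ||
    ((!(red2 F G c).testBit (slot i j) || col2 F G c i j == 1) &&
      (!(blue2 F G c).testBit (slot i j) || col2 F G c i j == 0))

theorem rn_fin0 : ∀ F < 11, ∀ G < 12, ∀ c < 2, (G < 11 ∨ c = 0) → rnB F G c = true := by
  decide +kernel

theorem rn_fin : ∀ F < 11, ∀ G < 12, ∀ c < 2, (G < 11 ∨ c = 0) →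
    ((red2 F G c).testBit 40 = false ∧ ((red2 F G c).testBit 30 = true → F = 10) ∧
      ((red2 F G c).testBit 31 = true → G = 10)) ∧ ∀ i < 8, ∀ j < 8, i ≠ j →
      ((red2 F G c).testBit (slot i j) = true → col2 F G c i j = 1) ∧
      ((blue2 F G c).testBit (slot i j) = true → col2 F G c i j = 0) := by
  intro F hF G hG c hc h
  have h0 := rn_fin0 F hF G hG c hc h
  simp only [rnB, Bool.and_eq_true, Bool.or_eq_true, Bool.not_eq_true', beq_iff_eq,
    List.all_eq_true, List.mem_range] at h0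
  obtain ⟨⟨⟨h1, h2⟩, h3⟩, h4⟩ := h0
  refine ⟨⟨h1, fun e => h2.resolve_left (by simp [e]), fun e => h3.resolve_left (by simp [e])⟩,
    fun i hi j hj hij => ?_⟩
  obtain ⟨h5, h6⟩ := (h4 i hi j hj).resolve_left hij
  exact ⟨fun e => h5.resolve_left (by simp [e]), fun e => h6.resolve_left (by simp [e])⟩

theorem rn_root (R : Rt V) (y y' : V) (G c : ℕ) (hG12 : G < 12) (hc2 : c < 2)
    (hGc : G < 11 ∨ c = 0) (d : ℕ → ℝ) (hb : ∀ k, 0 ≤ d k ∧ d k ≤ 3)
    (hd : ∀ k < 16, d k = R.dd y y' k)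
    (hG : G < 11 → G = R.ty y' ∧ c = R.cn y y' ∧ ∀ k, d k = R.dd y y' k)
    (Zs : List (List (ℤ × ℕ))) (hZ : ∀ l ∈ Zs, 0 ≤ sev d l) (code : ℕ)
    (hok : okM (red2 (R.ty y) G c) (blue2 (R.ty y) G c) (rowM code) = true) :
    0 ≤ sev d (rowZ Zs code) := by
  obtain ⟨⟨f40, f30, f31⟩, fc⟩ := rn_fin (R.ty y) (Nat.lt_succ_of_le (ty_le R y)) G hG12 c hc2 hGc
  have h0 : d 0 = 1 := hd 0 (by decide)
  have he : d 1 + d 2 + d 3 + d 4 + d 5 + d 6 + d 7 + d 8 + d 9 + d 10 = R.eta := by
    rw [hd 1 (by decide), hd 2 (by decide), hd 3 (by decide), hd 4 (by decide), hd 5 (by decide),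
      hd 6 (by decide), hd 7 (by decide), hd 8 (by decide), hd 9 (by decide), hd 10 (by decide)]
    rfl
  have hw : ∀ o, sev d (wrow o) =
      R.eta + (d o + d (o + 1) + d (o + 2) + d (o + 3) + d (o + 4)) - 4 := by
    intro o
    simp only [wrow, sev, h0, ← he]
    push_cast
    ring
  refine rowL_nonneg R.S (R.pt y y') d _ _ 1 px2 _ h0 hb f40 ?_ ?_ ?_ ?_ code hok
  · intro i hi j hj hij h
    have e := (fc i hi j hj hij).1 h
    have := root_col2 R y y' G c d hd hG i j e.le
    rwa [e] at this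
  · intro i hi j hj hij h
    have e := (fc i hi j hj hij).2 h
    have := root_col2 R y y' G c d hd hG i j (e.le.trans zero_le_one)
    rwa [e] at this
  · intro a b c e f hp
    have h1 := R.hmin a b c e f hp
    have h2 : sev d px2 = -R.eta := by
      simp only [px2, sev, ← he]
      push_cast
      ring
    rw [h2]
    unfold Rt.eta
    push_cast
    linarith
  · intro x hx
    match x with
    | 0 =>
      have := root_w R y (f30 (rn_land hx (k := 30) Nat.testBit_two_pow_self))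
      show 0 ≤ sev d (wrow 11)
      rw [hw, hd 11 (by decide), hd (11 + 1) (by decide), hd (11 + 2) (by decide),
        hd (11 + 3) (by decide), hd (11 + 4) (by decide)]
      exact sub_nonneg.2 this
    | 1 =>
      have hF := f31 (rn_land hx (k := 31) Nat.testBit_two_pow_self)
      obtain ⟨hg, -, hd'⟩ := hG (by omega)
      have := root_w R y' (hg ▸ hF)
      show 0 ≤ sev d (wrow 16)
      rw [hw, hd' 16, hd' (16 + 1), hd' (16 + 2), hd' (16 + 3), hd' (16 + 4)]
      exact sub_nonneg.2 this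
    | n + 2 =>
      show 0 ≤ sev d (Zs.getD n [])
      rcases lt_or_ge n Zs.length with h | h
      · rw [List.getD_eq_getElem _ _ h]
        exact hZ _ (List.getElem_mem h)
      · rw [List.getD_eq_default _ _ h]
        simp [sev]

theorem rowZ2_nonneg (R : Rt V) (y y' : V) (Zs : List (List (ℤ × ℕ)))
    (hZ : ∀ l ∈ Zs, 0 ≤ sev (R.dd y y') l) (code : ℕ)
    (hok : okM (red2 (R.ty y) (R.ty y') (R.cn y y')) (blue2 (R.ty y) (R.ty y') (R.cn y y'))
      (rowM code) = true) : 0 ≤ sev (R.dd y y') (rowZ Zs code) := by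
  have h1 := ty_le R y'
  have h2 : R.cn y y' < 2 := by
    unfold Rt.cn
    cases R.S.c y y' <;> decide
  exact rn_root R y y' _ _ (by omega) h2 (Or.inl (by omega)) _ (dd_bound R y y') (fun _ _ => rfl)
    (fun _ => ⟨rfl, rfl, fun _ => rfl⟩) Zs hZ code hok

theorem rowZ1_nonneg (R : Rt V) (y y' : V) (Zs : List (List (ℤ × ℕ)))
    (hZ : ∀ l ∈ Zs, 0 ≤ sev (db (R.dd y y') 16) l) (code : ℕ)
    (hok : okM (red2 (R.ty y) 11 0) (blue2 (R.ty y) 11 0) (rowM code) = true) :
    0 ≤ sev (db (R.dd y y') 16) (rowZ Zs code) := by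
  refine rn_root R y y' 11 0 (by decide) (by decide) (Or.inr rfl) _ (fun k => ?_)
    (fun k hk => if_pos hk) (fun h => absurd h (lt_irrefl _)) Zs hZ code hok
  split_ifs
  · exact dd_bound R y y' k
  · norm_num

end

end Pool.Agent.P.MP_c18ddb_co.R
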