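import Pool.Agent.P.MP_c18ddb_co.R.S1D

namespace Pool.Agent.P.MP_c18ddb_co.R

theorem h0 : Hneg cS 0 :=
  hneg_of_chk1 cS 0 0x100000000 0x10000000000
    [(1091, 1, 0x7ffff8867fffff227ffffedc7fffff087ffffef57fffff167ffffef57ffffb9b7ffffb9a7ffffb9c80002b47, 0),
    (1603, 1, 0x7fffff1c7ffff88c7fffff387ffffeb47ffffefa7ffffb867ffffb9a7ffffed57fffff367ffffba480002b56, 0),
    (1667, 1, 0x7ffffede7ffffef77ffff8657fffff2e7ffffb9c7fffff087ffffb867fffff0f7ffffb697ffffeee80002bf7, 0),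
    (1675, 1, 0x7ffffee17fffff287fffff017ffff8727ffffb7f7ffffba27fffff177ffffb7f7ffffef67ffffefa80002bb0, 0),
    (2115, 1, 0x7ffffefe7fffff017ffffb8c7ffffb827ffff8727fffff1d7ffffee17ffffeee7fffff207ffffb9680002bb3, 0),
    (2179, 1, 0x7fffff097ffffbbc7ffffedf7ffffba57ffffeea7ffff89d7fffff127fffff1d7ffffb8d7fffff0980002af1, 0),
    (2187, 1, 0x7fffff317ffffb977ffffb827ffffece7ffffe9a7fffff377ffff86e7ffffb857fffff697ffffeda80002bb6, 0),
    (2243, 1, 0x7ffffbb87fffff017fffff027ffffbbe7fffff307ffffee27ffffbb97ffff8c57ffffecf7fffff2780002a41, 0),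
    (2251, 1, 0x7ffffba97fffff207ffffb987ffffedf7ffffeea7ffffb9a7fffff247ffffef57ffff8927fffff0a80002b21, 0),
    (2259, 1, 0x7ffffb9e7ffffb977ffffed87fffff377ffffbbc7fffff237ffffee77fffff087ffffee87ffff89a80002af0, 0),
    (144454, 6, 0x7caeb5b98000000083514a47800000008000000083514a47800000007caeb5b983514a477caeb5b9800000007d6e2487800000007d6e24868523b6f3800000008291db79800000008291db7a7d6e24867d6e2487800000007cda4ae98000000082192365810c91b2853ed87c7de6dc9b800000007de6dc9b7cda4ae982192365800000007ea5475c856ae2907d4a8eb87ea5475c7ea5475c82b57148800000007d4a8eb87ea5475c82b57148800000007e15a97f81ea568181ea56807e15a9807e15a9807e15a98085bf038281ea56807e15a97f7e15a980800000007c13047c7c13047c7c13047c7c13047c7c13047c7c13047c7c13047c7c13047c7c13047c7c13047cbf55d649, 0)]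
    (by decide +kernel)

theorem h1023 : Hneg cS 2046 :=
  hneg_of_chk1 cS 2046 0x100000000 0x10000000000
    [(263235, 1, 0x7ffff8867fffff227ffffedc7fffff087ffffef57fffff167ffffef57ffffb9b7ffffb9a7ffffb9c80002b47, 0),
    (263747, 1, 0x7fffff1c7ffff88c7fffff387ffffeb47ffffefa7ffffb867ffffb9a7ffffed57fffff367ffffba480002b56, 0),
    (263811, 1, 0x7ffffede7ffffef77ffff8657fffff2e7ffffb9c7fffff087ffffb867fffff0f7ffffb697ffffeee80002bf7, 0),
    (263819, 1, 0x7ffffee17fffff287fffff017ffff8727ffffb7f7ffffba27fffff177ffffb7f7ffffef67ffffefa80002bb0, 0),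
    (264259, 1, 0x7ffffefe7fffff017ffffb8c7ffffb827ffff8727fffff1d7ffffee17ffffeee7fffff207ffffb9680002bb3, 0),
    (264323, 1, 0x7fffff097ffffbbc7ffffedf7ffffba57ffffeea7ffff89d7fffff127fffff1d7ffffb8d7fffff0980002af1, 0),
    (264331, 1, 0x7fffff317ffffb977ffffb827ffffece7ffffe9a7fffff377ffff86e7ffffb857fffff697ffffeda80002bb6, 0),
    (264387, 1, 0x7ffffbb87fffff017fffff027ffffbbe7fffff307ffffee27ffffbb97ffff8c57ffffecf7fffff2780002a41, 0),
    (264395, 1, 0x7ffffba97fffff207ffffb987ffffedf7ffffeea7ffffb9a7fffff247ffffef57ffff8927fffff0a80002b21, 0),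
    (264403, 1, 0x7ffffb9e7ffffb977ffffed87fffff377ffffbbc7fffff237ffffee77fffff087ffffee87ffff89a80002af0, 0),
    (406598, 6, 0x7caeb5b98000000083514a47800000008000000083514a47800000007caeb5b983514a477caeb5b9800000007d6e2487800000007d6e24868523b6f3800000008291db79800000008291db7a7d6e24867d6e2487800000007cda4ae98000000082192365810c91b2853ed87c7de6dc9b800000007de6dc9b7cda4ae982192365800000007ea5475c856ae2907d4a8eb87ea5475c7ea5475c82b57148800000007d4a8eb87ea5475c82b57148800000007e15a97f81ea568181ea56807e15a9807e15a9807e15a98085bf038281ea56807e15a97f7e15a980800000007c13047c7c13047c7c13047c7c13047c7c13047c7c13047c7c13047c7c13047c7c13047c7c13047cbf55d649, 0)]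
    (by decide +kernel)

end Pool.Agent.P.MP_c18ddb_co.R
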