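import Pool.Agent.P.MP_c18ddb_co.R.Fin1

namespace Pool.Agent.P.MP_c18ddb_co.R

open Finset

section
variable {B K : ℕ} {z : ℕ → ℝ}

theorem RepN.to {f : ℕ} {v w : ℝ} (h : RepN B K z f v) (e : v = w) : RepN B K z f w := e ▸ h

theorem s1_dotU (Q : ℕ) {us : List ℕ} {ds : List ℝ} (h : List.Forall₂ (RepN B K z) us ds) (a : ℕ) :
    RepN B K z (dotU Q us a) (vecR Q ds a + (Q / 2 : ℕ) * ds.sum) := by
  induction h generalizing a with
  | nil => exact repN_zero.to (by simp [vecR])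
  | cons h1 _ ih =>
    refine (repN_add (repN_sm (a % Q) h1) (ih (a / Q))).to ?_
    rw [vecR, List.sum_cons]
    ring

theorem s1_sum {us : List ℕ} {ds : List ℝ} (h : List.Forall₂ (RepN B K z) us ds) :
    RepN B K z (nsum id us) ds.sum := by
  induction h with
  | nil => exact repN_zero
  | cons h1 _ ih => exact (repN_add h1 ih).to (by rw [List.sum_cons])

theorem s1_sxP (Q QL r : ℕ) {us : List ℕ} {X : ℕ → ℝ} (h : ∀ a, RepN B K z (dotU Q us a) (X a))
    (a : ℕ) : RepN B K z (sxP Q QL r us a) (∑ k ∈ range r, X (a / QL ^ k % QL)) := by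
  induction r generalizing a with
  | zero => exact repN_zero
  | succ r ih =>
    refine (repN_add (h (a % QL)) (ih (a / QL))).to ?_
    rw [sum_range_succ', add_comm]
    simp only [pow_zero, Nat.div_one, Nat.div_div_eq_div_mul, pow_succ']

theorem s1_pn {u : ℕ → ℕ} {d : ℕ → ℝ} (h : ∀ k, RepN B K z (u k) (d k)) (l : List (ℤ × ℕ)) :
    ∃ P N, RepN B K z (spn u zf0 l) P ∧ RepN B K z (spn zf0 u l) N ∧ P - N = sev d l := by
  induction l with
  | nil => exact ⟨0, 0, repN_zero, repN_zero, sub_self _⟩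
  | cons p l ih =>
    obtain ⟨P, N, h1, h2, h3⟩ := ih
    obtain ⟨c, k⟩ := p
    cases c with
    | ofNat n =>
      refine ⟨_, _, repN_add (repN_sm n (h k)) h1, repN_add (repN_sm n repN_zero) h2, ?_⟩
      rw [sev, ← h3]
      simp only [Int.ofNat_eq_natCast, Int.cast_natCast]
      ring
    | negSucc n =>
      refine ⟨_, _, repN_add (repN_sm (n + 1) repN_zero) h1, repN_add (repN_sm (n + 1) (h k)) h2,
        ?_⟩
      rw [sev, ← h3]
      simp only [Int.cast_negSucc]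
      ring

end

theorem s1_all {R : ℕ → ℝ → Prop} {u : ℕ → ℕ} {e : ℕ → ℝ} (h : ∀ k, R (u k) (e k)) (l : List ℕ) :
    List.Forall₂ R (l.map u) (l.map e) :=
  List.forall₂_map_right_iff.2 (List.forall₂_map_left_iff.2 (List.forall₂_same.2 fun k _ => h k))

theorem s1_neg (d : ℕ → ℝ) (l : List (ℤ × ℕ)) : sev (fun k => -d k) l = -sev d l := by
  induction l with
  | nil => simp [sev]
  | cons p l ih =>
    rw [sev, sev, ih]
    ring

abbrev RA (d : ℕ → ℝ) : ℕ → ℝ → Prop := RepN BA 12 (db d 11)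
abbrev RB (d : ℕ → ℝ) : ℕ → ℝ → Prop := RepN (BA ^ 12) 12 (db d 11)
abbrev RC (d : ℕ → ℝ) : ℕ → ℝ → Prop := RepN (BA ^ (12 * 12)) 23 (sg 11 d)
abbrev R2 (d : ℕ → ℝ) : ℕ → ℝ → Prop :=
  RepN BA (12 * 12) fun i => db d 11 (i % 12) * db d 11 (i / 12)
abbrev R3 (d : ℕ → ℝ) : ℕ → ℝ → Prop :=
  RepN BA (12 * 12 * 23) fun i =>
    (db d 11 (i % (12 * 12) % 12) * db d 11 (i % (12 * 12) / 12)) * sg 11 d (i / (12 * 12))

section
variable {d : ℕ → ℝ}

theorem s1_BA : 2 ≤ BA := by unfold BA; norm_num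

theorem s1_m2 {f g : ℕ} {v w : ℝ} (hf : RA d f v) (hg : RB d g w) : R2 d (Nat.mul f g) (v * w) :=
  repN_mul s1_BA (by norm_num) (by norm_num) hf hg

theorem s1_m3 {f g : ℕ} {v w : ℝ} (hf : R2 d f v) (hg : RC d g w) : R3 d (Nat.mul f g) (v * w) := by
  have h := repN_mul (K := 12 * 12) (K' := 23) s1_BA (by decide) (by decide) hf hg
  exact h

theorem s1_unit (B k : ℕ) : RepN B 12 (db d 11)
    (bif Nat.blt k 11 then Nat.add (Nat.pow B k) (Nat.pow B 11) else 0) (db d 11 k) := by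
  by_cases hk : k < 11
  · rw [Nat.blt_eq.mpr hk, cond_true]
    exact repN_unit (K := 12) (by omega) (by simp [db])
  · have e : Nat.blt k 11 = false := by
      rw [← Bool.not_eq_true, Nat.blt_eq]; exact hk
    rw [e, cond_false]
    exact repN_zero.to (by rw [db, if_neg hk])

theorem s1_uA (k : ℕ) : RA d (uA k) (db d 11 k) := s1_unit BA k
theorem s1_uB (k : ℕ) : RB d (uB k) (db d 11 k) := s1_unit (BA ^ 12) k
theorem s1_uC (k : ℕ) : RC d (uC k) (db d 11 k) := repN_upos (n := 11) le_rfl k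
theorem s1_nC (k : ℕ) : RC d (nC k) (-db d 11 k) := repN_uneg (n := 11) le_rfl k

theorem s1_sqP (Q QL r : ℕ) {us vs : List ℕ} {X Y : ℕ → ℝ} (h : ∀ a, RA d (dotU Q us a) (X a))
    (h' : ∀ a, RB d (dotU Q vs a) (Y a)) (a b : ℕ) : R2 d (sqP Q QL r us vs a b)
      (∑ k ∈ range r, X (a / QL ^ k % QL) * Y (b / QL ^ k % QL)) := by
  induction r generalizing a b with
  | zero => exact repN_zero
  | succ r ih =>
    refine (repN_add (s1_m2 (h (a % QL)) (h' (b % QL))) (ih (a / QL) (b / QL))).to ?_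
    rw [sum_range_succ', add_comm]
    simp only [pow_zero, Nat.div_one, Nat.div_div_eq_div_mul, pow_succ']

theorem s1_sq (Q QL r : ℕ) {us vs : List ℕ} {dA dB : List ℝ} (h : List.Forall₂ (RA d) us dA)
    (h' : List.Forall₂ (RB d) vs dB) (a b : ℕ) :
    ∃ P N, R2 d (sqPos Q QL r us vs (nsum id us) (nsum id vs) a b) P ∧
      R2 d (sqNeg Q QL r us vs (nsum id us) (nsum id vs) a b) N ∧ P - N = sqR Q QL r dA dB a b := by
  refine ⟨_, _, repN_add (s1_sqP Q QL r (s1_dotU Q h) (s1_dotU Q h') a b)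
    (repN_sm (r * (Q / 2 * (Q / 2))) (s1_m2 (s1_sum h) (s1_sum h'))), repN_sm (Q / 2) (repN_add
      (s1_m2 (s1_sxP Q QL r (s1_dotU Q h) a) (s1_sum h'))
      (s1_m2 (s1_sum h) (s1_sxP Q QL r (s1_dotU Q h') b))), ?_⟩
  rw [sqR]
  generalize Q / 2 = c
  push_cast
  generalize dA.sum = U
  generalize dB.sum = W
  induction r with
  | zero => simp
  | succ r ih =>
    simp only [sum_range_succ]
    push_cast
    linear_combination ih

theorem s1_tm3 {p m : ℕ} {P N : ℝ} (hp : R2 d p P) (hm : R2 d m N) {u nu : ℕ → ℕ} {e : ℕ → ℝ}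
    (hu : ∀ k, RC d (u k) (e k)) (hn : ∀ k, RC d (nu k) (-e k)) (l : List (ℤ × ℕ)) :
    R3 d (tm3 p m u nu l) ((P - N) * sev e l) := by
  refine (repN_add (s1_m3 hp (repN_spn hu hn l)) (s1_m3 hm (repN_spn (d := fun k => -e k) hn
    (fun k => (hu k).to (neg_neg _).symm) l))).to ?_
  rw [s1_neg]
  ring

theorem s1_bif {c : Bool} {f : ℕ} {v : ℝ} (h : R3 d f v) :
    R3 d (bif c then f else 0) (bif c then v else 0) := by
  cases c
  · exact repN_zero
  · exact h

theorem s1_matP (Q : ℕ) {us vs : List ℕ} {dA : List ℝ} {Y : ℕ → ℝ} (h : List.Forall₂ (RA d) us dA)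
    (h' : ∀ a, RB d (dotU Q vs a) (Y a)) (n : ℕ) : R2 d (matP Q vs us n)
      (∑ a ∈ range dA.length, dA.getD a 0 * Y (n / (Q ^ 7) ^ a % Q ^ 7)) := by
  induction h generalizing n with
  | nil => exact repN_zero
  | cons h1 _ ih =>
    refine (repN_add (s1_m2 h1 (h' (n % Q ^ 7))) (ih (n / Q ^ 7))).to ?_
    rw [List.length_cons, sum_range_succ', add_comm]
    simp only [pow_zero, Nat.div_one, Nat.div_div_eq_div_mul, pow_succ' (Q ^ 7),
      List.getD_cons_succ, List.getD_cons_zero]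

theorem s1_TP2 (C : C1) (g : ℕ) {n : ℕ} {e : ℕ → ℝ}
    (he : ∀ k < 11, db d 11 (sl n k) = e k) {us vs ws : List ℕ}
    (hu : List.Forall₂ (RA d) us [e 0, e 1, e 2, e 3, e 4, e 5, e 6])
    (hv : List.Forall₂ (RB d) vs [e 0, e 1, e 2, e 3, e 7, e 8, e 9])
    (hw : List.Forall₂ (RB d) ws [e 0, e 1, e 2, e 3, e 4, e 5, e 6]) :
    R3 d (TP2 C g n us vs ws (nsum id us)) (TR C g e) := by
  unfold TP2 TR
  simp only [fN_eq]
  refine repN_add ?_ ?_
  · unfold flagP flagR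
    simp only [lk_eq]
    refine repN_nsum _ fun bl _ => s1_bif ?_
    obtain ⟨P, N, h1, h2, h3⟩ := s1_sq C.Qv (C.Qv ^ 7) bl.2.1 hu hv (bl.2.2.getD (g / 16 % 8) 0)
      (bl.2.2.getD (g / 128 % 8) 0)
    rw [← h3]
    refine s1_tm3 h1 h2 (fun k => ?_) (fun k => ?_) _
    all_goals
      by_cases hk : k < 4
      · rw [Nat.blt_eq.mpr hk, cond_true, db, if_pos hk, ← he k (by omega)]
        first | exact s1_uC _ | exact s1_nC _
      · have e : Nat.blt k 4 = false := by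
          rw [← Bool.not_eq_true, Nat.blt_eq]; exact hk
        rw [e, cond_false, db, if_neg hk]
        exact repN_zero.to (by simp)
  · unfold regP regR
    simp only [lk_eq]
    refine repN_nsum _ fun p hp => ?_
    have h4 : p.2 < 4 := by
      have h1 := List.snd_lt_of_mem_zipIdx hp
      have h2 := List.length_take_le 4 (C.rg.getD (Nat.mod (Nat.div g 2) 64) [])
      omega
    refine (s1_tm3 (s1_matP C.Qr hu (s1_dotU C.Qr hw) p.1) (repN_sm (C.Qr / 2)
      (s1_m2 (s1_sum hu) (s1_sum hw))) (fun k => s1_uC (sl n k)) (fun k => s1_nC (sl n k)) _).to ?_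
    congr 1
    · rw [matR]
      generalize vecR C.Qr [e 0, e 1, e 2, e 3, e 4, e 5, e 6] = Y
      simp only [List.length_cons, List.length_nil, Nat.reduceAdd, sum_range_succ, sum_range_zero,
        List.getD_cons_succ, List.getD_cons_zero, List.sum_cons, List.sum_nil]
      ring
    · simp only [sev, Nat.add_eq]
      rw [he _ (by omega), he _ (by omega)]
      push_cast
      ring

theorem s1_TP (C : C1) (g : ℕ) {n : ℕ} (hn : n ∈ SM) :
    R3 d (TP C g n) (TR C (gperm g n) (db (fun k => d (sl n k)) 11)) := by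
  have he : ∀ k < 11, db d 11 (sl n k) = db (fun k => d (sl n k)) 11 k := fun k hk => by
    rw [db, db, if_pos hk, if_pos (sl_lt n hn k)]
  have hA : ∀ k < 11, RA d (uA (sl n k)) (db (fun k => d (sl n k)) 11 k) := fun k hk =>
    (s1_uA _).to (he k hk)
  have hB : ∀ k < 11, RB d (uB (sl n k)) (db (fun k => d (sl n k)) 11 k) := fun k hk =>
    (s1_uB _).to (he k hk)
  have hA0 := hA 0 (by omega)
  have hB0 := hB 0 (by omega)
  rw [sl_zero n hn] at hA0 hB0
  unfold TP TP1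
  rw [fN_eq]
  refine s1_TP2 C _ he ?_ ?_ ?_
  all_goals
    simp only [List.forall₂_cons, List.forall₂_nil_left_iff, and_true]
    refine ⟨by assumption, ?_, ?_, ?_, ?_, ?_, ?_⟩
    all_goals first | exact hA _ (by omega) | exact hB _ (by omega)

theorem s1_prP (hd : db d 11 = d) {g : ℕ}
    (hg : ∀ c, okM g (2046 - g) (rowM c) = true → 0 ≤ sev d (row1 c)) (e : ℕ) :
    ∃ P N, R2 d (prP g true e) P ∧ R2 d (prP g false e) N ∧ 0 ≤ P - N := by
  unfold prP
  simp only [fN_eq]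
  generalize Nat.mod e 524288 = c
  generalize Nat.mod (Nat.div e 524288) 524288 = c'
  generalize Nat.div e 274877906944 = y
  cases hc : okM g (Nat.sub 2046 g) (rowM c) && okM g (Nat.sub 2046 g) (rowM c')
  · exact ⟨0, 0, repN_zero, repN_zero, by simp⟩
  · rw [Bool.and_eq_true] at hc
    simp only [cond_true, cond_false]
    obtain ⟨P, N, h1, h2, h3⟩ := s1_pn (s1_uA (d := d)) (row1 c)
    obtain ⟨P', N', h1', h2', h3'⟩ := s1_pn (s1_uB (d := d)) (row1 c')
    refine ⟨_, _, repN_sm y (repN_add (s1_m2 h1 h1') (s1_m2 h2 h2')),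
      repN_sm y (repN_add (s1_m2 h1 h2') (s1_m2 h2 h1')), ?_⟩
    rw [hd] at h3 h3'
    have h4 := mul_nonneg (Nat.cast_nonneg (α := ℝ) y) (mul_nonneg (hg c hc.1) (hg c' hc.2))
    rw [← h3, ← h3'] at h4
    linarith

theorem s1_pwP (hd : db d 11 = d) {g : ℕ}
    (hg : ∀ c, okM g (2046 - g) (rowM c) = true → 0 ≤ sev d (row1 c)) (Q Qp : ℕ)
    (bl : ℕ × ℕ × ℕ × ℕ) : ∃ v, R3 d (pwP Q Qp g bl) v ∧ 0 ≤ v := by
  unfold pwP
  cases hc : okM g (Nat.sub 2046 g) (rowM bl.1)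
  · exact ⟨0, repN_zero, le_rfl⟩
  · choose P N h1 h2 h3 using s1_prP hd hg
    rw [cond_true]
    obtain ⟨P', N', h1', h2', h3'⟩ := s1_sq (d := d) Q (Q ^ 11) bl.2.1 (us := usA) (vs := usB)
      (s1_all s1_uA [0, 1, 2, 3, 4, 5, 6, 7, 8, 9, 10])
      (s1_all s1_uB [0, 1, 2, 3, 4, 5, 6, 7, 8, 9, 10]) bl.2.2.1 bl.2.2.1
    refine ⟨_, s1_tm3 (repN_add h1' (repN_ploop Qp 2000 bl.2.2.2 h1))
      (repN_add h2' (repN_ploop Qp 2000 bl.2.2.2 h2)) s1_uC s1_nC _, mul_nonneg ?_ ?_⟩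
    · have h4 : 0 ≤ P' - N' := h3' ▸ sum_nonneg fun k _ => mul_self_nonneg _
      have h5 := List.sum_le_sum (l := unp Qp 2000 bl.2.2.2) (f := N) (g := P)
        fun a _ => sub_nonneg.1 (h3 a)
      linarith
    · rw [hd]
      exact hg _ hc

end

theorem hneg_of_chk1 (C : C1) (g Q Qp : ℕ) (pw : List (ℕ × ℕ × ℕ × ℕ))
    (h : chk1 C g Q Qp pw = true) : Hneg C g := by
  intro V _ S hS q hq
  subst hq
  choose v h1 h2 using s1_pwP (dS_db S q) (row5_nonneg S hS q) Q Qp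
  rw [chk1, fN_eq] at h
  have h3 := fin1_sound (repN_add (repN_nsum SM fun n hn => s1_TP C (gS S q) hn)
    (repN_nsum pw fun bl _ => h1 bl)) (dS_zero S q) (dS_bound S q) h
  have h4 : 0 ≤ (pw.map v).sum := List.sum_nonneg fun x hx => by
    obtain ⟨bl, _, rfl⟩ := List.mem_map.1 hx
    exact h2 bl
  rw [HR_eq]
  linarith

end Pool.Agent.P.MP_c18ddb_co.R
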